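import Pool.Agent.MP_f0209c_nt.OF.Defs

-- part Mom
section

set_option autoImplicit false

open Polynomial Finset Filter
open scoped Classical BigOperators

noncomputable section
namespace H18F
open Pool.Agent.H4O (box mon prs qq)
open Pool.Agent.H48P (jac chi)
open Pool.Agent.MP_f0209c_nt.FF (mu ev MM HH AA)

/-- Quadruples without a simple label are rare. -/
theorem mom_bad {G I : Type} [AddCommGroup G] [Fintype I] (B : Finset G) (c : I → G) (i₀ : I)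
    (hc : ∀ i, c i = c i₀ → i = i₀) :
    #{β ∈ Fintype.piFinset fun _ : Fin 4 => B |
      ¬∃ j₀, ∀ z : Fin 4 × I, β z.1 + c z.2 = β j₀ + c i₀ → z = (j₀, i₀)} ≤
      9 * Fintype.card I ^ 2 * #B ^ 2 := by
  let f : Fin 4 → Fin 4 := ![0, 2, 1, 1]
  let g : Fin 4 → Fin 4 := ![0, 3, 3, 2]
  let E : (Σ _ : Fin 4, Fin 4) × I × I → Finset (Fin 4 → G) := fun t =>
    {β ∈ Fintype.piFinset fun _ : Fin 4 => B | β t.1.1 + c t.2.1 = β 0 + c i₀ ∧
      β t.1.2 + c t.2.2 = β (f t.1.1) + c i₀}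
  let J : Finset ((Σ _ : Fin 4, Fin 4) × I × I) :=
    ((univ.erase 0).sigma fun j => univ.erase (f j)) ×ˢ univ
  have hJ : #J = 9 * Fintype.card I ^ 2 := by
    rw [card_product, card_sigma, card_univ, Fintype.card_prod]
    simp only [card_erase_of_mem (mem_univ _), card_univ, Fintype.card_fin, sum_const]
    ring
  have hE : ∀ t ∈ J, #(E t) ≤ #B ^ 2 := by
    rintro ⟨⟨j, j'⟩, i, i'⟩ ht
    simp only [J, mem_product, mem_sigma, mem_erase, mem_univ, and_true] at ht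
    rw [sq, ← card_product]
    refine card_le_card_of_injOn (fun β => (β j, β (g j))) (fun β hβ => ?_) ?_
    · have := Fintype.mem_piFinset.1 (mem_filter.1 hβ).1
      exact mem_coe.2 (mem_product.2 ⟨this _, this _⟩)
    · intro β hβ γ hγ e
      obtain ⟨-, a1, a2⟩ := mem_filter.1 hβ
      obtain ⟨-, b1, b2⟩ := mem_filter.1 hγ
      obtain ⟨e1, e2⟩ := Prod.ext_iff.1 e
      dsimp only at a1 a2 b1 b2 e1 e2
      have e0 : β 0 = γ 0 := add_right_cancel (a1.symm.trans (e1 ▸ b1))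
      have cov : ∀ j m : Fin 4, j ≠ 0 → m = 0 ∨ m = j ∨ m = g j ∨ m = f j := by decide
      have e3 : β j' = γ j' := by
        rcases cov j j' ht.1 with rfl | rfl | rfl | h
        exacts [e0, e1, e2, absurd h ht.2]
      have e4 : β (f j) = γ (f j) := add_right_cancel (a2.symm.trans (e3 ▸ b2))
      funext m
      rcases cov j m ht.1 with rfl | rfl | rfl | rfl
      exacts [e0, e1, e2, e4]
  refine (card_le_card (t := J.biUnion E) fun β hβ => ?_).trans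
    (card_biUnion_le.trans ((sum_le_card_nsmul _ _ _ hE).trans (by rw [hJ, smul_eq_mul])))
  obtain ⟨hB, hβ⟩ := mem_filter.1 hβ
  push Not at hβ
  have key : ∀ j₀, ∃ j i, j ≠ j₀ ∧ β j + c i = β j₀ + c i₀ := fun j₀ => by
    obtain ⟨⟨j, i⟩, e, ne⟩ := hβ j₀
    refine ⟨j, i, ?_, e⟩
    rintro rfl
    exact ne (by rw [hc i (add_left_cancel e)])
  obtain ⟨j, i, n1, e1⟩ := key 0
  obtain ⟨j', i', n2, e2⟩ := key (f j)
  refine mem_biUnion.2 ⟨(⟨j, j'⟩, i, i'), ?_, mem_filter.2 ⟨hB, e1, e2⟩⟩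
  simp only [J, mem_product, mem_sigma, mem_erase, mem_univ, and_true]
  exact ⟨n1, n2⟩

/-- The fourth moment. -/
theorem mom_quad {G I F₁ F₂ : Type} [AddCommGroup G] [Fintype I] [Field F₁] [Fintype F₁] [Field F₂]
    [Fintype F₂] (h₁ : (2 : F₁) ≠ 0) (h₂ : (2 : F₂) ≠ 0) (φ₁ : G → F₁) (φ₂ : G → F₂)
    (B : Finset G) (c : I → G) (i₀ : I) (hc : ∀ i, c i = c i₀ → i = i₀)
    (j₁ : ∀ b ∈ B, ∀ b' ∈ B, ∀ i i', φ₁ (b + c i) = φ₁ (b' + c i') → b + c i = b' + c i')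
    (j₂ : ∀ b ∈ B, ∀ b' ∈ B, ∀ i i', φ₂ (b + c i) = φ₂ (b' + c i') → b + c i = b' + c i') :
    ∑ y : F₁ × F₂, (∑ b ∈ B, ∏ i, chi (y.1 + φ₁ (b + c i)) * chi (y.2 + φ₂ (b + c i))) ^ 4 ≤
      9 * (Fintype.card I : ℝ) ^ 2 * (#B : ℝ) ^ 2 * (Fintype.card F₁ * Fintype.card F₂) +
        (#B : ℝ) ^ 4 * ((20 * Fintype.card I) ^ 2 * √(Fintype.card F₁ * Fintype.card F₂)) := by
  simp only [sum_pow']
  rw [sum_comm]
  have e : ∀ β : Fin 4 → G, ∑ y : F₁ × F₂, ∏ j, ∏ i,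
      chi (y.1 + φ₁ (β j + c i)) * chi (y.2 + φ₂ (β j + c i)) =
      (∑ y, ∏ z : Fin 4 × I, chi (y + φ₁ (β z.1 + c z.2))) *
        ∑ y, ∏ z : Fin 4 × I, chi (y + φ₂ (β z.1 + c z.2)) := fun β => by
    rw [sum_mul_sum, Fintype.sum_prod_type]
    refine sum_congr rfl fun y _ => sum_congr rfl fun y' _ => ?_
    rw [← prod_mul_distrib, Fintype.prod_prod_type]
  simp only [e]
  have triv : ∀ (F : Type) [Field F] [Fintype F] (u : Fin 4 × I → F),
      |∑ y, ∏ z, chi (y + u z)| ≤ Fintype.card F := fun F _ _ u => by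
    refine (abs_sum_le_sum_abs _ _).trans ((sum_le_card_nsmul _ _ 1 fun y _ => ?_).trans (by simp))
    rw [abs_prod]
    exact prod_le_one (fun _ _ => abs_nonneg _) fun _ _ => Pool.Agent.H48P.abs_chi_le _
  have weil : ∀ (F : Type) [Field F] [Fintype F], (2 : F) ≠ 0 → ∀ (u : Fin 4 × I → F) z₀,
      (∀ z, u z = u z₀ → z = z₀) →
      |∑ y, ∏ z, chi (y + u z)| ≤ 20 * Fintype.card I * √(Fintype.card F) :=
    fun F _ _ h u z₀ hz => by
      have := Pool.Agent.H4O.chi_sub h ⊤ u z₀ hz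
      simp only [AddSubgroup.mem_top, filter_true, Fintype.card_prod, Fintype.card_fin] at this
      push_cast at this
      linarith
  set P := Fintype.piFinset fun _ : Fin 4 => B
  rw [← sum_filter_add_sum_filter_not P
    (fun β => ¬∃ j₀, ∀ z : Fin 4 × I, β z.1 + c z.2 = β j₀ + c i₀ → z = (j₀, i₀))]
  refine add_le_add ?_ ?_
  · refine (sum_le_card_nsmul _ _ ((Fintype.card F₁ : ℝ) * Fintype.card F₂) fun β _ => ?_).trans ?_
    · refine (le_abs_self _).trans ?_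
      rw [abs_mul]
      exact mul_le_mul (triv _ _) (triv _ _) (abs_nonneg _) (by positivity)
    · rw [nsmul_eq_mul]
      refine mul_le_mul_of_nonneg_right ?_ (by positivity)
      exact_mod_cast mom_bad B c i₀ hc
  · refine (sum_le_card_nsmul _ _ ((20 * Fintype.card I : ℝ) ^ 2 *
      √(Fintype.card F₁ * Fintype.card F₂)) fun β hβ => ?_).trans ?_
    · obtain ⟨hB, hβ⟩ := mem_filter.1 hβ
      obtain ⟨j₀, hj⟩ := not_not.1 hβ
      have hB := Fintype.mem_piFinset.1 hB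
      have a := weil F₁ h₁ (fun z => φ₁ (β z.1 + c z.2)) (j₀, i₀) fun z hz =>
        hj z (j₁ _ (hB _) _ (hB _) _ _ hz)
      have b := weil F₂ h₂ (fun z => φ₂ (β z.1 + c z.2)) (j₀, i₀) fun z hz =>
        hj z (j₂ _ (hB _) _ (hB _) _ _ hz)
      refine (le_abs_self _).trans ?_
      rw [abs_mul, Real.sqrt_mul (by positivity)]
      exact (mul_le_mul a b (abs_nonneg _) (by positivity)).trans_eq (by ring)
    · rw [nsmul_eq_mul]
      refine mul_le_mul_of_nonneg_right ?_ (by positivity)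
      have : #P = #B ^ 4 := by simp [P]
      exact_mod_cast this ▸ card_filter_le P _

theorem mom_row : MOM_s := by
  intro A F₁ F₂ _ _ _ _ _ h₁ h₂ φ₁ φ₂ U hU hadd i₁ i₂ L hL ⟨v, hv⟩
  have hm : ∀ i : Fin L.length, L.get i ∈ U := fun i => hL _ (List.get_mem L i)
  obtain ⟨i₀, hi⟩ := Pool.Agent.H4O.get_simple L v hv
  have q := mom_quad h₁ h₂ φ₁ φ₂ U L.get i₀
    hi
    (fun b hb b' hb' i i' e => i₁ (hadd _ hb _ (hm i)) (hadd _ hb' _ (hm i')) e)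
    (fun b hb b' hb' i i' e => i₂ (hadd _ hb _ (hm i)) (hadd _ hb' _ (hm i')) e)
  have u0 : (0 : ℝ) < #U := by exact_mod_cast hU.card_pos
  have e : ∀ (x : F₁ × F₂) (b : A),
      (L.map fun v => chi (x.1 + φ₁ (v + b)) * chi (x.2 + φ₂ (v + b))).prod =
        ∏ i, chi (x.1 + φ₁ (b + L.get i)) * chi (x.2 + φ₂ (b + L.get i)) := fun x b => by
    rw [← List.prod_ofFn]
    congr 1
    refine List.ext_get (by simp) fun n _ _ => ?_
    simp [add_comm b]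
  simp only [e, expect_eq_sum_div_card, div_pow]
  rw [← sum_div, div_le_iff₀ (by positivity)]
  rw [Fintype.card_fin, Real.sqrt_mul (by positivity)] at q
  refine q.trans_eq ?_
  field_simp
  ring

end H18F

end
end

-- part Ene
section

set_option autoImplicit false

open Polynomial Finset Filter
open scoped Classical BigOperators

noncomputable section
namespace H18F
open Pool.Agent.H4O (box mon prs qq)
open Pool.Agent.H48P (jac chi)
open Pool.Agent.MP_f0209c_nt.FF (mu ev MM HH AA)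

section
open Pool.Agent.H4O (mem_box mem_prs card_box)
variable {k : Type} [Field k] [Fintype k]

omit [Fintype k] in
theorem ene_cop {a b : k[X]} (ha : a.Monic) (ia : Irreducible a) (hb : b.Monic)
    (ib : Irreducible b) (h : a ≠ b) : IsCoprime a b :=
  ia.coprime_iff_not_dvd.2 fun d =>
    h (eq_of_monic_of_associated ha hb (ia.associated_of_dvd ib d))

omit [Fintype k] in
theorem ene_deg {s a : k[X]} {l al : ℕ} (hs : s.degree < l) (ha : a.Monic)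
    (e : a.natDegree = al) : (s * a).degree < (l + al : ℕ) := by
  rw [degree_mul, degree_eq_natDegree ha.ne_zero, e, Nat.cast_add]
  exact WithBot.add_lt_add_right (WithBot.natCast_ne_bot al) hs

/-- two solutions for the same pair of primes -/
theorem ene_eq {K₁ K₂ r₁ r₂ a a' s s' t t' : k[X]} {l al : ℕ} (m₁ : K₁.Monic)
    (i₁ : Irreducible K₁) (m₂ : K₂.Monic) (i₂ : Irreducible K₂) (hK : K₁ ≠ K₂)
    (hd : l + al ≤ K₁.natDegree + K₂.natDegree) (ha : a ∈ prs k al) (ha' : a' ∈ prs k al)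
    (hs : s ∈ box k l) (hs' : s' ∈ box k l) (ht : t ∈ box k l) (ht' : t' ∈ box k l)
    (a1 : K₁ ∣ (s + r₁) * a' - (s' + r₁) * a) (a2 : K₂ ∣ (s + r₂) * a' - (s' + r₂) * a)
    (b1 : K₁ ∣ (t + r₁) * a' - (t' + r₁) * a) (b2 : K₂ ∣ (t + r₂) * a' - (t' + r₂) * a) :
    (s - t) * a' = (s' - t') * a := by
  have e : ∀ r, (s - t) * a' - (s' - t') * a =
      ((s + r) * a' - (s' + r) * a) - ((t + r) * a' - (t' + r) * a) := fun r => by ring
  have d : K₁ * K₂ ∣ (s - t) * a' - (s' - t') * a :=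
    (ene_cop m₁ i₁ m₂ i₂ hK).mul_dvd (e r₁ ▸ dvd_sub a1 b1) (e r₂ ▸ dvd_sub a2 b2)
  rw [mem_box] at hs hs' ht ht'
  rw [mem_prs] at ha ha'
  refine sub_eq_zero.1 (eq_zero_of_dvd_of_degree_lt d ?_)
  rw [degree_eq_natDegree (m₁.mul m₂).ne_zero, m₁.natDegree_mul m₂]
  refine lt_of_lt_of_le ((degree_sub_le _ _).trans_lt (max_lt ?_ ?_)) (Nat.cast_le.2 hd)
  · exact ene_deg ((degree_sub_le _ _).trans_lt (max_lt hs ht)) ha'.1 ha'.2.2
  · exact ene_deg ((degree_sub_le _ _).trans_lt (max_lt hs' ht')) ha.1 ha.2.2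

theorem ene_prs (e : ℕ) : (#(prs k e) : ℝ) ≤ qq k ^ e := by
  rw [← card_box]
  exact_mod_cast (card_filter_le _ _).trans card_image_le

end

theorem ene_row {k : Type} [Field k] [Fintype k] : ENE_s k := by
  intro K₁ K₂ r₁ r₂ l al m₁ i₁ m₂ i₂ hK hl _ _ hd
  let T : k[X] → k[X] → Finset (k[X] × k[X]) := fun a a' =>
    {s ∈ box k l ×ˢ box k l | K₁ ∣ (s.1 + r₁) * a' - (s.2 + r₁) * a ∧
      K₂ ∣ (s.1 + r₂) * a' - (s.2 + r₂) * a}
  have key : ∀ a ∈ prs k al, ∀ a' ∈ prs k al, ∀ s ∈ T a a', ∀ t ∈ T a a',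
      (s.1 - t.1) * a' = (s.2 - t.2) * a := fun a ha a' ha' s hs t ht => by
    obtain ⟨s0, s1, s2⟩ := mem_filter.1 hs
    obtain ⟨t0, t1, t2⟩ := mem_filter.1 ht
    rw [mem_product] at s0 t0
    exact ene_eq m₁ i₁ m₂ i₂ hK hd ha ha' s0.1 s0.2 t0.1 t0.2 s1 s2 t1 t2
  have inj : ∀ a ∈ prs k al, ∀ a' ∈ prs k al, ∀ s ∈ T a a', ∀ t ∈ T a a', s.1 = t.1 → s = t :=
    fun a ha a' ha' s hs t ht e => by
      have := key a ha a' ha' s hs t ht
      rw [e, sub_self, zero_mul] at this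
      exact Prod.ext e (sub_eq_zero.1 ((mul_eq_zero.1 this.symm).resolve_right
        (Pool.Agent.H4O.mem_prs.1 ha).1.ne_zero))
  have c1 : ∀ a ∈ prs k al, ∀ a' ∈ prs k al, (#(T a a') : ℝ) ≤ qq k ^ l := fun a ha a' ha' => by
    rw [← Pool.Agent.H4O.card_box]
    exact_mod_cast card_le_card_of_injOn Prod.fst
      (fun s hs => (mem_product.1 (mem_filter.1 hs).1).1) (inj a ha a' ha')
  have c2 : ∀ a ∈ prs k al, ∀ a' ∈ prs k al, a' ≠ a → (#(T a a') : ℝ) ≤ qq k ^ (l - al) :=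
    fun a ha a' ha' ne => by
      rcases (T a a').eq_empty_or_nonempty with h | ⟨t, ht⟩
      · rw [h, card_empty, Nat.cast_zero]
        exact pow_nonneg (Nat.cast_nonneg _) _
      obtain ⟨p1, p2, p3⟩ := Pool.Agent.H4O.mem_prs.1 ha
      obtain ⟨q1, q2, -⟩ := Pool.Agent.H4O.mem_prs.1 ha'
      have dv : ∀ s ∈ T a a', a * ((s.1 - t.1) /ₘ a) = s.1 - t.1 := fun s hs => by
        have d : a ∣ s.1 - t.1 := (ene_cop p1 p2 q1 q2 ne.symm).dvd_of_dvd_mul_right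
          (key a ha a' ha' s hs t ht ▸ dvd_mul_left _ _)
        have := modByMonic_add_div (s.1 - t.1) a
        rwa [(modByMonic_eq_zero_iff_dvd p1).2 d, zero_add] at this
      rw [← Pool.Agent.H4O.card_box]
      refine Nat.cast_le.2 (card_le_card_of_injOn (fun s => (s.1 - t.1) /ₘ a) (fun s hs => ?_)
        fun s hs u hu e => inj a ha a' ha' s hs u hu ?_)
      · have d : (s.1 - t.1).degree < l := (degree_sub_le _ _).trans_lt (max_lt
          (Pool.Agent.H4O.mem_box.1 (mem_product.1 (mem_filter.1 hs).1).1)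
          (Pool.Agent.H4O.mem_box.1 (mem_product.1 (mem_filter.1 ht).1).1))
        rw [← dv s hs, degree_mul, degree_eq_natDegree p1.ne_zero, p3,
          ← Nat.add_sub_cancel' hl, Nat.cast_add] at d
        exact mem_coe.2 (Pool.Agent.H4O.mem_box.2
          ((WithBot.add_lt_add_iff_left (WithBot.natCast_ne_bot al)).1 d))
      · have := (dv s hs).symm.trans ((congrArg (a * ·) e).trans (dv u hu))
        exact sub_left_inj.1 this
  have tot : #{w ∈ (prs k al ×ˢ box k l) ×ˢ (prs k al ×ˢ box k l) |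
      K₁ ∣ (w.1.2 + r₁) * w.2.1 - (w.2.2 + r₁) * w.1.1 ∧
      K₂ ∣ (w.1.2 + r₂) * w.2.1 - (w.2.2 + r₂) * w.1.1} ≤
      ∑ a ∈ prs k al, ∑ a' ∈ prs k al, #(T a a') := by
    rw [← sum_product', ← card_sigma]
    refine card_le_card_of_injOn (fun w => ⟨(w.1.1, w.2.1), (w.1.2, w.2.2)⟩) (fun w hw => ?_) ?_
    · obtain ⟨w0, w1⟩ := mem_filter.1 hw
      simp only [mem_product] at w0
      exact mem_coe.2 (mem_sigma.2 ⟨mem_product.2 ⟨w0.1.1, w0.2.1⟩,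
        mem_filter.2 ⟨mem_product.2 ⟨w0.1.2, w0.2.2⟩, w1⟩⟩)
    · rintro ⟨⟨a, s⟩, a', s'⟩ - ⟨⟨b, t⟩, b', t'⟩ - e
      simp only [Sigma.mk.injEq, Prod.mk.injEq, heq_eq_eq] at e
      obtain ⟨⟨rfl, rfl⟩, rfl, rfl⟩ := e
      rfl
  have q0 : 0 ≤ qq k := Nat.cast_nonneg _
  have row : ∀ a ∈ prs k al, ∑ a' ∈ prs k al, (#(T a a') : ℝ) ≤ 2 * qq k ^ l := fun a ha => by
    rw [← add_sum_erase _ _ ha]
    have s1 := sum_le_card_nsmul ((prs k al).erase a) (fun a' => (#(T a a') : ℝ)) _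
      fun a' h => c2 a ha a' (mem_erase.1 h).2 (mem_erase.1 h).1
    have s2 : (#((prs k al).erase a) : ℝ) ≤ qq k ^ al :=
      (Nat.cast_le.2 card_erase_le).trans (ene_prs al)
    have s3 := mul_le_mul_of_nonneg_right s2 (pow_nonneg q0 (l - al))
    rw [← pow_add, Nat.add_sub_cancel' hl] at s3
    rw [nsmul_eq_mul] at s1
    linarith [c1 a ha a ha]
  refine (Nat.cast_le.2 tot).trans ?_
  push_cast
  refine (sum_le_card_nsmul _ _ _ row).trans_eq ?_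
  rw [nsmul_eq_mul]
  ring

end H18F

end
end

-- part Burg
section

set_option autoImplicit false

open Polynomial Finset Filter
open scoped Classical BigOperators

noncomputable section
namespace H18F
open Pool.Agent.H4O (box mon prs qq mem_box mem_prs card_box card_prs two_le_qq box_sum_shift
  box_nonempty)
open Pool.Agent.H48P (jac chi chi_mul chi_one chi_zero chi_mul_self abs_chi_le jac_prime)
open Pool.Agent.MP_f0209c_nt.FF (mu ev MM HH AA)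

theorem burg_hol {Ω Y : Type} [Fintype Y] [DecidableEq Y] (S : Finset Ω) (x : Ω → Y) (g : Y → ℝ) :
    (∑ w ∈ S, |g (x w)|) ^ 4 ≤
      (#S : ℝ) ^ 2 * ((#{z ∈ S ×ˢ S | x z.1 = x z.2} : ℝ) * ∑ y, g y ^ 4) := by
  have h1 : (∑ w ∈ S, |g (x w)|) ^ 2 ≤ #S * ∑ w ∈ S, g (x w) ^ 2 := by
    simpa using sq_sum_le_card_mul_sum_sq (s := S) (f := fun w => |g (x w)|)
  have h2 : ∑ w ∈ S, g (x w) ^ 2 = ∑ y, (#{w ∈ S | x w = y} : ℝ) * g y ^ 2 := by
    rw [← sum_fiberwise_of_maps_to (t := univ) (g := x) fun _ _ => mem_univ _]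
    refine sum_congr rfl fun y _ => ?_
    rw [sum_congr rfl fun s hs => by rw [(mem_filter.1 hs).2], sum_const, nsmul_eq_mul]
  have h3 := sum_mul_sq_le_sq_mul_sq (univ : Finset Y) (fun y => (#{w ∈ S | x w = y} : ℝ))
    (fun y => g y ^ 2)
  have h4 : ∑ y, (#{w ∈ S | x w = y} : ℝ) ^ 2 = #{z ∈ S ×ˢ S | x z.1 = x z.2} := by
    rw [card_eq_sum_card_fiberwise (t := univ) (f := fun z => x z.1) fun _ _ => mem_univ _]
    push_cast
    refine sum_congr rfl fun y _ => ?_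
    rw [sq, ← Nat.cast_mul, ← card_product]
    congr 2
    ext z
    simp only [mem_product, mem_filter]
    constructor
    · rintro ⟨⟨a, b⟩, c, d⟩
      exact ⟨⟨⟨a, c⟩, b.trans d.symm⟩, b⟩
    · rintro ⟨⟨⟨a, c⟩, b⟩, d⟩
      exact ⟨⟨a, d⟩, c, b.symm.trans d⟩
  rw [h4, ← h2] at h3
  simp only [← pow_mul] at h3
  have h0 : 0 ≤ ∑ w ∈ S, |g (x w)| := sum_nonneg fun _ _ => abs_nonneg _
  calc (∑ w ∈ S, |g (x w)|) ^ 4 = ((∑ w ∈ S, |g (x w)|) ^ 2) ^ 2 := by ring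
    _ ≤ (#S * ∑ w ∈ S, g (x w) ^ 2) ^ 2 := pow_le_pow_left₀ (by positivity) h1 2
    _ = (#S : ℝ) ^ 2 * (∑ w ∈ S, g (x w) ^ 2) ^ 2 := by ring
    _ ≤ _ := mul_le_mul_of_nonneg_left h3 (by positivity)

theorem burg_num {q N m a E M S : ℝ} {d₁ d₂ l al T kk h : ℕ} (hq : 2 ≤ q) (hm : 0 ≤ m) (ha : 0 < a)
    (hN : q ^ al * q ^ l ≤ 2 * a * N) (hE : E ≤ 2 * N) (h1 : d₁ ≤ kk) (h2 : d₂ ≤ kk)
    (h3 : kk + h ≤ l + al) (h4 : 2 * kk + h ≤ 2 * T + l + al) (M0 : 0 ≤ M)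
    (hM : M ≤ 9 * m * (q ^ d₁ * q ^ d₂) / (q ^ T) ^ 2 + 400 * m * (√(q ^ d₁) * √(q ^ d₂)))
    (hS : S ^ 4 ≤ N ^ 2 * (E * M)) : (S / N) ^ 4 ≤ 2000 * a * m / q ^ h := by
  have q1 : 1 ≤ q := by linarith
  have q0 : 0 < q := by linarith
  have N0 : 0 < N := by
    by_contra c
    have : 2 * a * N ≤ 0 := mul_nonpos_of_nonneg_of_nonpos (by positivity) (not_lt.1 c)
    have : 0 < q ^ al * q ^ l := by positivity
    linarith
  have a1 : q ^ d₁ * q ^ d₂ / (q ^ T) ^ 2 ≤ q ^ al * q ^ l / q ^ h := by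
    rw [div_le_div_iff₀ (by positivity) (by positivity)]
    simp only [← pow_mul, ← pow_add]
    exact pow_le_pow_right₀ q1 (by omega)
  have a2 : √(q ^ d₁) * √(q ^ d₂) ≤ q ^ al * q ^ l / q ^ h := by
    refine (mul_le_mul (Real.sqrt_le_sqrt (pow_le_pow_right₀ q1 h1))
      (Real.sqrt_le_sqrt (pow_le_pow_right₀ q1 h2)) (by positivity) (by positivity)).trans ?_
    rw [Real.mul_self_sqrt (by positivity), le_div_iff₀ (by positivity)]
    simp only [← pow_add]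
    exact pow_le_pow_right₀ q1 (by omega)
  have a3 : q ^ al * q ^ l / q ^ h ≤ 2 * a * N / q ^ h := by gcongr
  have a4 : M ≤ 409 * m * (2 * a * N / q ^ h) := by
    rw [mul_div_assoc] at hM
    have b1 := mul_le_mul_of_nonneg_left (a1.trans a3) hm
    have b2 := mul_le_mul_of_nonneg_left (a2.trans a3) hm
    linarith
  rw [div_pow, div_le_iff₀ (by positivity)]
  refine hS.trans ((mul_le_mul_of_nonneg_left (mul_le_mul hE a4 M0 (by positivity))
    (by positivity)).trans ?_)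
  have a5 : 0 ≤ a * m / q ^ h * N ^ 4 := by positivity
  have e1 : N ^ 2 * (2 * N * (409 * m * (2 * a * N / q ^ h))) = 1636 * (a * m / q ^ h * N ^ 4) := by
    ring
  have e2 : 2000 * a * m / q ^ h * N ^ 4 = 2000 * (a * m / q ^ h * N ^ 4) := by ring
  rw [e1, e2]
  linarith

section
variable {k : Type} [Field k] [Fintype k] {p : ℕ} [Fact p.Prime] [CharP k p]

omit [Fintype k] in
theorem burg_two (hp : p ≠ 2) : (2 : k) ≠ 0 := fun e =>
  hp ((Nat.prime_dvd_prime_iff_eq Fact.out Nat.prime_two).1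
    ((CharP.cast_eq_zero_iff k p 2).1 (by exact_mod_cast e)))

theorem burg_loc (hp : p ≠ 2) {K b : k[X]} (hK : K.Monic) [Fact (Irreducible K)]
    [Fintype (AdjoinRoot K)] (hb : ¬ K ∣ b) (a : k[X]) :
    ∃ r : k[X], ∀ g : k[X], ¬ K ∣ g → ∀ s v : k[X], jac K (a + (s + g * v) ^ p * b) =
      chi (AdjoinRoot.mk K (b * g)) *
        chi (AdjoinRoot.mk K (s + r) / AdjoinRoot.mk K g + AdjoinRoot.mk K v) := by
  have hodd : Odd p := (Fact.out : p.Prime).odd_of_ne_two hp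
  have : CharP (AdjoinRoot K) p :=
    charP_of_injective_algebraMap (algebraMap k (AdjoinRoot K)).injective p
  have y0 : AdjoinRoot.mk K b ≠ 0 := fun e => hb (AdjoinRoot.mk_eq_zero.1 e)
  obtain ⟨e, he⟩ := surjective_frobenius (AdjoinRoot K) p (AdjoinRoot.mk K a / AdjoinRoot.mk K b)
  obtain ⟨r, rfl⟩ := AdjoinRoot.mk_surjective e
  rw [frobenius_def, eq_div_iff y0] at he
  have chip : ∀ (z : AdjoinRoot K) (n : ℕ), chi (z ^ n) = chi z ^ n := fun z n => by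
    induction n with
    | zero => simp [chi_one]
    | succ n ih => rw [pow_succ, chi_mul, ih, pow_succ]
  have cho : ∀ z : AdjoinRoot K, chi (z ^ p) = chi z := fun z => by
    rw [chip]
    by_cases hz : z = 0
    · rw [hz, chi_zero, zero_pow (Fact.out : p.Prime).ne_zero]
    · rcases mul_self_eq_one_iff.1 (chi_mul_self hz) with h | h
      · rw [h, one_pow]
      · rw [h, hodd.neg_one_pow]
  refine ⟨r, fun g hg s v => ?_⟩
  have g0 : AdjoinRoot.mk K g ≠ 0 := fun e => hg (AdjoinRoot.mk_eq_zero.1 e)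
  have e1 : AdjoinRoot.mk K (a + (s + g * v) ^ p * b) =
      AdjoinRoot.mk K b * (AdjoinRoot.mk K (s + g * v) + AdjoinRoot.mk K r) ^ p := by
    rw [add_pow_char (AdjoinRoot.mk K _), map_add (AdjoinRoot.mk K) a, map_mul, map_pow, ← he]
    ring
  rw [jac_prime (burg_two hp) hK, e1, chi_mul, cho, map_mul (AdjoinRoot.mk K) b, chi_mul, mul_assoc,
    ← chi_mul (AdjoinRoot.mk K g)]
  congr 2
  simp only [map_add, map_mul]
  field_simp
  ring

omit [Fact p.Prime] [CharP k p] in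
theorem burg_card {K : k[X]} (hi : Irreducible K) [Fintype (AdjoinRoot K)] :
    (Fintype.card (AdjoinRoot K) : ℝ) = qq k ^ K.natDegree := by
  have := Fact.mk hi
  rw [Module.card_eq_pow_finrank (K := k), (AdjoinRoot.powerBasis hi.ne_zero).finrank,
    AdjoinRoot.powerBasis_dim, Nat.cast_pow, qq]

omit [Fact p.Prime] [CharP k p] in
theorem burg_inj {K : k[X]} (hK : K ≠ 0) {T : ℕ} (h : T ≤ K.natDegree) :
    Set.InjOn (AdjoinRoot.mk K).toAddMonoidHom (box k T) := fun a ha b hb e => by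
  refine sub_eq_zero.1 (eq_zero_of_dvd_of_degree_lt (AdjoinRoot.mk_eq_mk.1 e) ?_)
  rw [degree_eq_natDegree hK]
  exact ((degree_sub_le _ _).trans_lt (max_lt (mem_box.1 ha) (mem_box.1 hb))).trans_le
    (by exact_mod_cast h)

end

theorem burg_cnt {A : Type} (d₁ d₂ : DecidableEq A) (L : List A) (v : A)
    (h : @List.count A (@instBEqOfDecidableEq A d₁) v L = 1) :
    @List.count A (@instBEqOfDecidableEq A d₂) v L = 1 :=
  (Subsingleton.elim d₁ d₂ : d₁ = d₂) ▸ h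

theorem burg_row {k : Type} [Field k] [Fintype k] {p : ℕ} [Fact p.Prime] [CharP k p] (hp : p ≠ 2)
    (h₁ : MOM_s) (h₂ : ENE_s k) : BURG_s k p := by
  intro K₁ a₁ b₁ K₂ a₂ b₂ l al T kk h m₁ i₁ m₂ i₂ hne n₁ n₂ al1 alT Tl T₁ T₂ k₁ k₂ e1 e2 e3 L hL hs
  have := Fact.mk i₁
  have := Fact.mk i₂
  have : Module.Finite k (AdjoinRoot K₁) := (AdjoinRoot.powerBasis i₁.ne_zero).finite
  have : Module.Finite k (AdjoinRoot K₂) := (AdjoinRoot.powerBasis i₂.ne_zero).finite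
  have : Finite (AdjoinRoot K₁) := Module.finite_of_finite k
  have : Finite (AdjoinRoot K₂) := Module.finite_of_finite k
  let _ : Fintype (AdjoinRoot K₁) := Fintype.ofFinite _
  let _ : Fintype (AdjoinRoot K₂) := Fintype.ofFinite _
  have h2 : (2 : k) ≠ 0 := burg_two hp
  obtain ⟨r₁, hr₁⟩ := burg_loc hp m₁ n₁ a₁
  obtain ⟨r₂, hr₂⟩ := burg_loc hp m₂ n₂ a₂
  have mom := h₁ k[X] (AdjoinRoot K₁) (AdjoinRoot K₂)
    (fun e => h2 ((algebraMap k (AdjoinRoot K₁)).injective (by rw [map_ofNat, e, map_zero])))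
    (fun e => h2 ((algebraMap k (AdjoinRoot K₂)).injective (by rw [map_ofNat, e, map_zero])))
    (AdjoinRoot.mk K₁).toAddMonoidHom (AdjoinRoot.mk K₂).toAddMonoidHom (box k T) (box_nonempty T)
    (fun a ha b hb => mem_box.2 ((degree_add_le _ _).trans_lt (max_lt (mem_box.1 ha) (mem_box.1 hb))))
    (burg_inj i₁.ne_zero T₁) (burg_inj i₂.ne_zero T₂) L hL (hs.imp fun v => burg_cnt _ _ L v)
  rw [burg_card i₁, burg_card i₂, card_box] at mom
  have ene := h₂ K₁ K₂ r₁ r₂ l al m₁ i₁ m₂ i₂ hne (by omega) (by omega) (by omega) (by omega)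
  obtain ⟨g, hg⟩ : ∃ g : AdjoinRoot K₁ × AdjoinRoot K₂ → ℝ, ∀ x, g x = 𝔼 b ∈ box k T,
    (L.map fun v => chi (x.1 + (AdjoinRoot.mk K₁).toAddMonoidHom (v + b)) *
      chi (x.2 + (AdjoinRoot.mk K₂).toAddMonoidHom (v + b))).prod := ⟨_, fun _ => rfl⟩
  simp only [← hg] at mom
  obtain ⟨x, hx⟩ : ∃ x : k[X] × k[X] × k[X] → AdjoinRoot K₁ × AdjoinRoot K₂, ∀ w, x w =
    (AdjoinRoot.mk K₁ (w.1 * w.2.2 + w.2.1 + r₁) / AdjoinRoot.mk K₁ w.1,
      AdjoinRoot.mk K₂ (w.1 * w.2.2 + w.2.1 + r₂) / AdjoinRoot.mk K₂ w.1) := ⟨_, fun _ => rfl⟩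
  obtain ⟨P, hP⟩ : ∃ P : k[X] × k[X] × k[X] → ℝ, ∀ w, P w =
    (L.map fun v => jj p K₁ a₁ b₁ K₂ a₂ b₂ (w.1 * (w.2.2 + v) + w.2.1)).prod := ⟨_, fun _ => rfl⟩
  simp only [← hP]
  obtain ⟨W, hW⟩ : ∃ W, W = prs k al ×ˢ box k al ×ˢ box k (l - al) := ⟨_, rfl⟩
  rw [← hW]
  have mW : ∀ w ∈ W, w.1.Monic ∧ w.1.natDegree = al ∧ w.1 ∈ prs k al ∧ w.2.1.degree < al ∧
      w.2.2.degree < (l - al : ℕ) ∧ ¬ K₁ ∣ w.1 ∧ ¬ K₂ ∣ w.1 := fun w hw => by
    rw [hW, mem_product, mem_product] at hw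
    obtain ⟨a, -, c⟩ := mem_prs.1 hw.1
    refine ⟨a, c, hw.1, mem_box.1 hw.2.1, mem_box.1 hw.2.2, fun e => ?_, fun e => ?_⟩
    · have := natDegree_le_of_dvd e a.ne_zero
      omega
    · have := natDegree_le_of_dvd e a.ne_zero
      omega
  have cW : (#W : ℝ) = #(prs k al) * qq k ^ l := by
    rw [hW, card_product, card_product, Nat.cast_mul, Nat.cast_mul, card_box, card_box, ← pow_add,
      show al + (l - al) = l by omega]
  have sh : ∀ b ∈ box k T, ∑ w ∈ W, P (w.1, w.2.1, w.2.2 + b) = ∑ w ∈ W, P w := fun b hb => by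
    rw [hW, sum_product, sum_product]
    refine sum_congr rfl fun a _ => ?_
    rw [sum_product, sum_product]
    exact sum_congr rfl fun c _ => box_sum_shift
      ((mem_box.1 hb).trans_le (by exact_mod_cast (by omega : T ≤ l - al))) fun s => P (a, c, s)
  have pt : ∀ w ∈ W, |𝔼 b ∈ box k T, P (w.1, w.2.1, w.2.2 + b)| ≤ |g (x w)| := fun w hw => by
    obtain ⟨-, -, -, -, -, d₁, d₂⟩ := mW w hw
    have e : ∀ b, P (w.1, w.2.1, w.2.2 + b) = (chi (AdjoinRoot.mk K₁ (b₁ * w.1)) *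
        chi (AdjoinRoot.mk K₂ (b₂ * w.1))) ^ L.length *
        (L.map fun v => chi ((x w).1 + (AdjoinRoot.mk K₁).toAddMonoidHom (v + b)) *
          chi ((x w).2 + (AdjoinRoot.mk K₂).toAddMonoidHom (v + b))).prod := fun b => by
      rw [hP, ← List.prod_replicate, ← List.map_const', ← List.prod_map_mul]
      congr 1
      refine List.map_congr_left fun v _ => ?_
      rw [jj, show w.1 * (w.2.2 + b + v) + w.2.1 = w.1 * w.2.2 + w.2.1 + w.1 * (v + b) by ring,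
        hr₁ _ d₁, hr₂ _ d₂, hx]
      exact mul_mul_mul_comm _ _ _ _
    simp only [e]
    rw [← mul_expect, ← hg, abs_mul, abs_pow, abs_mul]
    exact mul_le_of_le_one_left (abs_nonneg _) (pow_le_one₀ (by positivity)
      (mul_le_one₀ (abs_chi_le _) (abs_nonneg _) (abs_chi_le _)))
  have s1 : |∑ w ∈ W, P w| ≤ ∑ w ∈ W, |g (x w)| := by
    rw [← expect_const (box_nonempty (k := k) T) (∑ w ∈ W, P w),
      ← expect_congr rfl sh, expect_sum_comm]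
    exact (abs_sum_le_sum_abs _ _).trans (sum_le_sum pt)
  have s2 : (#{z ∈ W ×ˢ W | x z.1 = x z.2} : ℝ) ≤ 2 * #W := by
    rw [cW, ← mul_assoc]
    refine le_trans (Nat.cast_le.2 (card_le_card_of_injOn (fun z =>
      ((z.1.1, z.1.1 * z.1.2.2 + z.1.2.1), (z.2.1, z.2.1 * z.2.2.2 + z.2.2.1))) ?_ ?_)) ene
    · have bx : ∀ w ∈ W, w.1 * w.2.2 + w.2.1 ∈ box k l := fun w hw => by
        obtain ⟨a, b, -, c, d, -⟩ := mW w hw
        refine mem_box.2 ((degree_add_le _ _).trans_lt (max_lt ?_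
          (c.trans_le (by exact_mod_cast (by omega : al ≤ l)))))
        rcases eq_or_ne w.2.2 0 with e | e
        · simp [e]
        have := (natDegree_lt_iff_degree_lt e).2 d
        rw [← natDegree_lt_iff_degree_lt (mul_ne_zero a.ne_zero e), natDegree_mul a.ne_zero e]
        omega
      intro z hz
      obtain ⟨z1, z2⟩ := mem_filter.1 hz
      obtain ⟨u1, u2⟩ := mem_product.1 z1
      obtain ⟨-, -, c, -, -, d₁, d₂⟩ := mW _ u1
      obtain ⟨-, -, c', -, -, d₁', d₂'⟩ := mW _ u2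
      rw [hx, hx, Prod.mk.injEq, div_eq_div_iff (mt AdjoinRoot.mk_eq_zero.1 d₁)
        (mt AdjoinRoot.mk_eq_zero.1 d₁'), div_eq_div_iff (mt AdjoinRoot.mk_eq_zero.1 d₂)
        (mt AdjoinRoot.mk_eq_zero.1 d₂'), ← map_mul, ← map_mul, ← map_mul, ← map_mul,
        AdjoinRoot.mk_eq_mk, AdjoinRoot.mk_eq_mk] at z2
      exact mem_filter.2 ⟨mem_product.2 ⟨mem_product.2 ⟨c, bx _ u1⟩, mem_product.2 ⟨c', bx _ u2⟩⟩, z2⟩
    · have ij : ∀ w ∈ W, ∀ w' ∈ W, (w.1, w.1 * w.2.2 + w.2.1) = (w'.1, w'.1 * w'.2.2 + w'.2.1) →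
          w = w' := by
        rintro ⟨a, c, s⟩ hw ⟨a', c', s'⟩ hw' e
        obtain ⟨rfl, e⟩ := Prod.mk.inj e
        obtain ⟨b1, b2, -, b3, -⟩ := mW _ hw
        obtain ⟨-, -, -, b4, -⟩ := mW _ hw'
        dsimp only at e b1 b2 b3 b4
        have f : c - c' = 0 := eq_zero_of_dvd_of_degree_lt (p := a)
          ⟨s' - s, by linear_combination e⟩ (by
            rw [degree_eq_natDegree b1.ne_zero, b2]
            exact (degree_sub_le _ _).trans_lt (max_lt b3 b4))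
        obtain rfl := sub_eq_zero.1 f
        rw [mul_left_cancel₀ b1.ne_zero (add_right_cancel e)]
      intro z hz z' hz' e
      obtain ⟨u1, u2⟩ := mem_product.1 (mem_filter.1 hz).1
      obtain ⟨u3, u4⟩ := mem_product.1 (mem_filter.1 hz').1
      obtain ⟨f1, f2⟩ := Prod.mk.inj e
      exact Prod.ext (ij _ u1 _ u3 f1) (ij _ u2 _ u4 f2)
  have hq := two_le_qq (k := k)
  rw [expect_eq_sum_div_card, abs_div, Nat.abs_cast]
  refine burg_num hq (by positivity) (by exact_mod_cast al1) ?_ s2 k₁ k₂ e2 e3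
    (sum_nonneg fun _ _ => by positivity) mom
    ((pow_le_pow_left₀ (abs_nonneg _) s1 4).trans (burg_hol W x g))
  rw [cW, ← mul_assoc]
  exact mul_le_mul_of_nonneg_right (card_prs al1) (by positivity)

end H18F

end
end

-- part Two
section

set_option autoImplicit false

open Polynomial Finset Filter
open scoped Classical BigOperators

noncomputable section
namespace H18F
open Pool.Agent.H4O (box mon prs qq)
open Pool.Agent.H48P (jac chi)
open Pool.Agent.MP_f0209c_nt.FF (mu ev MM HH AA)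

theorem two_deg {k : Type} [Field k] {a v : k[X]} {m n N : ℕ} (ha : a.natDegree ≤ m)
    (hv : v.degree < n) (hN : m + n ≤ N) : (a * v).degree < N := by
  rcases eq_or_ne (a * v) 0 with e | e
  · rw [e, degree_zero]
    exact WithBot.bot_lt_coe _
  have v0 : v ≠ 0 := right_ne_zero_of_mul e
  have d1 := (natDegree_lt_iff_degree_lt v0).2 hv
  rw [← natDegree_lt_iff_degree_lt e, natDegree_mul (left_ne_zero_of_mul e) v0]
  omega

theorem two_split {k : Type} [Field k] [Fintype k] {a : k[X]} {al l : ℕ} (ha : a.Monic)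
    (hd : a.natDegree = al) (hl : al ≤ l) (f : k[X] → ℝ) :
    𝔼 w ∈ box k al ×ˢ box k (l - al), f (a * w.2 + w.1) = 𝔼 s ∈ box k l, f s := by
  have hdeg : a.degree = (al : WithBot ℕ) := by rw [degree_eq_natDegree ha.ne_zero, hd]
  refine Finset.expect_nbij' (fun w => a * w.2 + w.1) (fun s => (s %ₘ a, s /ₘ a)) ?_ ?_ ?_ ?_ ?_
  · intro w hw
    obtain ⟨h1, h2⟩ := mem_product.1 hw
    rw [Pool.Agent.H4O.mem_box] at h1 h2 ⊢
    refine (degree_add_le _ _).trans_lt (max_lt (two_deg hd.le h2 (by omega)) ?_)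
    exact h1.trans_le (by exact_mod_cast hl)
  · intro s hs
    rw [Pool.Agent.H4O.mem_box] at hs
    refine mem_product.2 ⟨Pool.Agent.H4O.mem_box.2 ?_, Pool.Agent.H4O.mem_box.2 ?_⟩
    · rw [← hdeg]
      exact degree_modByMonic_lt s ha
    · rcases eq_or_ne (s /ₘ a) 0 with e | e
      · show (s /ₘ a).degree < _
        rw [e, degree_zero]
        exact WithBot.bot_lt_coe _
      have s0 : s ≠ 0 := fun z => e (by rw [z, zero_divByMonic])
      have d1 := (natDegree_lt_iff_degree_lt s0).2 hs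
      have d2 : ¬ s.degree < a.degree := fun z => e ((divByMonic_eq_zero_iff ha).2 z)
      have d3 : a.natDegree ≤ s.natDegree := natDegree_le_natDegree (not_lt.1 d2)
      show (s /ₘ a).degree < _
      rw [← natDegree_lt_iff_degree_lt e, natDegree_divByMonic s ha]
      omega
  · intro w hw
    obtain ⟨h1, -⟩ := mem_product.1 hw
    rw [Pool.Agent.H4O.mem_box, ← hdeg] at h1
    obtain ⟨e1, e2⟩ := div_modByMonic_unique w.2 w.1 ha (f := a * w.2 + w.1) ⟨add_comm _ _, h1⟩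
    exact Prod.ext e2 e1
  · intro s _
    show a * (s /ₘ a) + s %ₘ a = s
    rw [add_comm]
    exact modByMonic_add_div s a
  · intro w _
    rfl

theorem two_jj {k : Type} [Field k] [Fintype k] (p : ℕ) (V₁ a₁ b₁ V₂ a₂ b₂ s : k[X]) :
    |jj p V₁ a₁ b₁ V₂ a₂ b₂ s| ≤ 1 := by
  unfold jj
  rw [abs_mul]
  exact mul_le_one₀ (Pool.Agent.H48P.abs_jac_le _ _) (abs_nonneg _)
    (Pool.Agent.H48P.abs_jac_le _ _)

theorem two_row {k : Type} [Field k] [Fintype k] {p : ℕ} [Fact p.Prime] [CharP k p]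
    (h : BURG_s k p) : TWO_s k p := by
  intro K₁ a₁ b₁ K₂ a₂ b₂ l al T kk hh R Cs F m1 i1 m2 i2 hne n1 n2 c1 c2 c3 c4 c5 c6 c7 c8 c9
    c10 c11 hC
  have hq : (2 : ℝ) ≤ qq k := Pool.Agent.H4O.two_le_qq
  have hq0 : (0 : ℝ) < qq k := by linarith
  have hal : (1 : ℝ) ≤ al := by exact_mod_cast c1
  have hP : (prs k al).Nonempty := by
    have h1 := Pool.Agent.H4O.card_prs (k := k) (e := al) c1
    by_contra h2
    rw [not_nonempty_iff_eq_empty.1 h2, card_empty, Nat.cast_zero, mul_zero] at h1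
    exact absurd h1 (not_le.2 (by positivity))
  set Ω := prs k al ×ˢ box k al ×ˢ box k (l - al) with hΩ
  have e0 : 𝔼 s ∈ box k l, jj p K₁ a₁ b₁ K₂ a₂ b₂ s * ∏ j, F j s =
      𝔼 w ∈ Ω, jj p K₁ a₁ b₁ K₂ a₂ b₂ (w.1 * w.2.2 + w.2.1) * ∏ j, F j (w.1 * w.2.2 + w.2.1) := by
    rw [hΩ, expect_product, ← expect_const hP (𝔼 s ∈ box k l,
      jj p K₁ a₁ b₁ K₂ a₂ b₂ s * ∏ j, F j s)]
    refine expect_congr rfl fun a ha => ?_
    obtain ⟨q1, -, q3⟩ := Pool.Agent.H4O.mem_prs.1 ha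
    exact (two_split q1 q3 (by omega) fun s => jj p K₁ a₁ b₁ K₂ a₂ b₂ s * ∏ j, F j s).symm
  let A := degreeLT k (T + hh)
  have hA : ∀ j, ∀ v ∈ box k hh, Cs j * v ∈ degreeLT k (T + hh) := fun j v hv =>
    mem_degreeLT.2 (two_deg (hC j).2.1 (Pool.Agent.H4O.mem_box.1 hv) le_rfl)
  let α : Fin R → k[X] → A := fun j v =>
    if hv : Cs j * v ∈ degreeLT k (T + hh) then ⟨Cs j * v, hv⟩ else 0
  have hα : ∀ j, ∀ v ∈ box k hh, (α j v).1 = Cs j * v := fun j v hv => by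
    simp only [α, dif_pos (hA j v hv)]
  let τ : Fin R → k[X] →+ k[X] × k[X] × k[X] := fun j =>
    (AddMonoidHom.inr _ _).comp ((AddMonoidHom.inr _ _).comp (AddMonoidHom.mulLeft (Cs j)))
  have hτ : ∀ j (x : k[X] × k[X] × k[X]) v,
      x + τ j v = (x.1, x.2.1, x.2.2 + Cs j * v) := fun j x v => by
    refine Prod.ext ?_ (Prod.ext ?_ ?_) <;> simp [τ]
  let Ψ : A → k[X] × k[X] × k[X] → ℝ := fun a w =>
    jj p K₁ a₁ b₁ K₂ a₂ b₂ (w.1 * (w.2.2 + a.1) + w.2.1)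
  have main := Pool.Agent.H4O.vdc_list Ω (box k hh) (Pool.Agent.H4O.box_nonempty hh)
    (fun v hv w hw => Pool.Agent.H4O.mem_box.2 ((degree_sub_le _ _).trans_lt
      (max_lt (Pool.Agent.H4O.mem_box.1 hv) (Pool.Agent.H4O.mem_box.1 hw))))
    Ψ (fun a x => two_jj _ _ _ _ _ _ _ _)
    (β := 2000 * al * 4 ^ R / qq k ^ hh) (by positivity) R τ α
    (fun j w => F j (w.1 * w.2.2 + w.2.1)) [0]
    (fun j x hx v hv => ?_) (fun j v hv w hw e => ?_) (fun j a x _ v hv => ?_)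
    (fun j x _ => (hC j).2.2.1 _) (fun j x _ v _ => ?_) ⟨0, by simp⟩ (fun L hL hL1 => ?_)
  · have e1 : ∀ w : k[X] × k[X] × k[X],
        jj p K₁ a₁ b₁ K₂ a₂ b₂ (w.1 * w.2.2 + w.2.1) * ∏ j, F j (w.1 * w.2.2 + w.2.1) =
        (∏ j, F j (w.1 * w.2.2 + w.2.1)) * (([0] : List A).map fun a => Ψ a w).prod := fun w => by
      simp only [List.map_cons, List.map_nil, List.prod_cons, List.prod_nil, Ψ, mul_one,
        ZeroMemClass.coe_zero, add_zero]
      ring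
    rw [e0]
    simp only [e1]
    refine main.trans ?_
    rw [Pool.Agent.H4O.card_box, ← add_div]
    refine div_le_div_of_nonneg_right ?_ (by positivity)
    have h1 : (2 : ℝ) ^ R ≤ 4 ^ R := pow_le_pow_left₀ (by norm_num) (by norm_num) R
    have h2 : (0 : ℝ) ≤ 4 ^ R := by positivity
    simp only [List.length_cons, List.length_nil, zero_add, Nat.cast_one, mul_one]
    nlinarith
  · rw [hτ]
    obtain ⟨x1, x2⟩ := mem_product.1 hx
    obtain ⟨x3, x4⟩ := mem_product.1 x2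
    refine mem_product.2 ⟨x1, mem_product.2 ⟨x3, Pool.Agent.H4O.mem_box.2 ?_⟩⟩
    exact (degree_add_le _ _).trans_lt (max_lt (Pool.Agent.H4O.mem_box.1 x4)
      (two_deg (hC j).2.1 (Pool.Agent.H4O.mem_box.1 hv) (by omega)))
  · have e1 : Cs j * v = Cs j * w := by
      rw [← hα j v hv, ← hα j w hw, e]
    exact mul_left_cancel₀ (hC j).1 e1
  · rw [hτ]
    simp only [Ψ, Submodule.coe_add, hα j v hv]
    rw [add_assoc x.2.2, add_comm (Cs j * v)]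
  · rw [hτ]
    show F j (x.1 * (x.2.2 + Cs j * v) + x.2.1) = _
    rw [show x.1 * (x.2.2 + Cs j * v) + x.2.1 = x.1 * x.2.2 + x.2.1 + Cs j * (x.1 * v) by ring,
      (hC j).2.2.2]
  · obtain ⟨a, ha⟩ := hL1
    have hb := h K₁ a₁ b₁ K₂ a₂ b₂ l al (T + hh) kk (4 * hh) m1 i1 m2 i2 hne n1 n2 c1 (by omega)
      c4 c5 c6 c7 c8 c9 c10 c11 (L.map Subtype.val) (fun v hv => by
        obtain ⟨b, -, rfl⟩ := List.mem_map.1 hv
        exact Pool.Agent.H4O.mem_box.2 (mem_degreeLT.1 b.2))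
      ⟨a.1, @Pool.Agent.H4O.count_map_one _ _ (_) (_) Subtype.val L a ha fun b _ e =>
        Subtype.ext e⟩
    simp only [List.map_map, List.length_map, hL, List.length_cons, List.length_nil, zero_add,
      mul_one] at hb
    refine (pow_le_pow_iff_left₀ (abs_nonneg _) (by positivity) (by norm_num : 4 ≠ 0)).1
      (hb.trans ?_)
    have h4 : (1 : ℝ) ≤ 4 ^ R := one_le_pow₀ (by norm_num)
    have h5 : (1 : ℝ) ≤ 2000 * al * 4 ^ R := by nlinarith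
    have h6 : (((2 ^ R : ℕ) : ℝ)) ^ 2 = 4 ^ R := by
      push_cast
      rw [← pow_mul, mul_comm, pow_mul]
      norm_num
    rw [h6, div_pow, ← pow_mul, mul_comm hh 4]
    exact div_le_div_of_nonneg_right (le_self_pow₀ h5 (by norm_num)) (by positivity)

end H18F

end
end

-- part Pcs
section

set_option autoImplicit false

open Polynomial Finset Filter
open scoped Classical BigOperators

noncomputable section
namespace H18F
open Pool.Agent.H4O (box mon prs qq)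
open Pool.Agent.H48P (jac chi)
open Pool.Agent.MP_f0209c_nt.FF (mu ev MM HH AA)

theorem pcs_one {k : Type} [Field k] [Fintype k] {p : ℕ} [Fact p.Prime] [CharP k p] (hp : p ≠ 2)
    {Q : k[X]} (a b : k[X]) {T r : ℕ} (hQ : Q.Monic) (hT : Sm T Q)
    (hr : 2 * Q.natDegree ≤ r * (T + 1)) :
    ∃ (Cs : Fin (r + 1) → k[X]) (F : Fin (r + 1) → k[X] → ℝ),
      (∀ j, Cs j ∣ Q ∧ (Cs j).natDegree ≤ T ∧ Per (Cs j) (F j)) ∧
      ∀ s, ∏ j, F j s = jac Q (a + s ^ p * b) := by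
  have hpp : p.Prime := Fact.out
  have htwo : (2 : k) ≠ 0 := fun e => hp ((Nat.prime_dvd_prime_iff_eq hpp Nat.prime_two).1
    ((CharP.cast_eq_zero_iff k p 2).1 (by exact_mod_cast e)))
  have H := Pool.Agent.H4O.japi htwo
  obtain ⟨Qs, Cs, m, q1, q2, q3, -, q5, q6⟩ := Pool.Agent.H4O.exists_pieces hQ hT hr
  refine ⟨Cs, fun j s => jac (Qs j) (a + s ^ p * b), fun j => ⟨q6 j, q5 j,
    fun s => Pool.Agent.H48P.abs_jac_le _ _, fun s t => H.congr_rad (q1 j) (q3 j) ?_⟩,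
    fun s => ?_⟩
  · have h1 : s + Cs j * t - s ∣ (s + Cs j * t) ^ p - s ^ p := sub_dvd_pow_sub_pow _ _ p
    rw [add_sub_cancel_left] at h1
    rw [show a + (s + Cs j * t) ^ p * b - (a + s ^ p * b) = ((s + Cs j * t) ^ p - s ^ p) * b by
      ring]
    exact ((dvd_mul_right _ _).trans h1).mul_right b
  · rw [q2, Pool.Agent.H4O.jac_prod_left _ _ q1]

theorem pcs_row {k : Type} [Field k] [Fintype k] {p : ℕ} [Fact p.Prime] [CharP k p] (hp : p ≠ 2) :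
    PCS_s k p := by
  intro Q₁ a₁ b₁ Q₂ a₂ b₂ e₁ e₂ Θ₁ Θ₂ T r m1 m2 s1 s2 r1 r2 d1 d2 p1 p2
  obtain ⟨C1, F1, h1, g1⟩ := pcs_one hp a₁ b₁ m1 s1 r1
  obtain ⟨C2, F2, h2, g2⟩ := pcs_one hp a₂ b₂ m2 s2 r2
  have hc : Fintype.card ((Fin (r + 1) ⊕ Fin (r + 1)) ⊕ (Unit ⊕ Unit)) = 2 * r + 4 := by
    simp only [Fintype.card_sum, Fintype.card_fin, Fintype.card_unit]
    omega
  let σ := Fintype.equivFinOfCardEq hc
  let Cs : (Fin (r + 1) ⊕ Fin (r + 1)) ⊕ (Unit ⊕ Unit) → k[X] :=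
    Sum.elim (Sum.elim C1 C2) (Sum.elim (fun _ => e₁) fun _ => e₂)
  let F : (Fin (r + 1) ⊕ Fin (r + 1)) ⊕ (Unit ⊕ Unit) → k[X] → ℝ :=
    Sum.elim (Sum.elim F1 F2) (Sum.elim (fun _ => Θ₁) fun _ => Θ₂)
  have hall : ∀ i, Cs i ∣ Q₁ * Q₂ * e₁ * e₂ ∧ (Cs i).natDegree ≤ T ∧ Per (Cs i) (F i) := by
    rintro ((i | i) | (i | i))
    · exact ⟨(h1 i).1.trans ⟨Q₂ * e₁ * e₂, by ring⟩, (h1 i).2⟩
    · exact ⟨(h2 i).1.trans ⟨Q₁ * e₁ * e₂, by ring⟩, (h2 i).2⟩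
    · exact ⟨⟨Q₁ * Q₂ * e₂, by simp only [Cs, Sum.elim_inr, Sum.elim_inl]; ring⟩, d1, p1⟩
    · exact ⟨⟨Q₁ * Q₂ * e₁, by simp only [Cs, Sum.elim_inr]; ring⟩, d2, p2⟩
  refine ⟨fun j => Cs (σ.symm j), fun j => F (σ.symm j), fun j => hall _, fun s => ?_⟩
  rw [Equiv.prod_comp σ.symm fun i => F i s]
  simp only [Fintype.prod_sum_type, F, Sum.elim_inl, Sum.elim_inr, g1, g2, Fintype.prod_unique, jj]

end H18F

end
end

-- part One
section

set_option autoImplicit false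

open Polynomial Finset Filter
open scoped Classical BigOperators

noncomputable section
namespace H18F
open Pool.Agent.H4O (box mon prs qq)
open Pool.Agent.H48P (jac chi)
open Pool.Agent.MP_f0209c_nt.FF (mu ev MM HH AA)

theorem one_row {k : Type} [Field k] [Fintype k] {p : ℕ} [Fact p.Prime] [CharP k p] (hp : p ≠ 2)
    (h : PCS_s k p) : ONE_s k p := by
  intro π Q₁ a₁ b₁ Q₂ a₂ b₂ e₁ e₂ Θ₁ Θ₂ l T h0 r πm πi hπ hb m1 m2 s1 s2 r1 r2 d1 d2 p1 p2 hl g1 g2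
  obtain ⟨Cs, F, hC, hF⟩ := h Q₁ a₁ b₁ Q₂ a₂ b₂ e₁ e₂ Θ₁ Θ₂ T r m1 m2 s1 s2 r1 r2 d1 d2 p1 p2
  have key := H18F.GR.gr_min p hp πm πi hb a₁ Cs
    (fun j e => hπ (e.trans (hC j).1)) (fun j => (hC j).2.1) F (fun j => (hC j).2.2.1)
    (fun j => (hC j).2.2.2) hl (by omega) (Ω := box k l) (fun _ => Pool.Agent.H4O.mem_box)
  have e : ∀ s, jj p (π * Q₁) a₁ b₁ Q₂ a₂ b₂ s * (Θ₁ s * Θ₂ s) =
      jac π (a₁ + b₁ * s ^ p) * ∏ j, F j s := fun s => by
    rw [hF s, jj, jj, Pool.Agent.H48P.jac_mul_left πm m1, mul_comm b₁]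
    ring
  simp only [e]
  refine key.trans ?_
  have q2 : 2 ≤ qq k := Pool.Agent.H4O.two_le_qq
  have q1 : 1 ≤ qq k := by linarith
  have q0 : 0 < qq k := by linarith
  change 5 * 2 ^ (2 * r + 4) * √(qq k ^ π.natDegree) / qq k ^ min l π.natDegree +
    2 ^ (2 * r + 4) / qq k ^ h0 ≤ _
  obtain ⟨t, ht⟩ : ∃ t, min l π.natDegree = t + h0 := ⟨min l π.natDegree - h0, by omega⟩
  have hs : √(qq k ^ π.natDegree) ≤ qq k ^ t := by
    refine Real.sqrt_le_iff.2 ⟨by positivity, ?_⟩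
    rw [← pow_mul]
    exact pow_le_pow_right₀ q1 (by omega)
  have h3 : 5 * 2 ^ (2 * r + 4) * √(qq k ^ π.natDegree) / qq k ^ min l π.natDegree ≤
      5 * 2 ^ (2 * r + 4) / qq k ^ h0 := by
    rw [ht, pow_add (qq k), div_le_div_iff₀ (by positivity) (by positivity), mul_assoc _ (√_)]
    gcongr
  have h4 : (6 : ℝ) * 2 ^ (2 * r + 4) / qq k ^ h0 =
      5 * 2 ^ (2 * r + 4) / qq k ^ h0 + 2 ^ (2 * r + 4) / qq k ^ h0 := by ring
  linarith

end H18F

end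
end

-- part Char
section

set_option autoImplicit false

open Polynomial Finset Filter
open scoped Classical BigOperators

noncomputable section
namespace H18F
open Pool.Agent.H4O (box mon prs qq)
open Pool.Agent.H48P (jac chi)
open Pool.Agent.MP_f0209c_nt.FF (mu ev MM HH AA)

/-- Either all primes of `M * Z` are of moderate degree, or there is exactly one large prime. -/
theorem char_split {k : Type} [Field k] {M Z : k[X]} {T h kk : ℕ} (hM : M.Monic)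
    (hZ : Z.Monic) (hS : Sm T M) (hd : Z.natDegree ≤ kk) (hk : kk ≤ 2 * T) (hh : 1 ≤ h) :
    (∀ ρ : k[X], ρ.Monic → Irreducible ρ → ρ ∣ M * Z → ρ.natDegree < T + h) ∨
      ∃ K Q : k[X], K.Monic ∧ Irreducible K ∧ Q.Monic ∧ M * Z = K * Q ∧ T + h ≤ K.natDegree ∧
        K.natDegree ≤ kk ∧ Sm T Q := by
  by_cases hc : ∀ ρ : k[X], ρ.Monic → Irreducible ρ → ρ ∣ M * Z → ρ.natDegree < T + h
  · exact Or.inl hc
  right
  push Not at hc
  obtain ⟨K, hKm, hKi, hKd, hKb⟩ := hc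
  have hKZ : K ∣ Z := by
    rcases hKi.prime.dvd_or_dvd hKd with h1 | h1
    · have := hS K hKm hKi h1
      omega
    · exact h1
  obtain ⟨Z', rfl⟩ := hKZ
  have hZ' : Z'.Monic := hKm.of_mul_monic_left hZ
  rw [hKm.natDegree_mul hZ'] at hd
  refine ⟨K, M * Z', hKm, hKi, hM.mul hZ', by ring, hKb, by omega, ?_⟩
  intro σ hσm hσi hσ
  rcases hσi.prime.dvd_or_dvd hσ with h1 | h1
  · exact hS σ hσm hσi h1
  · have := natDegree_le_of_dvd h1 hZ'.ne_zero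
    omega

theorem char_ndvd {k : Type} [Field k] {K e : k[X]} {y : ℕ} (he : e ≠ 0) (hy : e.natDegree < y)
    (hK : y ≤ K.natDegree) : ¬ K ∣ e := fun hd => by
  have := natDegree_le_of_dvd hd he
  omega

theorem char_weak {k : Type} [Field k] [Fintype k] {al n h : ℕ} (hal : 1 ≤ al) :
    (6 : ℝ) * 2 ^ n / qq k ^ h ≤ 2001 * al * 4 ^ n / qq k ^ h := by
  have hq : (0 : ℝ) < qq k ^ h := pow_pos Pool.Agent.H4O.dec_q h
  have h1 : (1 : ℝ) ≤ al := by exact_mod_cast hal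
  have h2 : (2 : ℝ) ^ n ≤ 4 ^ n := pow_le_pow_left₀ (by norm_num) (by norm_num) n
  have h3 : (0 : ℝ) < 2 ^ n := by positivity
  refine div_le_div_of_nonneg_right ?_ hq.le
  nlinarith

/-- One prime `K` of degree at least `y` that divides the first modulus once. -/
theorem char_one {k : Type} [Field k] [Fintype k] {p : ℕ} (h₂ : ONE_s k p)
    {K Q₁ a₁ b₁ Q₂ a₂ b₂ e₁ e₂ : k[X]} {Θ₁ Θ₂ : k[X] → ℝ} {l T h al kk y r B : ℕ}
    (hN : Num l T h al kk y r B) (hKm : K.Monic) (hKi : Irreducible K) (hQ₁ : Q₁.Monic)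
    (hQ₂ : Q₂.Monic) (hS₁ : Sm (T + h) Q₁) (hS₂ : Sm (T + h) Q₂) (hK₁ : ¬ K ∣ Q₁) (hK₂ : ¬ K ∣ Q₂)
    (hy : y ≤ K.natDegree) (hu : K.natDegree + 2 * h ≤ 2 * l) (hB₁ : (K * Q₁).natDegree ≤ B)
    (hB₂ : Q₂.natDegree ≤ B) (hb : b₁ ≠ 0) (he₁ : e₁ ≠ 0) (he₂ : e₂ ≠ 0) (hby : b₁.natDegree < y)
    (hey₁ : e₁.natDegree < y) (hey₂ : e₂.natDegree < y) (hP₁ : Per e₁ Θ₁) (hP₂ : Per e₂ Θ₂) :
    |𝔼 s ∈ box k l, jj p (K * Q₁) a₁ b₁ Q₂ a₂ b₂ s * (Θ₁ s * Θ₂ s)| ^ 2 ^ (2 * r + 4) ≤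
      2001 * al * 4 ^ (2 * r + 4) / qq k ^ h := by
  obtain ⟨n1, n2, n3, n4, n5, n6, n7, n8, n9, n10, n11, n12⟩ := hN
  rw [hKm.natDegree_mul hQ₁] at hB₁
  have hr : r * (T + 1) ≤ r * (T + h + 1) := Nat.mul_le_mul_left r (by omega)
  refine (h₂ K Q₁ a₁ b₁ Q₂ a₂ b₂ e₁ e₂ Θ₁ Θ₂ l (T + h) h r hKm hKi ?_ (char_ndvd hb hby hy) hQ₁ hQ₂
    hS₁ hS₂ (by omega) (by omega) (by omega) (by omega) hP₁ hP₂ (by omega) (by omega) hu).trans
    (char_weak n7)
  intro hd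
  rcases hKi.prime.dvd_or_dvd hd with h1 | h1
  · rcases hKi.prime.dvd_or_dvd h1 with h2 | h2
    · rcases hKi.prime.dvd_or_dvd h2 with h3 | h3
      · exact hK₁ h3
      · exact hK₂ h3
    · exact char_ndvd he₁ hey₁ hy h2
  · exact char_ndvd he₂ hey₂ hy h1

theorem char_row {k : Type} [Field k] [Fintype k] {p : ℕ} (h₁ : PCS_s k p) (h₂ : ONE_s k p)
    (h₃ : TWO_s k p) : CHAR_s k p := by
  intro M₁ Z₁ a₁ b₁ M₂ Z₂ a₂ b₂ e₁ e₂ π Θ₁ Θ₂ l T h al kk y r B hN hM₁ hZ₁ hM₂ hZ₂ hS₁ hS₂ hd₁ hd₂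
    hB₁ hB₂ hπ hπM hπ2 hco hb₁ hb₂ he₁ he₂ hby₁ hby₂ hey₁ hey₂ hP₁ hP₂
  have hN' := hN
  obtain ⟨n1, n2, n3, n4, n5, n6, n7, n8, n9, n10, n11, n12⟩ := hN'
  obtain ⟨hπm, hπi, hπd⟩ := Pool.Agent.H4O.mem_prs.mp hπ
  have hV₁ : (M₁ * Z₁).Monic := hM₁.mul hZ₁
  have hV₂ : (M₂ * Z₂).Monic := hM₂.mul hZ₂
  rcases char_split hM₁ hZ₁ hS₁ hd₁ n6 n12 with c₁ | ⟨K₁, Q₁, hKm₁, hKi₁, hQ₁, hE₁, hKb₁, hKk₁, hQs₁⟩
  · rcases char_split hM₂ hZ₂ hS₂ hd₂ n6 n12 with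
      c₂ | ⟨K₂, Q₂, hKm₂, hKi₂, hQ₂, hE₂, hKb₂, hKk₂, hQs₂⟩
    · -- no large prime: use `π`
      obtain ⟨Q, hQ⟩ : π ∣ M₁ * Z₁ := hπM.mul_right _
      have hQm : Q.Monic := hπm.of_mul_monic_left (hQ ▸ hV₁)
      have hn₂ : ¬ π ∣ M₂ * Z₂ := hco π hπm hπi hπd.ge (hπM.mul_right _)
      have hn₁ : ¬ π ∣ Q := fun hd => hπ2 (by rw [hQ, pow_two]; exact mul_dvd_mul_left π hd)
      have hs : Sm (T + h) Q := fun ρ h1 h2 h3 =>
        (c₁ ρ h1 h2 (by rw [hQ]; exact h3.mul_left _)).le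
      rw [hQ] at hB₁ ⊢
      exact char_one h₂ hN hπm hπi hQm hV₂ hs (fun ρ h1 h2 h3 => (c₂ ρ h1 h2 h3).le) hn₁ hn₂ hπd.ge
        (by omega) hB₁ hB₂ hb₁ he₁ he₂ hby₁ hey₁ hey₂ hP₁ hP₂
    · -- only the second modulus has a large prime
      have hn₁ : ¬ K₂ ∣ Q₂ := fun hd => by
        have := hQs₂ K₂ hKm₂ hKi₂ hd
        omega
      have hn₂ : ¬ K₂ ∣ M₁ * Z₁ := fun hd => by
        have := c₁ K₂ hKm₂ hKi₂ hd
        omega
      have hsw : ∀ s, jj p (M₁ * Z₁) a₁ b₁ (M₂ * Z₂) a₂ b₂ s * (Θ₁ s * Θ₂ s) =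
          jj p (K₂ * Q₂) a₂ b₂ (M₁ * Z₁) a₁ b₁ s * (Θ₂ s * Θ₁ s) := fun s => by
        rw [hE₂]; unfold jj; ring
      simp only [hsw]
      rw [hE₂] at hB₂
      exact char_one h₂ hN hKm₂ hKi₂ hQ₂ hV₁ (fun ρ h1 h2 h3 => (hQs₂ ρ h1 h2 h3).trans (by omega))
        (fun ρ h1 h2 h3 => (c₁ ρ h1 h2 h3).le) hn₁ hn₂ (by omega) (by omega) hB₂ hB₁ hb₂ he₂ he₁
        hby₂ hey₂ hey₁ hP₂ hP₁
  · rcases char_split hM₂ hZ₂ hS₂ hd₂ n6 n12 with
      c₂ | ⟨K₂, Q₂, hKm₂, hKi₂, hQ₂, hE₂, hKb₂, hKk₂, hQs₂⟩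
    · -- only the first modulus has a large prime
      have hn₁ : ¬ K₁ ∣ Q₁ := fun hd => by
        have := hQs₁ K₁ hKm₁ hKi₁ hd
        omega
      have hn₂ : ¬ K₁ ∣ M₂ * Z₂ := fun hd => by
        have := c₂ K₁ hKm₁ hKi₁ hd
        omega
      rw [hE₁] at hB₁ ⊢
      exact char_one h₂ hN hKm₁ hKi₁ hQ₁ hV₂ (fun ρ h1 h2 h3 => (hQs₁ ρ h1 h2 h3).trans (by omega))
        (fun ρ h1 h2 h3 => (c₂ ρ h1 h2 h3).le) hn₁ hn₂ (by omega) (by omega) hB₁ hB₂ hb₁ he₁ he₂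
        hby₁ hey₁ hey₂ hP₁ hP₂
    · -- both moduli have a large prime
      have hne : K₁ ≠ K₂ := fun he =>
        hco K₁ hKm₁ hKi₁ (by omega) (by rw [hE₁]; exact dvd_mul_right _ _)
          (by rw [hE₂, he]; exact dvd_mul_right _ _)
      rw [hE₁, hKm₁.natDegree_mul hQ₁] at hB₁
      rw [hE₂, hKm₂.natDegree_mul hQ₂] at hB₂
      obtain ⟨Cs, F, hC, hF⟩ := h₁ Q₁ a₁ b₁ Q₂ a₂ b₂ e₁ e₂ Θ₁ Θ₂ T r hQ₁ hQ₂ hQs₁ hQs₂ (by omega)
        (by omega) (by omega) (by omega) hP₁ hP₂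
      have h0 : Q₁ * Q₂ * e₁ * e₂ ≠ 0 :=
        mul_ne_zero (mul_ne_zero (mul_ne_zero hQ₁.ne_zero hQ₂.ne_zero) he₁) he₂
      have hsw : ∀ s, jj p (M₁ * Z₁) a₁ b₁ (M₂ * Z₂) a₂ b₂ s * (Θ₁ s * Θ₂ s) =
          jj p K₁ a₁ b₁ K₂ a₂ b₂ s * ∏ j, F j s := fun s => by
        rw [hF, hE₁, hE₂]
        unfold jj
        rw [Pool.Agent.H48P.jac_mul_left hKm₁ hQ₁, Pool.Agent.H48P.jac_mul_left hKm₂ hQ₂]
        ring
      simp only [hsw]
      exact h₃ K₁ a₁ b₁ K₂ a₂ b₂ l al T kk h (2 * r + 4) Cs F hKm₁ hKi₁ hKm₂ hKi₂ hne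
        (char_ndvd hb₁ hby₁ (by omega)) (char_ndvd hb₂ hby₂ (by omega)) n7 n8 n12 n2 hKb₁ hKb₂ hKk₁
        hKk₂ n3 n4 n5 fun j => ⟨ne_zero_of_dvd_ne_zero h0 (hC j).1, (hC j).2⟩

end H18F

end
end

-- part Line
section

set_option autoImplicit false

open Polynomial Finset Filter
open scoped Classical BigOperators

noncomputable section
namespace H18F
open Pool.Agent.H4O (box mon prs qq)
open Pool.Agent.H48P (jac chi)
open Pool.Agent.MP_f0209c_nt.FF (mu ev MM HH AA)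

theorem line_split {k : Type} [Field k] [Fintype k] {R y T kk : ℕ} {W : k[X]} (hR : 1 ≤ R)
    (hT : y + R ≤ T) (hw : wt R y W ≠ 0) (hd : W.natDegree ≤ dg R y + kk) :
    ∃ (w : k) (M Z π : k[X]), w ≠ 0 ∧ M.Monic ∧ Z.Monic ∧ W = C w * (M * Z) ∧ Sm T M ∧
      Z.natDegree ≤ kk ∧ π ∈ prs k y ∧ π ∣ M := by
  have W0 : W ≠ 0 := fun e => hw (by rw [wt, if_pos e])
  rw [wt, if_neg W0, Finset.prod_ne_zero_iff] at hw
  have h1 : ∀ i, ∃ π : k[X], i ∈ range R → π ∈ prs k (y + i) ∧ π ∣ W := fun i => by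
    by_cases hi : i ∈ range R
    · obtain ⟨π, hπ⟩ := Finset.card_ne_zero.1 (Nat.cast_ne_zero.1 (hw i hi))
      exact ⟨π, fun _ => Finset.mem_filter.1 hπ⟩
    · exact ⟨0, fun e => absurd e hi⟩
  choose τ hτ using h1
  have t1 := fun i hi => Pool.Agent.H4O.mem_prs.1 (hτ i hi).1
  have Mm : (∏ i ∈ range R, τ i).Monic := monic_prod_of_monic _ _ fun i hi => (t1 i hi).1
  have Md : (∏ i ∈ range R, τ i).natDegree = dg R y := by
    rw [natDegree_prod_of_monic _ _ fun i hi => (t1 i hi).1]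
    exact Finset.sum_congr rfl fun i hi => (t1 i hi).2.2
  have l0 := leadingCoeff_ne_zero.2 W0
  have hM : ∏ i ∈ range R, τ i ∣ W * C W.leadingCoeff⁻¹ := by
    refine Dvd.dvd.mul_right (Finset.prod_dvd_of_coprime (fun i hi j hj hij => ?_)
      fun i hi => (hτ i hi).2) _
    refine H4Lev.mi_cop ⟨(t1 i hi).1, (t1 i hi).2.1⟩ ⟨(t1 j hj).1, (t1 j hj).2.1⟩ fun e => hij ?_
    have a := (t1 i hi).2.2
    have b := (t1 j hj).2.2
    rw [e] at a
    omega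
  obtain ⟨Z, hZ⟩ := hM
  have Vm : (W * C W.leadingCoeff⁻¹).Monic := monic_mul_leadingCoeff_inv W0
  have Zm : Z.Monic := Mm.of_mul_monic_left (hZ ▸ Vm)
  have r0 : 0 ∈ range R := mem_range.2 hR
  refine ⟨W.leadingCoeff, _, Z, τ 0, l0, Mm, Zm, ?_, fun ρ _ hρ e => ?_, ?_, (hτ 0 r0).1,
    Finset.dvd_prod_of_mem τ r0⟩
  · rw [← hZ, mul_comm W, ← mul_assoc, ← C_mul, mul_inv_cancel₀ l0, C_1, one_mul]
  · obtain ⟨i, hi, e⟩ := (hρ.prime.dvd_finsetProd_iff _).1 e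
    have a := natDegree_le_of_dvd e (t1 i hi).1.ne_zero
    have b := (t1 i hi).2.2
    have := mem_range.1 hi
    omega
  · have a := congrArg natDegree hZ
    rw [natDegree_mul_C (inv_ne_zero l0), Mm.natDegree_mul Zm, Md] at a
    omega

theorem line_per {k : Type} [Field k] (p : ℕ) (e f g : k[X]) {c : ℝ} (hc : |c| ≤ 1) :
    Per e fun s => c * dv e (f + s ^ p * g) := by
  refine ⟨fun s => ?_, fun s t => ?_⟩
  · simp only [dv]
    split_ifs
    · rwa [mul_one]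
    · simp
  · have h1 : e ∣ (f + (s + e * t) ^ p * g) - (f + s ^ p * g) := by
      have h2 : s + e * t - s ∣ (s + e * t) ^ p - s ^ p := sub_dvd_pow_sub_pow _ _ p
      rw [add_sub_cancel_left] at h2
      rw [add_sub_add_left_eq_sub, ← sub_mul]
      exact ((dvd_mul_right e t).trans h2).mul_right g
    simp only [dv, dvd_iff_dvd_of_dvd_sub h1]

theorem line_row {k : Type} [Field k] [Fintype k] {p : ℕ} [Fact p.Prime] [CharP k p] (hp : p ≠ 2)
    (h : CHAR_s k p) : LINE_s k p := by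
  intro f₁ h₁ f₂ h₂ e₁ e₂ l T h0 al kk y r B R hN hR hT m1 m2 z1 z2 z3 z4 d1 d2 d3 d4 l1 l2 w1 w2
    k1 k2 b1 b2 sq ex
  obtain ⟨u₁, M₁, Z₁, π, u1, mM1, mZ1, hW1, s1, dZ1, hπ, πM⟩ := line_split hR hT w1 k1
  obtain ⟨u₂, M₂, Z₂, -, u2, mM2, mZ2, hW2, s2, dZ2, -, -⟩ := line_split hR hT w2 k2
  obtain ⟨D₁, E₁, g₁, -, -, -, hg1, -, -, c₁, c1, hc1⟩ :=
    H18F.GR.form_box p hp m1 z1 u1 (mM1.mul mZ1) hW1 l1
  obtain ⟨D₂, E₂, g₂, -, -, -, hg2, -, -, c₂, c2, hc2⟩ :=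
    H18F.GR.form_box p hp m2 z2 u2 (mM2.mul mZ2) hW2 l2
  have v1 : g₁ ∣ h₁ := Dvd.intro_left _ hg1.symm
  have v2 : g₂ ∣ h₂ := Dvd.intro_left _ hg2.symm
  have x1 : M₁ * Z₁ ∣ wronskian f₁ h₁ := Dvd.intro_left _ hW1.symm
  have x2 : M₂ * Z₂ ∣ wronskian f₂ h₂ := Dvd.intro_left _ hW2.symm
  rw [hW1, natDegree_C_mul u1] at b1
  rw [hW2, natDegree_C_mul u2] at b2
  have key := h M₁ Z₁ E₁ g₁ M₂ Z₂ E₂ g₂ e₁ e₂ π _ _ l T h0 al kk y r B hN mM1 mZ1 mM2 mZ2 s1 s2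
    dZ1 dZ2 b1 b2 hπ πM (fun e => sq π hπ (e.trans x1))
    (fun ρ r1 r2 r3 r4 r5 => ex ρ r1 r2 r3 (by
      rcases r2.prime.dvd_or_dvd r4 with e | e
      · have := s1 ρ r1 r2 e
        omega
      · have := natDegree_le_of_dvd e mZ1.ne_zero
        omega) (r4.trans x1) (r5.trans x2))
    (ne_zero_of_dvd_ne_zero z1 v1) (ne_zero_of_dvd_ne_zero z2 v2) z3 z4
    ((natDegree_le_of_dvd v1 z1).trans_lt d1) ((natDegree_le_of_dvd v2 z2).trans_lt d2) d3 d4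
    (line_per p e₁ f₁ h₁ c1) (line_per p e₂ f₂ h₂ c2)
  refine le_trans (le_of_eq ?_) key
  refine congrArg (fun x : ℝ => |x| ^ 2 ^ (2 * r + 4)) (Finset.expect_congr rfl fun s hs => ?_)
  have hs' := Pool.Agent.H4O.mem_box.1 hs
  rw [mu_def, mu_def, hc1 s hs', hc2 s hs', jj]
  ring

end H18F

end
end
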