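import Pool.Agent.MP_f0209c_nt.OF.Defs

-- part Exc
section

set_option autoImplicit false

open Polynomial Finset Filter
open scoped Classical BigOperators

noncomputable section
namespace H18F
open Pool.Agent.H4O (box mon prs qq)
open Pool.Agent.H48P (jac chi)
open Pool.Agent.MP_f0209c_nt.FF (mu ev MM HH AA)
open Pool.Agent.H4O (mem_box card_box box_exp box_sum_shift two_le_qq)

theorem exc_avg {k : Type} [Field k] [Fintype k] (π e : k[X]) (W : k[X] → k[X]) (N j : ℕ)
    (hπ : π ≠ 0) (hN : π.natDegree + j ≤ N)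
    (h : ∀ z, ∀ t ∈ box k j, ∀ t' ∈ box k j, e ∣ W (z + π * t) → e ∣ W (z + π * t') → t = t') :
    𝔼 z ∈ box k N, dv e (W z) ≤ 1 / qq k ^ j := by
  have hq : (0 : ℝ) < qq k := by linarith [two_le_qq (k := k)]
  have h1 : ∀ t ∈ box k j, ∑ z ∈ box k N, dv e (W z) = ∑ z ∈ box k N, dv e (W (z + π * t)) := by
    intro t ht
    refine (box_sum_shift ?_ (fun z => dv e (W z))).symm
    rw [mem_box] at ht
    by_cases h0 : t = 0
    · simp [h0]
    · rw [degree_mul, degree_eq_natDegree hπ, degree_eq_natDegree h0]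
      rw [degree_eq_natDegree h0] at ht
      have : t.natDegree < j := by exact_mod_cast ht
      have : π.natDegree + t.natDegree < N := by omega
      exact_mod_cast this
  have h2 : qq k ^ j * ∑ z ∈ box k N, dv e (W z) ≤ qq k ^ N := by
    calc qq k ^ j * ∑ z ∈ box k N, dv e (W z)
        = ∑ t ∈ box k j, ∑ z ∈ box k N, dv e (W z) := by
          rw [sum_const, nsmul_eq_mul, card_box]
      _ = ∑ t ∈ box k j, ∑ z ∈ box k N, dv e (W (z + π * t)) := sum_congr rfl h1
      _ = ∑ z ∈ box k N, ∑ t ∈ box k j, dv e (W (z + π * t)) := sum_comm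
      _ ≤ ∑ z ∈ box k N, (1 : ℝ) := by
          refine sum_le_sum fun z _ => ?_
          unfold dv
          rw [sum_boole]
          have : #{t ∈ box k j | e ∣ W (z + π * t)} ≤ 1 := card_le_one.2 fun a ha b hb =>
            h z a (mem_filter.1 ha).1 b (mem_filter.1 hb).1 (mem_filter.1 ha).2 (mem_filter.1 hb).2
          exact_mod_cast this
      _ = qq k ^ N := by rw [sum_const, nsmul_eq_mul, card_box, mul_one]
  rw [box_exp, div_le_div_iff₀ (by positivity) (by positivity)]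
  linarith

theorem exc_diff {k : Type} [Field k] (π f P D z t t' : k[X]) :
    wronskian (f + P * (z + π * t)) D - wronskian (f + P * (z + π * t')) D =
      π * (P * (t - t') * derivative D - (derivative P * (t - t') + P * derivative (t - t')) * D) -
        P * derivative π * D * (t - t') := by
  simp only [wronskian, derivative_add, derivative_mul, derivative_sub]
  ring

theorem exc_zero {k : Type} [Field k] {π s : k[X]} {j : ℕ} (hπ : π ≠ 0) (hj : j ≤ π.natDegree)
    (hs : s.degree < j) (h : π ∣ s) : s = 0 :=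
  eq_zero_of_dvd_of_degree_lt h (hs.trans_le (by rw [degree_eq_natDegree hπ]; exact_mod_cast hj))

theorem exc_row {k : Type} [Field k] [Fintype k] {p : ℕ} [Fact p.Prime] [CharP k p] (hp : p ≠ 2) :
    EXC_s k := by
  intro π f P D N hm hi hP hD
  have hpr : Prime π := hi.prime
  have h0 : π ≠ 0 := hi.ne_zero
  have hd : ¬ π ∣ derivative π := by
    intro h
    have hs : π.Separable := PerfectField.separable_of_irreducible hi
    exact hi.not_isUnit (hs.isUnit_of_dvd' dvd_rfl h)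
  have hc : ¬ π ∣ P * derivative π * D := by
    intro h
    rcases hpr.dvd_or_dvd h with h | h
    · rcases hpr.dvd_or_dvd h with h | h
      · exact hP h
      · exact hd h
    · exact hD h
  have key : ∀ z t t', π ∣ wronskian (f + P * (z + π * t)) D →
      π ∣ wronskian (f + P * (z + π * t')) D → π ∣ t - t' := by
    intro z t t' h1 h2
    have h3 := dvd_sub h1 h2
    rw [exc_diff] at h3
    exact (hpr.dvd_or_dvd ((dvd_sub_right (dvd_mul_right _ _)).1 h3)).resolve_left hc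
  have hsub : ∀ {j : ℕ} {t t' : k[X]}, t ∈ box k j → t' ∈ box k j → (t - t').degree < j :=
    fun ht ht' => (degree_sub_le _ _).trans_lt (max_lt (mem_box.1 ht) (mem_box.1 ht'))
  refine ⟨fun j hj hN => ?_, fun hN => ?_⟩
  · exact exc_avg π π (fun z => wronskian (f + P * z) D) N j h0 hN fun z t ht t' ht' h1 h2 =>
      sub_eq_zero.1 (exc_zero h0 hj (hsub ht ht') (key z t t' h1 h2))
  · refine exc_avg π (π ^ 2) (fun z => wronskian (f + P * z) D) N _ h0 (by omega)
      fun z t ht t' ht' h1 h2 => ?_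
    have hsq : π ∣ π ^ 2 := dvd_pow_self π two_ne_zero
    obtain ⟨s, hs⟩ := key z t t' (hsq.trans h1) (hsq.trans h2)
    have h3 := dvd_sub h1 h2
    rw [exc_diff, hs] at h3
    have h4 : π * (P * (π * s) * derivative D -
        (derivative P * (π * s) + P * derivative (π * s)) * D) - P * derivative π * D * (π * s) =
        π ^ 2 * (P * s * derivative D - (derivative P * s + P * derivative s) * D) -
          π * (C 2 * (P * derivative π * D * s)) := by
      rw [derivative_mul, C_ofNat]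
      ring
    rw [h4, dvd_sub_right (dvd_mul_right _ _), pow_two, mul_dvd_mul_iff_left h0] at h3
    have h2k : (2 : k) ≠ 0 := by
      intro h
      have : p ∣ 2 := (CharP.cast_eq_zero_iff k p 2).1 (by exact_mod_cast h)
      exact hp ((Nat.prime_dvd_prime_iff_eq Fact.out Nat.prime_two).1 this)
    have h5 : π ∣ s := by
      rcases hpr.dvd_or_dvd h3 with h | h
      · exact absurd (isUnit_of_dvd_unit h (isUnit_C.2 h2k.isUnit)) hi.not_isUnit
      · exact (hpr.dvd_or_dvd h).resolve_left hc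
    have h6 : π * π ∣ t - t' := hs ▸ mul_dvd_mul_left π h5
    refine sub_eq_zero.1 (exc_zero (mul_ne_zero h0 h0) ?_ (hsub ht ht') h6)
    rw [natDegree_mul h0 h0]
    omega

end H18F

end
end

-- part Gam
section

set_option autoImplicit false

open Polynomial Finset Filter
open scoped Classical BigOperators

noncomputable section
namespace H18F
open Pool.Agent.H4O (box mon prs qq)
open Pool.Agent.H48P (jac chi)
open Pool.Agent.MP_f0209c_nt.FF (mu ev MM HH AA)
open Pool.Agent.H4O (mem_prs)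

theorem gam_deg {k : Type} [Field k] (a b : k[X]) :
    (wronskian a b).natDegree ≤ a.natDegree + b.natDegree := by
  unfold wronskian
  refine (natDegree_sub_le _ _).trans (max_le (natDegree_mul_le.trans ?_) (natDegree_mul_le.trans ?_))
  · have := natDegree_derivative_le b
    omega
  · have := natDegree_derivative_le a
    omega

theorem gam_row {k : Type} [Field k] [Fintype k] : GAM_s k := by
  intro c r P₁ P₂ g e κ hc hr h1 h2 hne hg he hgr
  obtain ⟨m1, i1, d1⟩ := mem_prs.1 h1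
  obtain ⟨m2, i2, d2⟩ := mem_prs.1 h2
  obtain ⟨mg, ig, dg⟩ := mem_prs.1 hg
  refine ⟨C c * (P₂ ^ 2 * wronskian r (P₁ * g) - P₁ ^ 2 * wronskian r (P₂ * g)), ?_, ?_, ?_⟩
  · intro h
    have hpr : Prime g := ig.prime
    have h3 := (mul_eq_zero.1 h).resolve_left (C_ne_zero.2 hc)
    have h4 : g ∣ r * derivative g * P₁ * P₂ * (P₂ - P₁) := by
      refine ⟨P₁ ^ 2 * (r * derivative P₂ - derivative r * P₂) -
        P₂ ^ 2 * (r * derivative P₁ - derivative r * P₁), ?_⟩
      simp only [wronskian, derivative_mul] at h3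
      linear_combination h3
    have small : ∀ s : k[X], s ≠ 0 → s.natDegree ≤ e → ¬ g ∣ s := fun s hs hd h' => by
      have := natDegree_le_of_dvd h' hs
      omega
    rcases hpr.dvd_or_dvd h4 with h | h
    · rcases hpr.dvd_or_dvd h with h | h
      · rcases hpr.dvd_or_dvd h with h | h
        · rcases hpr.dvd_or_dvd h with h | h
          · exact hgr h
          · have hs : g.Separable := PerfectField.separable_of_irreducible ig
            exact ig.not_isUnit (hs.isUnit_of_dvd' dvd_rfl h)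
        · exact small _ i1.ne_zero d1.le h
      · exact small _ i2.ne_zero d2.le h
    · exact small _ (sub_ne_zero.2 hne.symm) ((natDegree_sub_le _ _).trans (max_le d2.le d1.le)) h
  · have key : ∀ A B : k[X], A.natDegree = e → B.natDegree = e →
        (A ^ 2 * wronskian r (B * g)).natDegree ≤ r.natDegree + 3 * e + κ := by
      intro A B hA hB
      have a1 : (A ^ 2).natDegree ≤ 2 * A.natDegree := natDegree_pow_le
      have a2 := gam_deg r (B * g)
      have a3 : (B * g).natDegree ≤ B.natDegree + g.natDegree := natDegree_mul_le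
      have a4 : (A ^ 2 * wronskian r (B * g)).natDegree ≤ _ := natDegree_mul_le
      omega
    exact (natDegree_C_mul_le _ _).trans ((natDegree_sub_le _ _).trans
      (max_le (key _ _ d2 d1) (key _ _ d1 d2)))
  · intro m
    simp only [wronskian, derivative_mul, derivative_add, derivative_C]
    ring

end H18F

end
end

-- part Wt
section

set_option autoImplicit false

open Polynomial Finset Filter
open scoped Classical BigOperators

noncomputable section
namespace H18F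
open Pool.Agent.H4O (box mon prs qq)
open Pool.Agent.H48P (jac chi)
open Pool.Agent.MP_f0209c_nt.FF (mu ev MM HH AA)

theorem wt_cnt {k : Type} [Field k] [Fintype k] {e : ℕ} (he : 1 ≤ e) {W : k[X]} (hW : W ≠ 0) :
    #{π ∈ prs k e | π ∣ W} ≤ W.natDegree := by
  have hm : ∀ π ∈ ({π ∈ prs k e | π ∣ W} : Finset k[X]),
      (π.Monic ∧ Irreducible π ∧ π.natDegree = e) ∧ π ∣ W := fun π h =>
    ⟨Pool.Agent.H4O.mem_prs.1 (Finset.mem_filter.1 h).1, (Finset.mem_filter.1 h).2⟩
  have hd : ∏ π ∈ ({π ∈ prs k e | π ∣ W} : Finset k[X]), π ∣ W :=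
    Finset.prod_dvd_of_coprime (fun a ha b hb hab => (hm a ha).1.2.1.coprime_iff_not_dvd.2
      fun h => hab (eq_of_monic_of_associated (hm a ha).1.1 (hm b hb).1.1
        ((hm a ha).1.2.1.associated_of_dvd (hm b hb).1.2.1 h))) fun π h => (hm π h).2
  have h1 := natDegree_le_of_dvd hd hW
  rw [natDegree_prod_of_monic _ _ fun π h => (hm π h).1.1,
    Finset.sum_congr rfl fun π h => (hm π h).1.2.2, Finset.sum_const, smul_eq_mul] at h1
  exact (Nat.le_mul_of_pos_right _ he).trans h1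

theorem wt_row {k : Type} [Field k] [Fintype k] : WT_s k := by
  intro R y B hy
  have q0 : (0 : ℝ) < qq k := Pool.Agent.H4O.dec_q
  refine ⟨fun W hW => ?_, ?_, fun hB => ?_⟩
  · unfold wt
    split_ifs with h
    · exact ⟨le_rfl, by positivity⟩
    · refine ⟨by positivity, ?_⟩
      refine (Finset.prod_le_prod (g := fun _ => (B : ℝ)) (fun i _ => by positivity)
        fun i _ => ?_).trans (le_of_eq ?_)
      · exact_mod_cast (wt_cnt (by omega) h).trans hW
      · rw [Finset.prod_const, Finset.card_range]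
  · refine Finset.prod_le_one (fun i _ => by positivity) fun i _ => ?_
    exact (div_le_one (by positivity)).2 (Pool.Agent.MP_f0209c_nt.FF.card_prs_le _)
  · have e : (2 * B : ℝ) ^ R = ∏ _i ∈ range R, (2 * B : ℝ) := by
      rw [Finset.prod_const, Finset.card_range]
    rw [e, ro, ← Finset.prod_mul_distrib]
    refine le_trans (le_of_eq (Finset.prod_const_one (s := range R)).symm)
      (Finset.prod_le_prod (fun _ _ => zero_le_one) fun i hi => ?_)
    have h1 := Pool.Agent.H4O.card_prs (k := k) (e := y + i) (by omega)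
    have h2 : ((y + i : ℕ) : ℝ) ≤ B := by
      have := Finset.mem_range.1 hi
      exact_mod_cast (by omega : y + i ≤ B)
    rw [← mul_div_assoc, le_div_iff₀ (by positivity), one_mul]
    exact h1.trans (by gcongr)

end H18F

end
end

-- part Pair
section

set_option autoImplicit false

open Polynomial Finset Filter
open scoped Classical BigOperators

noncomputable section
namespace H18F
open Pool.Agent.H4O (box mon prs qq)
open Pool.Agent.H48P (jac chi)
open Pool.Agent.MP_f0209c_nt.FF (mu ev MM HH AA)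
open Pool.Agent.H4O (mem_box mem_mon mem_prs card_mon box_nonempty exp_box_shift two_le_qq)

theorem pair_root {x A q : ℝ} {J t h : ℕ} (hx : 0 ≤ x) (hA : 1 ≤ A) (hq : 1 ≤ q)
    (ht : t * 2 ^ J ≤ h) (H : x ^ 2 ^ J ≤ A / q ^ h) : x ≤ A / q ^ t := by
  have hq0 : 0 < q := by linarith
  have hJ : 2 ^ J ≠ 0 := by positivity
  refine (pow_le_pow_iff_left₀ hx (by positivity) hJ).1 (H.trans ?_)
  rw [div_pow, ← pow_mul]
  exact div_le_div₀ (by positivity) (le_self_pow₀ hA hJ) (by positivity) (pow_le_pow_right₀ hq ht)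

section
variable {k : Type} [Field k]

theorem pair_wr (p : ℕ) [Fact p.Prime] [CharP k p] (f D s : k[X]) :
    wronskian (f + s ^ p * D) D = wronskian f D := by
  have h : derivative (s ^ p) = 0 := by
    rw [derivative_pow, CharP.cast_eq_zero k p, C_0]; simp
  simp only [wronskian, derivative_add, derivative_mul, h]
  ring

theorem pair_cnt {Γ : k[X]} (hΓ : Γ ≠ 0) : ∃ S : Finset k[X], #S ≤ Γ.natDegree ∧
    ∀ ρ : k[X], ρ ∈ S ↔ Irreducible ρ ∧ ρ.Monic ∧ ρ ∣ Γ := by
  have mem : ∀ ρ, ρ ∈ (UniqueFactorizationMonoid.normalizedFactors Γ).toFinset ↔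
      Irreducible ρ ∧ ρ.Monic ∧ ρ ∣ Γ := fun ρ => by
    rw [Multiset.mem_toFinset, Polynomial.mem_normalizedFactors_iff hΓ]
  refine ⟨_, ?_, mem⟩
  have hall : ∏ ρ ∈ (UniqueFactorizationMonoid.normalizedFactors Γ).toFinset, ρ ∣ Γ :=
    (Multiset.toFinset_prod_dvd_prod _).trans
      (UniqueFactorizationMonoid.prod_normalizedFactors hΓ).dvd
  have h1 := natDegree_le_of_dvd hall hΓ
  rw [natDegree_prod_of_monic _ _ fun ρ h => ((mem ρ).1 h).2.1] at h1
  refine le_trans ?_ h1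
  rw [card_eq_sum_ones]
  exact sum_le_sum fun ρ h => ((mem ρ).1 h).1.natDegree_pos

variable [Fintype k]

theorem pair_avg {N l : ℕ} (Φ B : k[X] → ℝ) (sh : k[X] → k[X])
    (hs : ∀ s ∈ box k l, (sh s).degree < N)
    (hB : ∀ z ∈ box k N, |𝔼 s ∈ box k l, Φ (z + sh s)| ≤ B z) :
    |𝔼 z ∈ box k N, Φ z| ≤ 𝔼 z ∈ box k N, B z := by
  have e : 𝔼 z ∈ box k N, Φ z = 𝔼 z ∈ box k N, 𝔼 s ∈ box k l, Φ (z + sh s) := by
    rw [expect_comm, expect_congr rfl fun s h => exp_box_shift (hs s h) Φ,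
      expect_const (box_nonempty l)]
  rw [e]
  exact (abs_expect_le _ _).trans (expect_le_expect hB)

omit [Fintype k] in
theorem pair_dv (e f : k[X]) : 0 ≤ dv e f ∧ dv e f ≤ 1 := by
  unfold dv
  split_ifs <;> norm_num

omit [Fintype k] in
theorem pair_mu (e f : k[X]) : |mu f * dv e f| ≤ 1 := by
  rw [abs_mul, abs_of_nonneg (pair_dv e f).1]
  refine mul_le_one₀ ?_ (pair_dv e f).1 (pair_dv e f).2
  rw [mu_def]
  split_ifs <;> simp

end

theorem pair_row {k : Type} [Field k] [Fintype k] {p : ℕ} [Fact p.Prime] [CharP k p]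
    (h₁ : LINE_s k p) (h₂ : EXC_s k) (h₃ : GAM_s k) (h₄ : WT_s k) : PAIR_s k p := by
  intro R r u n l T h al kk y a b H e n₁ hP he1 he2 hn1 hn2 c ρ m P₁ P₂ g e₁ e₂ hc hρ hρn hP₁ hP₂
    hne hg hgρ hm₁ hm₂ he₁ he₂ hd₁ hd₂
  have n0 : (0 : ℝ) ≤ (2 * n : ℝ) ^ R := by positivity
  obtain ⟨hN, p1, p2, p3, p4, p5, p6, p7, p8, -, -, -, -, -, p9, p10, p11, p12⟩ := hP
  have hN' := hN
  obtain ⟨q1, q2, -, -, -, -, q3, -, -, -, -, q4⟩ := hN'
  have hp : 0 < p := (Fact.out : p.Prime).pos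
  have hp2 : 2 ≤ p := (Fact.out : p.Prime).two_le
  obtain ⟨κ, hκ⟩ : ∃ κ, κ = p * (6 * u + 1) := ⟨_, rfl⟩
  have hκe : e < κ := by rw [hκ]; nlinarith
  rw [← hκ] at p1 p2 p5 p8 hg
  obtain ⟨L, hL⟩ : ∃ L, l = L + 1 := ⟨l - 1, by omega⟩
  have hpl : p * l = p * L + p := by rw [hL]; ring
  have hq := two_le_qq (k := k)
  have hq0 : 0 < qq k := by linarith
  obtain ⟨g1, g2, g3⟩ := mem_prs.1 hg
  have hC : (C c : k[X]) ≠ 0 := C_ne_zero.2 hc
  have dP : ∀ P ∈ prs k e, C c * P ≠ 0 ∧ (C c * P).natDegree = e ∧ C c * P * g ≠ 0 ∧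
      (C c * P * g).natDegree = e + κ := fun P hP => by
    obtain ⟨a1, -, a3⟩ := mem_prs.1 hP
    have b1 : C c * P ≠ 0 := mul_ne_zero hC a1.ne_zero
    have b2 : (C c * P).natDegree = e := by rw [natDegree_C_mul hc, a3]
    exact ⟨b1, b2, mul_ne_zero b1 g1.ne_zero, by rw [natDegree_mul b1 g1.ne_zero, b2, g3]⟩
  have fm : ∀ P ∈ prs k e, C c * P * m + ρ ∈ mon k n₁ → ∀ z ∈ box k (n - e - 1),
      (C c * P * (m + z) + ρ).Monic ∧ (C c * P * (m + z) + ρ).natDegree = n₁ ∧
      (wronskian (C c * P * (m + z) + ρ) (C c * P * g)).natDegree ≤ n + 12 * u + κ := by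
    intro P hP hm z hz
    obtain ⟨a1, a2⟩ := mem_mon.1 hm
    obtain ⟨b1, b2, -, b4⟩ := dP P hP
    have hlt : (C c * P * z).degree < (C c * P * m + ρ).degree := by
      rcases eq_or_ne z 0 with rfl | z0
      · rw [mul_zero, degree_zero]
        exact bot_lt_iff_ne_bot.2 fun e' => a1.ne_zero (degree_eq_bot.1 e')
      · have hz' := (natDegree_lt_iff_degree_lt z0).2 (mem_box.1 hz)
        refine degree_lt_degree ?_
        rw [natDegree_mul b1 z0, b2, a2]
        omega
    have e' : C c * P * (m + z) + ρ = C c * P * m + ρ + C c * P * z := by ring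
    have c2 : (C c * P * (m + z) + ρ).natDegree = n₁ := by
      rw [e', natDegree_add_eq_left_of_degree_lt hlt, a2]
    refine ⟨e' ▸ a1.add_of_left hlt, c2, ?_⟩
    rcases eq_or_ne (wronskian (C c * P * (m + z) + ρ) (C c * P * g)) 0 with w0 | w0
    · rw [w0, natDegree_zero]; exact Nat.zero_le _
    · have := natDegree_wronskian_lt_add w0
      rw [c2, b4] at this
      omega
  obtain ⟨Γ, Γ0, Γd, hΓ⟩ := h₃ c ρ P₁ P₂ g e κ hc hρ hP₁ hP₂ hne hg hκe hgρ
  obtain ⟨S₀, S1, S2⟩ := pair_cnt Γ0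
  obtain ⟨S, hS⟩ : ∃ S : Finset k[X],
      S = S₀.filter fun π => y ≤ π.natDegree ∧ π.natDegree ≤ kk + T := ⟨_, rfl⟩
  obtain ⟨W, hW⟩ : ∃ W : k[X] → k[X] → k[X],
      W = fun P z => wronskian (C c * P * (m + z) + ρ) (C c * P * g) := ⟨_, rfl⟩
  obtain ⟨β, hβ⟩ : ∃ β : ℝ, β = 2001 * al * 4 ^ (2 * r + 4) / qq k ^ (40 * u) := ⟨_, rfl⟩
  have β0 : 0 ≤ β := by rw [hβ]; positivity
  obtain ⟨Bad, hBad⟩ : ∃ Bad : k[X] → ℝ,
      Bad = fun z => ∑ π ∈ prs k y, dv (π ^ 2) (W P₁ z) + ∑ π ∈ S, dv π (W P₁ z) := ⟨_, rfl⟩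
  obtain ⟨d11, d12, d13, d14⟩ := dP P₁ hP₁
  obtain ⟨-, -, d23, d24⟩ := dP P₂ hP₂
  have hw := (h₄ R y (2 * n) (by omega)).1
  refine (pair_avg (l := l) _ (fun z => ((2 * n : ℝ) ^ R) ^ 2 * (β + Bad z)) (fun s => g * s ^ p)
    (fun s hs => ?_) (fun z hz => ?_)).trans ?_
  · rcases eq_or_ne s 0 with rfl | s0
    · rw [zero_pow hp.ne', mul_zero, degree_zero]
      exact WithBot.bot_lt_coe _
    · have h1 := (natDegree_lt_iff_degree_lt s0).2 (mem_box.1 hs)
      refine (natDegree_lt_iff_degree_lt (mul_ne_zero g1.ne_zero (pow_ne_zero _ s0))).1 ?_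
      rw [natDegree_mul g1.ne_zero (pow_ne_zero _ s0), natDegree_pow, g3]
      have h2 : p * s.natDegree ≤ p * L := Nat.mul_le_mul_left p (by omega)
      omega
  · obtain ⟨m1, m2, m3⟩ := fm P₁ hP₁ hm₁ z hz
    obtain ⟨m4, m5, m6⟩ := fm P₂ hP₂ hm₂ z hz
    have e1 : ∀ P s : k[X], C c * P * (m + (z + g * s ^ p)) + ρ =
        C c * P * (m + z) + ρ + s ^ p * (C c * P * g) := fun P s => by ring
    simp only [e1, pair_wr]
    have w1 := hw _ (m3.trans (by omega))
    have w2 := hw _ (m6.trans (by omega))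
    push_cast at w1 w2
    have s1 : 0 ≤ ∑ π ∈ prs k y, dv (π ^ 2) (W P₁ z) := sum_nonneg fun _ _ => (pair_dv _ _).1
    have s2 : 0 ≤ ∑ π ∈ S, dv π (W P₁ z) := sum_nonneg fun _ _ => (pair_dv _ _).1
    have B0 : 0 ≤ Bad z := by rw [hBad]; exact add_nonneg s1 s2
    simp only [mul_mul_mul_comm (wt R y _) _ (wt R y _)]
    rw [← mul_expect, abs_mul, abs_of_nonneg (mul_nonneg w1.1 w2.1)]
    by_cases z1 : wt R y (wronskian (C c * P₁ * (m + z) + ρ) (C c * P₁ * g)) = 0
    · rw [z1, zero_mul, zero_mul]; exact mul_nonneg (sq_nonneg _) (add_nonneg β0 B0)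
    by_cases z2 : wt R y (wronskian (C c * P₂ * (m + z) + ρ) (C c * P₂ * g)) = 0
    · rw [z2, mul_zero, zero_mul]; exact mul_nonneg (sq_nonneg _) (add_nonneg β0 B0)
    refine mul_le_mul ((mul_le_mul w1.2 w2.2 w2.1 n0).trans_eq (pow_two _).symm) ?_
      (abs_nonneg _) (sq_nonneg _)
    by_cases hb : 1 ≤ Bad z
    · refine (abs_expect_le _ _).trans ((expect_le (box_nonempty l) fun s _ => ?_).trans
        (hb.trans (le_add_of_nonneg_left β0)))
      rw [abs_mul]
      exact mul_le_one₀ (pair_mu _ _) (abs_nonneg _) (pair_mu _ _)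
    refine le_trans ?_ (le_add_of_nonneg_right B0)
    rw [hβ]
    have al1 : (1 : ℝ) ≤ al := by exact_mod_cast q3
    refine pair_root (J := 2 * r + 4) (h := h) (abs_nonneg _) ?_ (by linarith) p9 ?_
    · have : (1 : ℝ) ≤ 4 ^ (2 * r + 4) := one_le_pow₀ (by norm_num)
      nlinarith
    refine h₁ _ _ _ _ e₁ e₂ l T h al kk y r (2 * n) R hN p4 p3 m1 m4 d13 d23 he₁ he₂ (by omega)
      (by omega) (by omega) (by omega) ?_ ?_ z1 z2 (by omega) (by omega) (by omega) (by omega)
      (fun π hπ hd => hb ?_) (fun π a1 a2 a3 a4 a5 a6 => hb ?_)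
    · rw [m2, d14, hL, Nat.add_sub_cancel]; omega
    · rw [m5, d24, hL, Nat.add_sub_cancel]; omega
    · have := single_le_sum (f := fun π => dv (π ^ 2) (W P₁ z)) (fun _ _ => (pair_dv _ _).1) hπ
      have e2 : dv (π ^ 2) (W P₁ z) = 1 := by rw [hW]; exact if_pos hd
      rw [hBad]
      simp only [e2] at this
      linarith
    · have hπ : π ∈ S := by
        rw [hS, mem_filter, S2, ← hΓ (m + z)]
        exact ⟨⟨a2, a1, dvd_sub (a5.mul_left _) (a6.mul_left _)⟩, a3, a4⟩
      have := single_le_sum (f := fun π => dv π (W P₁ z)) (fun _ _ => (pair_dv _ _).1) hπ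
      have e2 : dv π (W P₁ z) = 1 := by rw [hW]; exact if_pos a5
      rw [hBad]
      simp only [e2] at this
      linarith
  · rw [← mul_expect]
    refine mul_le_mul_of_nonneg_left ?_ (sq_nonneg _)
    have e3 : ∀ z, W P₁ z = wronskian (C c * P₁ * m + ρ + C c * P₁ * z) (C c * P₁ * g) :=
      fun z => by rw [hW]; exact congrArg (fun x => wronskian x (C c * P₁ * g)) (by ring)
    have ex : ∀ π : k[X], π.Monic → Irreducible π → y ≤ π.natDegree → _ := fun π a1 a2 a3 =>
      h₂ π (C c * P₁ * m + ρ) (C c * P₁) (C c * P₁ * g) (n - e - 1) a1 a2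
        (fun hd => by have := natDegree_le_of_dvd hd d11; omega)
        (fun hd => by have := natDegree_le_of_dvd hd d13; omega)
    have hy : 1 / qq k ^ y ≤ 1 / qq k ^ (40 * u) :=
      one_div_le_one_div_of_le (by positivity) (pow_le_pow_right₀ (by linarith) p10)
    have t1 : 𝔼 z ∈ box k (n - e - 1), ∑ π ∈ prs k y, dv (π ^ 2) (W P₁ z) ≤ 1 / qq k ^ y := by
      rw [expect_sum_comm]
      have c1 : (#(prs k y) : ℝ) ≤ qq k ^ y := by
        rw [← card_mon]
        exact_mod_cast card_le_card (filter_subset _ _)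
      refine (sum_le_card_nsmul _ _ (1 / qq k ^ (2 * y)) fun π hπ => ?_).trans ?_
      · obtain ⟨a1, a2, a3⟩ := mem_prs.1 hπ
        have := (ex π a1 a2 a3.ge).2 (by omega)
        rw [a3] at this
        simpa only [e3] using this
      · rw [nsmul_eq_mul, mul_one_div, div_le_div_iff₀ (by positivity) (by positivity), two_mul,
          pow_add, one_mul]
        exact mul_le_mul_of_nonneg_right c1 (by positivity)
    have t2 : 𝔼 z ∈ box k (n - e - 1), ∑ π ∈ S, dv π (W P₁ z) ≤ 2 * n * (1 / qq k ^ y) := by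
      rw [expect_sum_comm]
      have c1 : (#S : ℝ) ≤ 2 * n := by
        have : #S ≤ #S₀ := by rw [hS]; exact card_filter_le _ _
        exact_mod_cast (by omega : #S ≤ 2 * n)
      refine (sum_le_card_nsmul _ _ (1 / qq k ^ y) fun π hπ => ?_).trans ?_
      · rw [hS, mem_filter, S2] at hπ
        have := (ex π hπ.1.2.1 hπ.1.1 hπ.2.1).1 y hπ.2.1 (by omega)
        simpa only [e3] using this
      · rw [nsmul_eq_mul]
        exact mul_le_mul_of_nonneg_right c1 (by positivity)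
    rw [expect_add_distrib, expect_const (box_nonempty _), hBad, expect_add_distrib, hβ]
    have n1 : (1 : ℝ) ≤ n := by exact_mod_cast (by omega : 1 ≤ n)
    have n2 : (al : ℝ) ≤ n := by exact_mod_cast (by omega : al ≤ n)
    have n3 : (1 : ℝ) ≤ 4 ^ (2 * r + 4) := one_le_pow₀ (by norm_num)
    obtain ⟨F, hF⟩ : ∃ F : ℝ, F = 4 ^ (2 * r + 4) := ⟨_, rfl⟩
    obtain ⟨x, hx⟩ : ∃ x : ℝ, x = 1 / qq k ^ (40 * u) := ⟨_, rfl⟩
    have x0 : 0 ≤ x := by rw [hx]; positivity
    rw [div_eq_mul_one_div (2001 * (al : ℝ) * _), div_eq_mul_one_div (2004 * (n : ℝ) * _), ← hx,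
      ← hF]
    rw [← hx] at hy
    rw [← hF] at n3
    have t3 : 2 * (n : ℝ) * (1 / qq k ^ y) ≤ 2 * n * x :=
      mul_le_mul_of_nonneg_left hy (by positivity)
    have t4 : 2001 * (al : ℝ) * F + (1 + 2 * n) ≤ 2004 * n * F := by
      nlinarith [mul_le_mul_of_nonneg_right n2 (by linarith : 0 ≤ F),
        mul_le_mul_of_nonneg_left n3 (by linarith : (0 : ℝ) ≤ n)]
    nlinarith [mul_le_mul_of_nonneg_right t4 x0]

end H18F

end
end

-- part Lev
section

set_option autoImplicit false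

open Polynomial Finset Filter
open scoped Classical BigOperators

noncomputable section
namespace H18F
open Pool.Agent.H4O (box mon prs qq)
open Pool.Agent.H48P (jac chi)
open Pool.Agent.MP_f0209c_nt.FF (mu ev MM HH AA)

theorem lev_der {k : Type} [Field k] (p : ℕ) [hp : Fact p.Prime] [CharP k p] (f D : k[X]) : derivative (f * D ^ (p - 1)) = -D ^ (p - 2) * wronskian f D := by
  obtain ⟨j, hj⟩ : ∃ j, p = j + 2 := ⟨p - 2, by have := hp.out.two_le; omega⟩
  have h0 : ((j : k[X]) + 2) = 0 := by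
    have := CharP.cast_eq_zero k[X] p
    rw [hj] at this
    exact_mod_cast this
  rw [show p - 1 = j + 1 by omega, show p - 2 = j by omega, derivative_mul, derivative_pow_succ, wronskian,
    map_add, map_natCast, map_one]
  linear_combination (f * D ^ j * derivative D) * h0

theorem lev_row {k : Type} [Field k] [Fintype k] {p : ℕ} [Fact p.Prime] [CharP k p] : LEV_s k p := by
  intro c f P g E R y N a b H c0 P0 g0 E0 hdeg hL ha h1 h2
  have hbox : ∀ n (f : k[X]), f ∈ box k n ↔ f.degree < n := fun _ _ => Pool.Agent.H4O.mem_box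
  have hprs : ∀ e (π : k[X]), π ∈ prs k e ↔ π.Monic ∧ Irreducible π ∧ π.natDegree = e :=
    fun _ _ => Pool.Agent.H4O.mem_prs
  let d : Fin R → ℕ := fun i => y + i
  have hd : Function.Injective d := fun i j e => Fin.ext (Nat.add_left_cancel e)
  have hP : ∀ i, (C c * P).natDegree < d i := fun i =>
    (natDegree_C_mul_le c P).trans_lt (by simp only [d]; omega)
  have hE : ∀ i, E.natDegree < d i := fun i => by simp only [d]; omega
  have hg : ∀ i, g.natDegree < d i := fun i => by simp only [d]; omega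
  have p2 := (Fact.out : p.Prime).two_le
  have hq : (1 : ℝ) ≤ Fintype.card k := by exact_mod_cast Fintype.card_pos
  have hcb : ∀ n, ((box k n).card : ℝ) = (Fintype.card k : ℝ) ^ n := fun n => by
    rw [H4Lev.card_box _ _ (hbox n)]; push_cast; rfl
  set De := ∑ i, d i with hDe
  set T := Fintype.piFinset fun i => prs k (d i) with hT
  have mT : ∀ π ∈ T, ∀ i, (π i).Monic ∧ Irreducible (π i) ∧ (π i).natDegree = d i := fun π hπ i =>
    (hprs _ _).1 (Fintype.mem_piFinset.1 hπ i)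
  have cop : ∀ π ∈ T, Pairwise (Function.onFun IsCoprime π) := fun π hπ i j hij =>
    H4Lev.mi_cop ⟨(mT π hπ i).1, (mT π hπ i).2.1⟩ ⟨(mT π hπ j).1, (mT π hπ j).2.1⟩ fun e =>
      hij (hd (by rw [← (mT π hπ i).2.2, e, (mT π hπ j).2.2]))
  have inj : Set.InjOn (fun π : Fin R → k[X] => ∏ i, π i) T := by
    intro π hπ π' hπ' e
    funext i
    have h3 : π i ∣ ∏ j, π' j := by
      rw [← show ∏ j, π j = ∏ j, π' j from e]; exact dvd_prod_of_mem _ (mem_univ i)
    obtain ⟨j, -, hj⟩ := ((mT π hπ i).2.1.prime.dvd_finsetProd_iff _).1 h3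
    have h4 := H4Lev.mi_eq ⟨(mT π hπ i).1, (mT π hπ i).2.1⟩ ⟨(mT π' hπ' j).1, (mT π' hπ' j).2.1⟩ hj
    have h5 : i = j := hd (by rw [← (mT π hπ i).2.2, h4, (mT π' hπ' j).2.2])
    rw [h4, h5]
  have dg' : ∀ π ∈ T, (∏ i, π i).natDegree = De := fun π hπ => by
    rw [natDegree_prod_of_monic _ _ fun i _ => (mT π hπ i).1]
    exact sum_congr rfl fun i _ => (mT π hπ i).2.2
  have cp : ∀ π ∈ T, ∀ a : k[X], a ≠ 0 → (∀ i, a.natDegree < d i) → IsCoprime (∏ i, π i) a :=
    fun π hπ a a0 ha => IsCoprime.prod_left fun i _ => (mT π hπ i).2.1.coprime_iff_not_dvd.2 fun e => by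
      have := natDegree_le_of_dvd e a0
      have := ha i
      have := (mT π hπ i).2.2
      omega
  set t := derivative (f * (C c * P * g) ^ (p - 1)) with ht
  set w := g ^ (p - 1) with hy
  have y0 : w ≠ 0 := pow_ne_zero _ g0
  have cP0 : C c * P ≠ 0 := mul_ne_zero (C_ne_zero.2 c0) P0
  have yd : w.natDegree = (p - 1) * g.natDegree := by rw [hy, natDegree_pow]
  have eB : ∀ v, t + derivative ((C c * P * E) ^ p * v * w) =
      -(C c * P * g) ^ (p - 2) * wronskian (f + C c * P * (E ^ p * v)) (C c * P * g) := fun v => by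
    rw [← lev_der, ht, ← derivative_add]
    congr 1
    obtain ⟨j, hj⟩ : ∃ j, p = j + 1 := ⟨p - 1, by omega⟩
    rw [hy, hj, Nat.add_sub_cancel]
    ring
  have D0 : -(C c * P * g) ^ (p - 2) ≠ 0 := neg_ne_zero.2 (pow_ne_zero _ (mul_ne_zero cP0 g0))
  have e1 : ∀ v, wt R y (wronskian (f + C c * P * (E ^ p * v)) (C c * P * g)) =
      ∑ π ∈ T, (if ∏ i, π i ∣ t + derivative ((C c * P * E) ^ p * v * w) then (1 : ℝ) else 0) -
        if t + derivative ((C c * P * E) ^ p * v * w) = 0 then (#T : ℝ) else 0 := fun v => by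
    rw [eB, wt, prod_range]
    by_cases hw : wronskian (f + C c * P * (E ^ p * v)) (C c * P * g) = 0
    · simp [hw]
    rw [if_neg hw, if_neg (mul_ne_zero D0 hw), sub_zero, sum_boole, ← Nat.cast_prod, ← Fintype.card_piFinset]
    congr 2
    ext π
    rw [mem_filter, Fintype.mem_piFinset]
    constructor
    · intro hh
      have hπ : π ∈ T := Fintype.mem_piFinset.2 fun i => (mem_filter.1 (hh i)).1
      exact ⟨hπ, (Fintype.prod_dvd_of_coprime (cop π hπ) fun i => (mem_filter.1 (hh i)).2).mul_left _⟩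
    · rintro ⟨hπ, hh⟩ i
      refine mem_filter.2 ⟨Fintype.mem_piFinset.1 hπ i, (dvd_prod_of_mem _ (mem_univ i)).trans ?_⟩
      exact (((cp π hπ _ cP0 hP).mul_right (cp π hπ g g0 hg)).pow_right.neg_right).dvd_of_dvd_mul_left hh
  have e2 : ro k R y = ∑ _π ∈ T, 1 / (Fintype.card k : ℝ) ^ De := by
    rw [ro, prod_range, prod_div_distrib, prod_pow_eq_pow_sum, ← Nat.cast_prod, ← Fintype.card_piFinset,
      sum_const, nsmul_eq_mul, mul_one_div]
    rfl
  have cT : (#T : ℝ) ≤ (Fintype.card k : ℝ) ^ De := by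
    rw [← hcb]
    have : #T ≤ #(box k De) := by
      refine card_le_card_of_injOn (fun π => ∏ i, π i - X ^ De) (fun π hπ => ?_) fun π hπ π' hπ' e =>
        inj hπ hπ' (sub_left_injective e)
      have hm : (∏ i, π i).Monic := monic_prod_of_monic _ _ fun i _ => (mT π hπ i).1
      refine mem_coe.2 ((hbox _ _).2 ?_)
      have := degree_sub_lt_left (p := ∏ i, π i) (q := X ^ De) (by
        rw [degree_eq_natDegree hm.ne_zero, dg' π hπ, degree_X_pow]) hm.ne_zero (by
        rw [hm.leadingCoeff, leadingCoeff_X_pow])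
      rwa [degree_eq_natDegree hm.ne_zero, dg' π hπ] at this
    exact_mod_cast this
  have eD : dg R y = De := by rw [dg, sum_range]
  rw [eD] at ha h1 h2
  have lm := H4Lev.lev_main p (box k) hbox a b N De (C c * P * E) w t (by rw [yd]; exact hL)
    (T.image fun π => ∏ i, π i) (fun m hm => by
      obtain ⟨π, hπ, rfl⟩ := mem_image.1 hm
      refine ⟨monic_prod_of_monic _ _ fun i _ => (mT π hπ i).1, ?_, (dg' π hπ).ge, by rwa [dg' π hπ], ?_⟩
      · exact Finset.squarefree_prod_of_pairwise_isCoprime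
          (fun a _ b _ hab => (cop π hπ hab).isRelPrime) fun i _ => (mT π hπ i).2.1.squarefree
      · exact ((cp π hπ _ cP0 hP).mul_right (cp π hπ E E0 hE)).mul_right (cp π hπ g g0 hg).pow_right)
  rw [sum_image inj, sum_congr rfl fun π hπ => by rw [dg' π hπ]] at lm
  have cz := H4Lev.card_zero p (box k) hbox N (C c * P * E) w t (mul_ne_zero cP0 E0) y0
  have hN0 : (0 : ℝ) < (Fintype.card k : ℝ) ^ N := by positivity
  have e3 : (𝔼 v ∈ box k N, wt R y (wronskian (f + C c * P * (E ^ p * v)) (C c * P * g))) - ro k R y =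
      ∑ π ∈ T, ((((box k N).filter fun z => ∏ i, π i ∣ t + derivative ((C c * P * E) ^ p * z * w)).card : ℝ) /
        (Fintype.card k : ℝ) ^ N - 1 / (Fintype.card k : ℝ) ^ De) -
      #T * ((box k N).filter fun v => t + derivative ((C c * P * E) ^ p * v * w) = 0).card /
        (Fintype.card k : ℝ) ^ N := by
    rw [expect_eq_sum_div_card, hcb, sum_congr rfl fun v _ => e1 v, e2, sum_sub_distrib, sum_comm,
      sum_sub_distrib, ← sum_div, sum_congr rfl fun π _ => sum_boole _ _, ← sum_filter, sum_const,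
      nsmul_eq_mul, sub_div, mul_comm (#T : ℝ), sub_right_comm, sum_div]
  have b1 : (Fintype.card k : ℝ) ^ (a + b + p * (a + 1 - b)) / (Fintype.card k : ℝ) ^ De ≤
      1 / (Fintype.card k : ℝ) ^ H := by
    rw [div_le_div_iff₀ (by positivity) (by positivity), ← pow_add, one_mul]
    exact pow_le_pow_right₀ hq h1
  have b2 : (#T : ℝ) * ((box k N).filter fun v => t + derivative ((C c * P * E) ^ p * v * w) = 0).card /
      (Fintype.card k : ℝ) ^ N ≤ 1 / (Fintype.card k : ℝ) ^ H := by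
    have cz' : (((box k N).filter fun v => t + derivative ((C c * P * E) ^ p * v * w) = 0).card : ℝ) ≤
      (Fintype.card k : ℝ) ^ ((N + w.natDegree) / p + 1) := by exact_mod_cast cz
    refine (div_le_div_of_nonneg_right (mul_le_mul cT cz' (by positivity) (by positivity)) hN0.le).trans ?_
    rw [div_le_div_iff₀ (by positivity) (by positivity), ← pow_add, ← pow_add, one_mul, yd]
    exact pow_le_pow_right₀ hq h2
  rw [e3, ← one_add_one_eq_two, add_div]
  refine (abs_sub _ _).trans ?_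
  rw [abs_of_nonneg (a := _ / _) (by positivity)]
  exact add_le_add (((abs_sum_le_sum_abs _ _).trans lm).trans b1) b2

end H18F

end
end

-- part Maj
section

set_option autoImplicit false

open Polynomial Finset Filter
open scoped Classical BigOperators

noncomputable section
namespace H18F
open Pool.Agent.H4O (box mon prs qq)
open Pool.Agent.H48P (jac chi)
open Pool.Agent.MP_f0209c_nt.FF (mu ev MM HH AA)

theorem maj_lt {k : Type} [Field k] {N : ℕ} {a : k[X]} : a.degree < N ↔ a = 0 ∨ a.natDegree < N := by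
  by_cases h : a = 0
  · simp [h]
  · rw [← natDegree_lt_iff_degree_lt h]
    simp [h]

theorem maj_row {k : Type} [Field k] [Fintype k] {p : ℕ} [Fact p.Prime] [CharP k p] : MAJ_s k p := by
  intro χ κ l e hka hc0
  have hbox : ∀ n (f : k[X]), f ∈ box k n ↔ f.degree < n := fun _ _ => Pool.Agent.H4O.mem_box
  have hc : Fintype.card k ^ (κ + 1) < Fintype.card k ^ (e + 1) *
      ((box k (κ + 1)).filter fun g => ∀ s ∈ box k l, χ (g * s ^ p) = 1).card := by
    unfold qq at hc0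
    exact_mod_cast hc0
  set H := (box k (κ + 1)).filter fun g => ∀ s ∈ box k l, χ (g * s ^ p) = 1 with hH
  have bsub : ∀ {N : ℕ} {a b : k[X]}, a ∈ box k N → b ∈ box k N → a - b ∈ box k N := by
    intro N a b ha hb
    rw [hbox] at *
    exact lt_of_le_of_lt (degree_sub_le a b) (max_lt ha hb)
  have hsub : ∀ x ∈ H, ∀ y ∈ H, x - y ∈ H := by
    intro x hx y hy
    rw [hH, mem_filter] at hx hy ⊢
    refine ⟨bsub hx.1 hy.1, fun s hs => ?_⟩
    rw [sub_mul, AddChar.map_sub_eq_div, hx.2 s hs, hy.2 s hs, div_one]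
  have one : ∀ t : ℕ, ∃ a : k[X], a ≠ 0 ∧ a.natDegree ≤ e ∧ (t < p → X ^ t * a ^ p ∈ H) := by
    intro t
    by_cases ht : t < p
    swap
    · exact ⟨1, one_ne_zero, by simp, fun h => absurd h ht⟩
    have hc' : (box k (κ + 1)).card < (box k (e + 1) ×ˢ H).card := by
      rw [card_product, H4Lev.card_box _ _ (hbox _), H4Lev.card_box _ _ (hbox _)]
      exact hc
    obtain ⟨x, hx, y, hy, hne, hxy⟩ := Finset.exists_ne_map_eq_of_card_lt_of_maps_to hc'
      (f := fun z : k[X] × k[X] => X ^ t * z.1 ^ p + z.2) (fun z hz => by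
        have hz' := mem_product.mp (mem_coe.mp hz)
        have h2 := (hbox _ _).1 (mem_filter.1 hz'.2).1
        refine mem_coe.mpr ((hbox _ _).2 (lt_of_le_of_lt (degree_add_le _ _) (max_lt ?_ h2)))
        rcases maj_lt.1 ((hbox _ _).1 hz'.1) with h | h
        · rw [h, zero_pow (Fact.out : p.Prime).ne_zero, mul_zero]; exact WithBot.bot_lt_coe _
        · refine maj_lt.2 (Or.inr ?_)
          have h3 := natDegree_mul_le (p := (X : k[X]) ^ t) (q := z.1 ^ p)
          rw [natDegree_X_pow, natDegree_pow] at h3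
          have h4 := Nat.mul_le_mul_left p (Nat.lt_succ_iff.1 h)
          rw [mul_add, mul_one] at hka
          omega)
    rw [mem_product] at hx hy
    have h0 : x.1 - y.1 ≠ 0 := fun h0 => hne (by
      have h1 : x.1 = y.1 := sub_eq_zero.mp h0
      rw [h1] at hxy
      exact Prod.ext h1 (add_left_cancel hxy))
    refine ⟨x.1 - y.1, h0, ?_, fun _ => ?_⟩
    · exact Nat.lt_succ_iff.1 ((maj_lt.1 ((hbox _ _).1 (bsub hx.1 hy.1))).resolve_left h0)
    · have h1 : X ^ t * (x.1 - y.1) ^ p = y.2 - x.2 := by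
        rw [sub_pow_char]
        linear_combination hxy
      rw [h1]
      exact hsub _ hy.2 _ hx.2
  choose a a0 ad aH using one
  have A0 : ∏ t ∈ range p, a t ≠ 0 := prod_ne_zero_iff.2 fun t _ => a0 t
  set E := (∏ t ∈ range p, a t) * C (∏ t ∈ range p, a t).leadingCoeff⁻¹ with hE
  have Em : E.Monic := monic_mul_leadingCoeff_inv A0
  have Ed : E.natDegree ≤ p * e := by
    refine (natDegree_mul_C_le _ _).trans ((natDegree_prod_le _ _).trans ?_)
    refine (sum_le_sum fun t _ => ad t).trans ?_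
    simp
  refine ⟨E, Em, Ed, fun v hv => ?_⟩
  obtain ⟨u, hu, rfl⟩ := Pool.Agent.H4O.vand_split p _ v ((hbox _ _).1 hv)
  rw [mul_sum]
  refine Finset.sum_induction _ (fun x => χ x = 1) (fun x y hx hy => ?_) (AddChar.map_zero_eq_one χ)
    fun t ht => ?_
  · rw [AddChar.map_add_eq_mul, hx, hy, one_mul]
  obtain ⟨b, hb⟩ : a t ∣ E := (dvd_prod_of_mem a ht).mul_right _
  have b0 : b ≠ 0 := fun h => Em.ne_zero (by rw [hb, h, mul_zero])
  have bd : b.natDegree ≤ p * e := by
    have := natDegree_mul (a0 t) b0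
    rw [← hb] at this
    omega
  have h1 := (mem_filter.1 (aH t (mem_range.1 ht))).2 (b * u t) ((hbox _ _).2 (by
    rcases maj_lt.1 (hu t) with h | h
    · rw [h, mul_zero]; exact WithBot.bot_lt_coe _
    · have := natDegree_mul_le (p := b) (q := u t)
      exact maj_lt.2 (Or.inr (by omega))))
  rw [← h1, hb]
  congr 1
  ring

end H18F

end
end

-- part Fm
section

set_option autoImplicit false

open Polynomial Finset Filter
open scoped Classical BigOperators

noncomputable section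
namespace H18F
open Pool.Agent.H4O (box mon prs qq)
open Pool.Agent.H48P (jac chi)
open Pool.Agent.MP_f0209c_nt.FF (mu ev MM HH AA)

theorem fm_lt {k : Type} [Field k] {N : ℕ} {a : k[X]} : a.degree < N ↔ a = 0 ∨ a.natDegree < N := by
  by_cases h : a = 0
  · simp [h]
  · rw [← natDegree_lt_iff_degree_lt h]
    simp [h]

theorem fm_row {k : Type} [Field k] [Fintype k] {p : ℕ} [Fact p.Prime] [CharP k p]
    (h : MAJ_s k p) : FM_s k p := by
  intro N κ l e I F M B hka hN hl hI hinv hM hB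
  have hbox : ∀ n (f : k[X]), f ∈ box k n ↔ f.degree < n := fun _ _ => Pool.Agent.H4O.mem_box
  have p0 := (Fact.out : p.Prime).pos
  set W : Submodule k k[X] := degreeLT k N with hW
  have hmem : ∀ x : k[X], x ∈ box k N ↔ x ∈ W := fun x => by rw [hW, mem_degreeLT, hbox]
  let _ : Fintype W := Fintype.subtype (box k N) hmem
  obtain ⟨π, hπ⟩ := LinearMap.exists_leftInverse_of_injective W.subtype W.ker_subtype
  have hπ' : ∀ y ∈ box k N, ((π y : W) : k[X]) = y := by
    intro y hy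
    have := LinearMap.congr_fun hπ ⟨y, (hmem y).mp hy⟩
    exact congrArg Subtype.val this
  have hq : (0 : ℝ) < qq k := by unfold qq; exact_mod_cast Fintype.card_pos
  have hcb : ∀ n, ((box k n).card : ℝ) = qq k ^ n := Pool.Agent.H4O.card_box
  have hcard : (Fintype.card W : ℝ) = (box k N).card := by
    rw [Fintype.card_of_subtype (box k N) hmem]
  have z0 : ∀ n, (0 : k[X]) ∈ box k n := fun n => (hbox _ _).2 (WithBot.bot_lt_coe _)
  have hU : ∀ g ∈ I, ∀ s ∈ box k l, g * s ^ p ∈ box k N := by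
    intro g hg s hs
    rcases fm_lt.1 ((hbox _ _).1 hs) with h | h
    · rw [h, zero_pow p0.ne', mul_zero]; exact z0 _
    rcases fm_lt.1 ((hbox _ _).1 (hI hg)) with h' | h'
    · rw [h', zero_mul]; exact z0 _
    have h3 := natDegree_mul_le (p := g) (q := s ^ p)
    rw [natDegree_pow] at h3
    have h4 := Nat.mul_lt_mul_of_pos_left h p0
    exact (hbox _ _).2 (fm_lt.2 (Or.inr (by omega)))
  have hD : ∀ d ∈ (box k (p * e + 1)).filter Monic, d.Monic ∧ d.natDegree ≤ p * e := by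
    intro d hd
    have h := mem_filter.1 hd
    exact ⟨h.2, Nat.lt_succ_iff.1 ((fm_lt.1 ((hbox _ _).1 h.1)).resolve_left h.2.ne_zero)⟩
  have hL : ∀ d ∈ (box k (p * e + 1)).filter Monic, ∀ v ∈ box k (p * (l - p * e)), d ^ p * v ∈ box k N := by
    intro d hd v hv
    rcases fm_lt.1 ((hbox _ _).1 hv) with h | h
    · rw [h, mul_zero]; exact z0 _
    have h3 := natDegree_mul_le (p := d ^ p) (q := v)
    rw [natDegree_pow] at h3
    have h4 := Nat.mul_le_mul_left p (hD d hd).2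
    have h5 : p * (p * e) + p * (l - p * e) = p * l := by rw [← mul_add, Nat.add_sub_cancel' hl]
    exact (hbox _ _).2 (fm_lt.2 (Or.inr (by omega)))
  have main := fou27 (G := W) I (box k l) ((box k (p * e + 1)).filter Monic) (box k (p * (l - p * e)))
    (fun g x => (F g x : ℂ)) (fun g s => π (g * s ^ p)) (fun d v => π (d ^ p * v))
    (qq k ^ κ / qq k ^ e) M (fun _ => I.card * B)
    (by positivity) ⟨0, z0 _⟩
    (fun g hg s hs x => by
      rw [Submodule.coe_add, hπ' _ (hU g hg s hs), hinv g hg s hs x ((hmem _).mpr x.2)])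
    (fun g hg x => by
      rw [Complex.norm_real, Real.norm_eq_abs]; exact hM g hg x ((hmem _).mpr x.2))
    (fun ψ => by
      by_cases hc : qq k ^ (κ + 1) < qq k ^ (e + 1) * (#{g ∈ box k (κ + 1) | ∀ s ∈ box k l,
            ψ.compAddMonoidHom π.toAddMonoidHom (g * s ^ p) = 1} : ℝ)
      · obtain ⟨d, hd, hd', hv⟩ := h _ κ l e hka hc
        exact Or.inr ⟨d, mem_filter.2 ⟨(hbox _ _).2 (fm_lt.2 (Or.inr (by omega))), hd⟩, hv⟩
      · left
        have h1 : (#{g ∈ I | ∀ s ∈ box k l, ψ (π (g * s ^ p)) = 1} : ℝ) ≤ #{g ∈ box k (κ + 1) |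
            ∀ s ∈ box k l, ψ.compAddMonoidHom π.toAddMonoidHom (g * s ^ p) = 1} := by
          exact_mod_cast card_le_card fun g hg => by
            rw [mem_filter] at hg ⊢
            exact ⟨hI hg.1, hg.2⟩
        have h2 := (mul_le_mul_of_nonneg_left h1 (by positivity)).trans (not_lt.mp hc)
        rw [pow_succ, pow_succ, mul_right_comm] at h2
        rw [le_div_iff₀ (by positivity), mul_comm]
        exact le_of_mul_le_mul_right h2 hq)
    (fun d hd x => by
      have e1 : ∑ v ∈ box k (p * (l - p * e)), ∑ g ∈ I, (F g ((x + π (d ^ p * v) : W) : k[X]) : ℂ) =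
          ((∑ g ∈ I, ∑ v ∈ box k (p * (l - p * e)), F g (x + d ^ p * v) : ℝ) : ℂ) := by
        rw [sum_comm]
        push_cast
        refine sum_congr rfl fun g _ => sum_congr rfl fun v hv => ?_
        rw [hπ' _ (hL d hd v hv)]
      rw [e1, Complex.norm_real, Real.norm_eq_abs]
      refine (abs_sum_le_sum_abs _ _).trans ?_
      rw [mul_assoc, ← nsmul_eq_mul]
      refine sum_le_card_nsmul _ _ _ fun g hg => ?_
      have h1 := hB d (hD d hd).1 (hD d hd).2 g hg x ((hmem _).mpr x.2)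
      rwa [expect_eq_sum_div_card, abs_div, Nat.abs_cast,
        div_le_iff₀ (by rw [hcb]; positivity)] at h1)
  simp only [← Complex.ofReal_sum, Complex.norm_real, Real.norm_eq_abs, sq_abs] at main
  rw [← Finset.sum_subtype (p := fun x => x ∈ W) (box k N) hmem (fun x => (∑ g ∈ I, F g x) ^ 2), hcard,
    sum_const, nsmul_eq_mul] at main
  have hN0 : (0 : ℝ) < (box k N).card := by rw [hcb]; positivity
  have hDc : (((box k (p * e + 1)).filter Monic).card : ℝ) ≤ qq k ^ (p * e + 1) := by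
    rw [← hcb]; exact_mod_cast card_filter_le _ _
  rw [expect_eq_sum_div_card, div_le_iff₀ hN0, mul_comm _ (#(box k N) : ℝ)]
  exact main.trans (mul_le_mul_of_nonneg_left
    (add_le_add_right (mul_le_mul_of_nonneg_right hDc (sq_nonneg _)) _) hN0.le)

end H18F

end
end

-- part Lln
section

set_option autoImplicit false

open Polynomial Finset Filter
open scoped Classical BigOperators

noncomputable section
namespace H18F
open Pool.Agent.H4O (box mon prs qq)
open Pool.Agent.H48P (jac chi)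
open Pool.Agent.MP_f0209c_nt.FF (mu ev MM HH AA)

theorem lln_row {k : Type} [Field k] [Fintype k] {p : ℕ} [Fact p.Prime] [CharP k p]
    (h₁ : FM_s k p) (h₂ : LEV_s k p) (h₃ : WT_s k) : LLN_s k p := by
  intro R r u n l T h al kk y a b H e hP e1 e2 c f P I c0 hf hPe hI hIc
  obtain ⟨-, p1, p2, -, -, -, -, p3, p4, p5, p6, p7, p8, p9, -, -, -, u1⟩ := hP
  have hq : (1 : ℝ) ≤ qq k := by unfold qq; exact_mod_cast Fintype.card_pos
  have pp := (Fact.out : p.Prime).two_le
  obtain ⟨Pm, -, Pd⟩ := Pool.Agent.H4O.mem_prs.1 hPe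
  have gI : ∀ g ∈ I, g ≠ 0 ∧ g.natDegree = p * (6 * u + 1) := fun g hg =>
    ⟨(Pool.Agent.H4O.mem_prs.1 (hI hg)).1.ne_zero, (Pool.Agent.H4O.mem_prs.1 (hI hg)).2.2⟩
  have hl : p * (6 * u) ≤ l := by
    by_contra hh
    rw [Nat.sub_eq_zero_of_le (not_le.1 hh).le, mul_zero] at p5
    have := Nat.mul_pos (by omega : 0 < p) (by omega : 0 < a + b + 1)
    omega
  obtain ⟨w1, w2, -⟩ := h₃ R y (2 * n) (by omega)
  have r0 : 0 ≤ ro k R y := prod_nonneg fun _ _ => by positivity
  have n1 : (1 : ℝ) ≤ n := by exact_mod_cast (by omega : 1 ≤ n)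
  have M1 : (1 : ℝ) ≤ (2 * n : ℝ) ^ R := one_le_pow₀ (by linarith)
  have hu : ∀ s : k[X], derivative (s ^ p) = 0 := fun s => by
    rw [derivative_pow, CharP.cast_eq_zero k p, C_0]; simp
  have main := h₁ (n - e - 1) (p * (6 * u + 1)) l (6 * u) I
    (fun g z => wt R y (wronskian (f + C c * P * z) (C c * P * g)) - ro k R y) ((2 * n : ℝ) ^ R)
    (2 / qq k ^ H) (by omega) (by omega) hl
    (fun g hg => Pool.Agent.H4O.mem_box.2 (by
      rw [degree_eq_natDegree (gI g hg).1, (gI g hg).2]; exact_mod_cast Nat.lt_succ_self _))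
    (fun g _ s _ z _ => by
      have e : wronskian (f + C c * P * (z + g * s ^ p)) (C c * P * g) =
          wronskian (f + C c * P * z) (C c * P * g) := by
        simp only [wronskian, derivative_add, derivative_mul, derivative_C, hu]
        ring
      simp only [e])
    (fun g hg z hz => by
      have b0 := natDegree_C_mul_le c P
      have b1 : (f + C c * P * z).natDegree ≤ n := by
        refine (natDegree_add_le _ _).trans (max_le hf ?_)
        by_cases z0 : z = 0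
        · rw [z0]; simp
        · have := (natDegree_lt_iff_degree_lt z0).2 (Pool.Agent.H4O.mem_box.1 hz)
          have := natDegree_mul_le (p := C c * P) (q := z)
          omega
      have b2 := natDegree_mul_le (p := C c * P) (q := g)
      have b3 := (gI g hg).2
      have b4 : (wronskian (f + C c * P * z) (C c * P * g)).natDegree ≤ 2 * n := by
        by_cases h0 : wronskian (f + C c * P * z) (C c * P * g) = 0
        · rw [h0]; simp
        · have := natDegree_wronskian_lt_add h0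
          omega
      have b5 := w1 _ b4
      push_cast at b5
      rw [abs_le]
      constructor <;> linarith [b5.1, b5.2])
    (fun E Em Ed g hg z _ => by
      have e : ∀ v, f + C c * P * (z + E ^ p * v) = f + C c * P * z + C c * P * (E ^ p * v) :=
        fun v => by ring
      have b3 := (gI g hg).2
      simp only [e]
      rw [expect_sub_distrib, expect_const ⟨0, Pool.Agent.H4O.mem_box.2 (WithBot.bot_lt_coe _)⟩]
      exact h₂ c _ P g E R y _ a b H c0 Pm.ne_zero (gI g hg).1 Em.ne_zero (by omega) (by rwa [b3]) p6 p7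
        (by rwa [b3]))
  have cs := expect_mul_sq_le_sq_mul_sq (box k (n - e - 1)) (fun z => |∑ g ∈ I,
    (wt R y (wronskian (f + C c * P * z) (C c * P * g)) - ro k R y)|) fun _ => (1 : ℝ)
  simp only [mul_one, one_pow, sq_abs] at cs
  rw [expect_const ⟨0, Pool.Agent.H4O.mem_box.2 (WithBot.bot_lt_coe _)⟩, mul_one] at cs
  refine abs_le_of_sq_le_sq' (cs.trans (main.trans ?_)) (by positivity) |>.2
  set M := (2 * n : ℝ) ^ R
  have x0 : (0 : ℝ) < qq k ^ (3 * u) := by positivity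
  have t1 : qq k ^ (p * (6 * u + 1)) / qq k ^ (6 * u) * #I * M ^ 2 ≤
      (#I * (4 * n * M / qq k ^ (3 * u))) ^ 2 := by
    have : 4 * n * (#I : ℝ) ≤ (4 * n) ^ 2 * #I := by gcongr; nlinarith
    calc _ ≤ (4 * n) ^ 2 * #I / qq k ^ (6 * u) * #I * M ^ 2 := by gcongr; exact hIc.trans this
      _ = _ := by rw [show 6 * u = 3 * u * 2 by ring, pow_mul]; field_simp
  have t2 : qq k ^ (p * (6 * u) + 1) * (#I * (2 / qq k ^ H)) ^ 2 ≤
      (#I * (2 * qq k / qq k ^ (3 * u))) ^ 2 := by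
    have h6 := Nat.mul_le_mul_right (6 * u) pp
    have : qq k ^ (p * (6 * u) + 1) * (qq k ^ (3 * u)) ^ 2 ≤ qq k ^ 2 * (qq k ^ H) ^ 2 := by
      rw [← pow_mul, ← pow_mul, ← pow_add, ← pow_add]
      exact pow_le_pow_right₀ hq (by omega)
    calc _ = (#I * 2) ^ 2 * (qq k ^ (p * (6 * u) + 1) / (qq k ^ H) ^ 2) := by field_simp
      _ ≤ (#I * 2) ^ 2 * (qq k ^ 2 / (qq k ^ (3 * u)) ^ 2) := by
          gcongr ?_ * ?_
          rwa [div_le_div_iff₀ (by positivity) (by positivity)]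
      _ = _ := by field_simp
  have t3 : 0 ≤ (#I * (4 * n * M / qq k ^ (3 * u))) * (#I * (2 * qq k / qq k ^ (3 * u))) := by positivity
  rw [add_div, mul_add (#I : ℝ), add_sq, mul_assoc 2]
  linarith

end H18F

end
end

-- part Cs
section

set_option autoImplicit false

open Polynomial Finset Filter
open scoped Classical BigOperators

noncomputable section
namespace H18F
open Pool.Agent.H4O (box mon prs qq)
open Pool.Agent.H48P (jac chi)
open Pool.Agent.MP_f0209c_nt.FF (mu ev MM HH AA)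

theorem cs_one {Z J : Type} {S : Finset Z} {Q : Finset J} {α : Z → ℝ} {v : J → Z → ℝ} {M ε : ℝ}
    (hS : S.Nonempty) (hε : 0 ≤ ε) (hα : ∀ z ∈ S, |α z| ≤ 1)
    (hv : ∀ P ∈ Q, ∀ z ∈ S, |v P z| ≤ M)
    (ho : ∀ P₁ ∈ Q, ∀ P₂ ∈ Q, P₁ ≠ P₂ → |𝔼 z ∈ S, v P₁ z * v P₂ z| ≤ ε) :
    |𝔼 z ∈ S, α z * ∑ P ∈ Q, v P z| ≤ √(#Q * M ^ 2 + (#Q : ℝ) ^ 2 * ε) := by
  refine Real.abs_le_sqrt ?_
  have h1 := Finset.expect_mul_sq_le_sq_mul_sq S α fun z => ∑ P ∈ Q, v P z
  have h2 : 𝔼 z ∈ S, α z ^ 2 ≤ 1 :=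
    Finset.expect_le hS fun z hz => (sq_le_one_iff_abs_le_one _).2 (hα z hz)
  have h3 : 0 ≤ 𝔼 z ∈ S, (∑ P ∈ Q, v P z) ^ 2 := Finset.expect_nonneg fun z _ => sq_nonneg _
  have h4 : 𝔼 z ∈ S, (∑ P ∈ Q, v P z) ^ 2 = ∑ P₁ ∈ Q, ∑ P₂ ∈ Q, 𝔼 z ∈ S, v P₁ z * v P₂ z := by
    rw [Finset.expect_congr rfl fun z _ => by rw [sq, Finset.sum_mul_sum], Finset.expect_sum_comm]
    exact Finset.sum_congr rfl fun P₁ _ => Finset.expect_sum_comm _ _ _
  have h5 : ∀ P₁ ∈ Q, ∑ P₂ ∈ Q, 𝔼 z ∈ S, v P₁ z * v P₂ z ≤ M ^ 2 + #Q * ε := by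
    intro P₁ h₁
    have a1 : 𝔼 z ∈ S, v P₁ z * v P₁ z ≤ M ^ 2 := Finset.expect_le hS fun z hz => by
      rw [← sq, ← sq_abs]
      exact pow_le_pow_left₀ (abs_nonneg _) (hv P₁ h₁ z hz) 2
    have a2 : ∑ P₂ ∈ Q.erase P₁, 𝔼 z ∈ S, v P₁ z * v P₂ z ≤ ∑ _P₂ ∈ Q.erase P₁, ε :=
      Finset.sum_le_sum fun P₂ h₂ => (le_abs_self _).trans
        (ho P₁ h₁ P₂ (Finset.mem_of_mem_erase h₂) (Finset.ne_of_mem_erase h₂).symm)
    have a3 : ∑ _P₂ ∈ Q.erase P₁, ε ≤ ∑ _P₂ ∈ Q, ε :=
      Finset.sum_le_sum_of_subset_of_nonneg (Finset.erase_subset _ _) fun _ _ _ => hε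
    rw [Finset.sum_const (s := Q), nsmul_eq_mul] at a3
    rw [← Finset.add_sum_erase Q _ h₁]
    linarith
  have h6 := Finset.sum_le_sum h5
  rw [Finset.sum_const, nsmul_eq_mul, ← h4] at h6
  have h7 := mul_le_mul_of_nonneg_right h2 h3
  nlinarith

theorem cs_row : CS_s := by
  intro Z J I S Q G α Γ w ρ Γm wm ε₁ ε₂ hS hG hρ hε hα hΓ hw h₁ h₂
  have hG' : (0 : ℝ) < #G := by exact_mod_cast hG.card_pos
  obtain ⟨z₀, hz₀⟩ := id hS
  have e1 : ∀ z, #G * ρ * (α z * ∑ P ∈ Q, Γ P z) =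
      ∑ g ∈ G, α z * ∑ P ∈ Q, w g P z * Γ P z -
        ∑ P ∈ Q, α z * Γ P z * ∑ g ∈ G, (w g P z - ρ) := by
    intro z
    rw [← Finset.mul_sum G, Finset.sum_comm, Finset.mul_sum Q, Finset.mul_sum Q, Finset.mul_sum Q,
      ← Finset.sum_sub_distrib]
    refine Finset.sum_congr rfl fun P _ => ?_
    rw [← Finset.sum_mul, Finset.sum_sub_distrib, Finset.sum_const, nsmul_eq_mul]
    ring
  have e2 : #G * ρ * (𝔼 z ∈ S, α z * ∑ P ∈ Q, Γ P z) =
      ∑ g ∈ G, 𝔼 z ∈ S, α z * ∑ P ∈ Q, w g P z * Γ P z -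
        ∑ P ∈ Q, 𝔼 z ∈ S, α z * Γ P z * ∑ g ∈ G, (w g P z - ρ) := by
    rw [Finset.mul_expect, Finset.expect_congr rfl fun z _ => e1 z, Finset.expect_sub_distrib,
      Finset.expect_sum_comm, Finset.expect_sum_comm]
  have b1 : ∀ g ∈ G, |𝔼 z ∈ S, α z * ∑ P ∈ Q, w g P z * Γ P z| ≤
      √(#Q * (wm * Γm) ^ 2 + (#Q : ℝ) ^ 2 * ε₂) := fun g hg =>
    cs_one (v := fun P z => w g P z * Γ P z) hS hε hα (fun P hP z hz => by
      rw [abs_mul]
      exact mul_le_mul (hw g hg P hP z hz) (hΓ P hP z hz) (abs_nonneg _)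
        ((abs_nonneg _).trans (hw g hg P hP z hz))) (h₂ g hg)
  have b2 : ∀ P ∈ Q, |𝔼 z ∈ S, α z * Γ P z * ∑ g ∈ G, (w g P z - ρ)| ≤ Γm * (#G * ε₁) := by
    intro P hP
    have h0 : 0 ≤ Γm := (abs_nonneg _).trans (hΓ P hP z₀ hz₀)
    refine (Finset.abs_expect_le _ _).trans
      (le_trans ?_ (mul_le_mul_of_nonneg_left (h₁ P hP) h0))
    rw [Finset.mul_expect]
    refine Finset.expect_le_expect fun z hz => ?_
    rw [abs_mul, abs_mul]
    refine mul_le_mul_of_nonneg_right ?_ (abs_nonneg _)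
    exact (mul_le_mul (hα z hz) (hΓ P hP z hz) (abs_nonneg _) zero_le_one).trans (one_mul _).le
  have c1 := (Finset.abs_sum_le_sum_abs _ _).trans (Finset.sum_le_sum b1)
  have c2 := (Finset.abs_sum_le_sum_abs _ _).trans (Finset.sum_le_sum b2)
  rw [Finset.sum_const, nsmul_eq_mul] at c1 c2
  have c3 := abs_sub (∑ g ∈ G, 𝔼 z ∈ S, α z * ∑ P ∈ Q, w g P z * Γ P z)
    (∑ P ∈ Q, 𝔼 z ∈ S, α z * Γ P z * ∑ g ∈ G, (w g P z - ρ))
  rw [← e2, abs_mul, abs_of_pos (mul_pos hG' hρ)] at c3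
  refine le_of_mul_le_mul_left ?_ hG'
  nlinarith

end H18F

end
end

-- part Cos
section

set_option autoImplicit false

open Polynomial Finset Filter
open scoped Classical BigOperators

noncomputable section
namespace H18F
open Pool.Agent.H4O (box mon prs qq)
open Pool.Agent.H48P (jac chi)
open Pool.Agent.MP_f0209c_nt.FF (mu ev MM HH AA)

theorem cos_num {q x y n W K cQ cE : ℝ} (hq : 0 ≤ q) (hx : 1 ≤ x) (hy : x ^ 6 ≤ y) (hn : 0 ≤ n)
    (hW : 0 ≤ W) (hK : 1 ≤ K) (hQ0 : 0 ≤ cQ) (hQ : cQ ≤ y) (hE0 : 0 ≤ cE) (hE : cE ≤ x ^ 12 * q) :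
    cQ * n * ((4 * n * W + 2 * q) / x ^ 3) +
        √(cQ * (W * n) ^ 2 + cQ ^ 2 * (cE ^ 2 * (W ^ 2 * (K / x ^ 40)))) ≤
      y * ((4 * n * W + 2 * q) * n + W * n + W * q * K) / x ^ 3 := by
  have hx0 : 0 < x := by linarith
  have hy0 : 0 ≤ y := hQ0.trans hQ
  have hK0 : 0 ≤ K := by linarith
  have a1 : cQ ≤ (y / x ^ 3) ^ 2 := by
    rw [div_pow, ← pow_mul, le_div_iff₀ (by positivity), sq]
    exact mul_le_mul hQ hy (by positivity) hy0
  have a2 : cQ * (W * n) ^ 2 ≤ (y / x ^ 3 * (W * n)) ^ 2 := by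
    rw [mul_pow (y / x ^ 3)]
    exact mul_le_mul_of_nonneg_right a1 (sq_nonneg _)
  have a3 : cE ^ 2 * (K / x ^ 40) ≤ (q * K / x ^ 3) ^ 2 := by
    have b1 : cE ^ 2 ≤ (x ^ 12 * q) ^ 2 := pow_le_pow_left₀ hE0 hE 2
    have b2 : K / x ^ 40 ≤ K ^ 2 / x ^ 30 :=
      div_le_div₀ (sq_nonneg _) (by nlinarith) (by positivity) (pow_le_pow_right₀ hx (by norm_num))
    refine (mul_le_mul b1 b2 (by positivity) (sq_nonneg _)).trans (le_of_eq ?_)
    field_simp
  have a4 : cQ ^ 2 * (cE ^ 2 * (W ^ 2 * (K / x ^ 40))) ≤ (y * W * (q * K / x ^ 3)) ^ 2 := by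
    have b1 : cQ ^ 2 ≤ y ^ 2 := pow_le_pow_left₀ hQ0 hQ 2
    have b2 := mul_le_mul b1 (mul_le_mul_of_nonneg_left a3 (sq_nonneg W)) (by positivity)
      (sq_nonneg y)
    calc _ = cQ ^ 2 * (W ^ 2 * (cE ^ 2 * (K / x ^ 40))) := by ring
      _ ≤ _ := b2
      _ = _ := by ring
  have p1 : 0 ≤ y / x ^ 3 * (W * n) := by positivity
  have p2 : 0 ≤ y * W * (q * K / x ^ 3) := by positivity
  have a5 : √(cQ * (W * n) ^ 2 + cQ ^ 2 * (cE ^ 2 * (W ^ 2 * (K / x ^ 40)))) ≤
      y / x ^ 3 * (W * n) + y * W * (q * K / x ^ 3) :=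
    Real.sqrt_le_iff.2 ⟨add_nonneg p1 p2, by nlinarith [mul_nonneg p1 p2]⟩
  have a6 : cQ * n * ((4 * n * W + 2 * q) / x ^ 3) ≤ y * n * ((4 * n * W + 2 * q) / x ^ 3) :=
    mul_le_mul_of_nonneg_right (mul_le_mul_of_nonneg_right hQ hn) (by positivity)
  refine (add_le_add a6 a5).trans (le_of_eq ?_)
  ring

theorem cos_wr {k : Type} [Field k] (a b : k[X]) :
    (wronskian a b).natDegree ≤ a.natDegree + b.natDegree := by
  unfold wronskian
  refine (natDegree_sub_le _ _).trans (max_le (natDegree_mul_le.trans ?_) (natDegree_mul_le.trans ?_))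
  · have := natDegree_derivative_le b
    omega
  · have := natDegree_derivative_le a
    omega

theorem cos_deg {k : Type} [Field k] [Fintype k] {n e n₁ : ℕ} (h : n ≤ n₁ + 1) (he : e + 2 ≤ n)
    (c : k) {P z : k[X]} (hP : P ∈ prs k e) (hz : z ∈ box k (n - e - 1)) :
    (C c * P * z).degree < n₁ := by
  by_cases h0 : C c * P * z = 0
  · rw [h0, degree_zero]
    exact WithBot.bot_lt_coe _
  · have hz0 : z ≠ 0 := right_ne_zero_of_mul h0
    have h1 : z.natDegree < n - e - 1 :=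
      (natDegree_lt_iff_degree_lt hz0).2 (Pool.Agent.H4O.mem_box.1 hz)
    have h2 : (C c * P * z).natDegree ≤ (C c * P).natDegree + z.natDegree := natDegree_mul_le
    have h3 : (C c * P).natDegree ≤ P.natDegree := natDegree_C_mul_le _ _
    have h4 := (Pool.Agent.H4O.mem_prs.1 hP).2.2
    refine (natDegree_lt_iff_degree_lt h0).1 ?_
    omega

theorem cos_row {k : Type} [Field k] [Fintype k] {p : ℕ} [Fact p.Prime] (h₁ : CS_s) (h₂ : LLN_s k p)
    (h₃ : PAIR_s k p) (h₄ : WT_s k) : COS_s k p := by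
  intro R r u n l T h al kk y a b H e n₁ hPar he₁ he₂ hn₁ hn₂ hnq c ρ m α E hc hρ hρn hα hE hEn
  have hL := h₂ R r u n l T h al kk y a b H e hPar he₁ he₂ c
  have hPr := h₃ R r u n l T h al kk y a b H e n₁ hPar he₁ he₂ hn₁ hn₂ c ρ m
  obtain ⟨-, -, hy, -, -, -, -, -, hκn, -, -, -, -, -, -, -, -, hu⟩ := hPar
  have hp : 2 ≤ p := (Fact.out : p.Prime).two_le
  have hκ : 6 * u + 1 ≤ p * (6 * u + 1) := Nat.le_mul_of_pos_left _ (by omega)
  generalize p * (6 * u + 1) = κ at hL hPr hy hκn hκ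
  have hq : 2 ≤ qq k := Pool.Agent.H4O.two_le_qq
  have hq1 : 1 ≤ qq k := by linarith
  have hn0 : (1 : ℝ) ≤ n := by exact_mod_cast (by omega : 1 ≤ n)
  have hy1 : 1 ≤ y := by omega
  have hro : 0 < ro k R y := by
    have h5 := (h₄ R y (y + R) hy1).2.2 le_rfl
    by_contra h6
    have h7 : (0 : ℝ) ≤ (2 * ((y + R : ℕ) : ℝ)) ^ R := by positivity
    nlinarith [mul_nonneg h7 (neg_nonneg.2 (not_lt.1 h6))]
  set G : Finset k[X] := {g ∈ prs k κ | ¬ g ∣ ρ} with hG
  set Q : Finset k[X] := {P ∈ prs k e | C c * P * m + ρ ∈ mon k n₁} with hQ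
  have hGc : qq k ^ κ ≤ 4 * n * (#G : ℝ) := by
    have b1 := Pool.Agent.H4O.card_prs (k := k) (e := κ) (by omega)
    have b2 : #{g ∈ prs k κ | g ∣ ρ} ≤ ρ.natDegree :=
      Pool.Agent.MP_f0209c_nt.FF.cnt_prs (e := κ) hρ (by omega)
    have b3 : #{g ∈ prs k κ | g ∣ ρ} + #G = #(prs k κ) := Finset.card_filter_add_card_filter_not _
    have b4 : (#(prs k κ) : ℝ) ≤ n + #G := by exact_mod_cast (by omega : #(prs k κ) ≤ n + #G)
    have b5 : (κ : ℝ) ≤ n := by exact_mod_cast (by omega : κ ≤ n)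
    have b6 : qq k ^ u ≤ qq k ^ κ := pow_le_pow_right₀ hq1 (by omega)
    have b7 : (κ : ℝ) * #(prs k κ) ≤ n * (n + #G) :=
      mul_le_mul b5 b4 (Nat.cast_nonneg _) (Nat.cast_nonneg _)
    nlinarith
  have hGn : G.Nonempty := by
    rw [← Finset.card_pos]
    by_contra h5
    rw [Nat.eq_zero_of_not_pos h5, Nat.cast_zero, mul_zero] at hGc
    exact absurd hGc (not_le.2 (by positivity))
  have hadd : ∀ P z : k[X], C c * P * (m + z) + ρ = C c * P * m + ρ + C c * P * z := fun P z => by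
    ring
  have hmon : ∀ P ∈ Q, ∀ z ∈ box k (n - e - 1), C c * P * (m + z) + ρ ∈ mon k n₁ := by
    intro P hP z hz
    rw [hadd]
    exact Pool.Agent.H4O.dec_mem (Finset.mem_filter.1 hP).2
      (cos_deg hn₁ (by omega) c (Finset.mem_filter.1 hP).1 hz)
  have hred : ∀ z ∈ box k (n - e - 1), α z * ∑ P ∈ prs k e, GG n₁ E (C c * P * (m + z) + ρ) =
      α z * ∑ P ∈ Q, GG n₁ E (C c * P * (m + z) + ρ) := by
    intro z hz
    congr 1
    refine (Finset.sum_subset (Finset.filter_subset _ _) fun P hP hn => ?_).symm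
    refine if_neg fun h5 => hn (Finset.mem_filter.2 ⟨hP, ?_⟩)
    have h6 := Pool.Agent.H4O.dec_mem h5 (t := -(C c * P * z))
      (by rw [degree_neg]; exact cos_deg hn₁ (by omega) c hP hz)
    rwa [hadd, add_neg_cancel_right] at h6
  have hK : (1 : ℝ) ≤ 2004 * n * 4 ^ (2 * r + 4) := by
    have : (1 : ℝ) ≤ 4 ^ (2 * r + 4) := one_le_pow₀ (by norm_num)
    nlinarith
  have key := h₁ k[X] k[X] k[X] (box k (n - e - 1)) Q G α
    (fun P z => GG n₁ E (C c * P * (m + z) + ρ))
    (fun g P z => wt R y (wronskian (C c * P * (m + z) + ρ) (C c * P * g))) (ro k R y) n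
    ((2 * n : ℝ) ^ R) ((4 * n * (2 * n : ℝ) ^ R + 2 * qq k) / qq k ^ (3 * u))
    ((#E : ℝ) ^ 2 * (((2 * n : ℝ) ^ R) ^ 2 * (2004 * n * 4 ^ (2 * r + 4) / qq k ^ (40 * u))))
    (Pool.Agent.H4O.box_nonempty _) hGn hro (by positivity) (fun z _ => hα z)
    (fun P hP z hz => by
      have h5 := hmon P hP z hz
      have h6 : 0 ≤ ∑ x' ∈ E, dv x' (C c * P * (m + z) + ρ) :=
        Finset.sum_nonneg fun x' _ => by unfold dv; split_ifs <;> norm_num
      show |GG n₁ E (C c * P * (m + z) + ρ)| ≤ n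
      rw [GG, if_pos h5, abs_mul, abs_of_nonneg h6]
      exact (mul_le_mul (Pool.Agent.MP_f0209c_nt.FF.abs_mu _) (hEn _ h5) h6 zero_le_one).trans
        (one_mul _).le)
    (fun g hg P hP z hz => by
      have h5 := (Pool.Agent.H4O.mem_mon.1 (hmon P hP z hz)).2
      have h6 := cos_wr (C c * P * (m + z) + ρ) (C c * P * g)
      have h7 : (C c * P * g).natDegree ≤ (C c * P).natDegree + g.natDegree := natDegree_mul_le
      have h8 : (C c * P).natDegree ≤ P.natDegree := natDegree_C_mul_le _ _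
      have h9 := (Pool.Agent.H4O.mem_prs.1 (Finset.mem_filter.1 hP).1).2.2
      have h10 := (Pool.Agent.H4O.mem_prs.1 (Finset.mem_filter.1 hg).1).2.2
      have h11 := (h₄ R y (2 * n) hy1).1 (wronskian (C c * P * (m + z) + ρ) (C c * P * g))
        (by omega)
      show |wt R y (wronskian (C c * P * (m + z) + ρ) (C c * P * g))| ≤ _
      rw [abs_of_nonneg h11.1]
      exact_mod_cast h11.2)
    (fun P hP => by
      have h5 := (Pool.Agent.H4O.mem_mon.1 (Finset.mem_filter.1 hP).2).2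
      have h6 := hL (C c * P * m + ρ) P G hc (by omega) (Finset.mem_filter.1 hP).1
        (Finset.filter_subset _ _) hGc
      simpa only [hadd] using h6)
    (fun g hg P₁ hP₁ P₂ hP₂ hne => by
      obtain ⟨g1, g2⟩ := Finset.mem_filter.1 hg
      obtain ⟨p1, p2⟩ := Finset.mem_filter.1 hP₁
      obtain ⟨p3, p4⟩ := Finset.mem_filter.1 hP₂
      have h5 : ∀ z ∈ box k (n - e - 1),
          wt R y (wronskian (C c * P₁ * (m + z) + ρ) (C c * P₁ * g)) *
            GG n₁ E (C c * P₁ * (m + z) + ρ) *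
          (wt R y (wronskian (C c * P₂ * (m + z) + ρ) (C c * P₂ * g)) *
            GG n₁ E (C c * P₂ * (m + z) + ρ)) = ∑ e₁ ∈ E, ∑ e₂ ∈ E,
          wt R y (wronskian (C c * P₁ * (m + z) + ρ) (C c * P₁ * g)) *
            (mu (C c * P₁ * (m + z) + ρ) * dv e₁ (C c * P₁ * (m + z) + ρ)) *
          (wt R y (wronskian (C c * P₂ * (m + z) + ρ) (C c * P₂ * g)) *
            (mu (C c * P₂ * (m + z) + ρ) * dv e₂ (C c * P₂ * (m + z) + ρ))) := by
        intro z hz
        rw [GG, GG, if_pos (hmon P₁ hP₁ z hz), if_pos (hmon P₂ hP₂ z hz), Finset.mul_sum,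
          Finset.mul_sum, Finset.mul_sum, Finset.mul_sum, Finset.sum_mul_sum]
      rw [Finset.expect_congr rfl h5, Finset.expect_sum_comm, sq (#E : ℝ), mul_assoc (#E : ℝ)]
      refine (Finset.abs_sum_le_sum_abs _ _).trans ((Finset.sum_le_card_nsmul _ _ _
        fun e₁ he₁ => ?_).trans (nsmul_eq_mul _ _).le)
      rw [Finset.expect_sum_comm]
      refine (Finset.abs_sum_le_sum_abs _ _).trans ((Finset.sum_le_card_nsmul _ _ _
        fun e₂ he₂ => ?_).trans (nsmul_eq_mul _ _).le)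
      exact hPr P₁ P₂ g e₁ e₂ hc hρ hρn p1 p3 hne g1 g2 p2 p4 (hE e₁ he₁).1 (hE e₂ he₂).1
        (hE e₁ he₁).2 (hE e₂ he₂).2)
  have hQc : (#Q : ℝ) ≤ qq k ^ e := by
    refine le_trans ?_ (Pool.Agent.MP_f0209c_nt.FF.card_prs_le (k := k) e)
    exact_mod_cast Finset.card_filter_le _ _
  have hEc : (#E : ℝ) ≤ (qq k ^ u) ^ 12 * qq k := by
    rw [← pow_mul, ← pow_succ, ← Pool.Agent.H4O.card_box]
    refine Nat.cast_le.2 (Finset.card_le_card fun x hx => Pool.Agent.H4O.mem_box.2 ?_)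
    refine (natDegree_lt_iff_degree_lt (hE x hx).1).1 ?_
    have := (hE x hx).2
    omega
  have fin := cos_num (q := qq k) (x := qq k ^ u) (y := qq k ^ e) (n := n) (W := (2 * n : ℝ) ^ R)
    (by linarith) (one_le_pow₀ hq1) (by rw [← pow_mul]; exact pow_le_pow_right₀ hq1 (by omega))
    (by linarith) (by positivity) hK (Nat.cast_nonneg _) hQc (Nat.cast_nonneg _) hEc
  rw [← pow_mul (qq k), ← pow_mul (qq k), mul_comm u 3, mul_comm u 40] at fin
  rw [Finset.expect_congr rfl hred]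
  exact key.trans fin

end H18F

end
end

-- part Par
section

set_option autoImplicit false

open Polynomial Finset Filter
open scoped Classical BigOperators

noncomputable section
namespace H18F
open Pool.Agent.H4O (box mon prs qq)
open Pool.Agent.H48P (jac chi)
open Pool.Agent.MP_f0209c_nt.FF (mu ev MM HH AA)

theorem par_dg (p y : ℕ) : dg (4 * p) y = p * (4 * y + 2 * (4 * p - 1)) := by
  unfold dg
  have h := Finset.sum_range_id_mul_two (4 * p)
  rw [Finset.sum_add_distrib, Finset.sum_const, Finset.card_range, smul_eq_mul]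
  have h2 : 4 * p * (4 * p - 1) = (p * (2 * (4 * p - 1))) * 2 := by ring
  rw [h2] at h
  have h3 := Nat.eq_of_mul_eq_mul_right (by norm_num : 0 < 2) h
  rw [h3]; ring

theorem par_core (p u m n G : ℕ) (hp : 3 ≤ p) (hu : 1 ≤ u) (hG : G = 2 ^ (2 * (8 * p) + 4))
    (hm : 100 * (p * (p * (p * u))) + 40 * u * G ≤ m) (hn₁ : 200 * (p * (p * m)) ≤ n)
    (hn₂ : n ≤ 200 * (p * (p * m)) + m) :
    Par p (4 * p) (8 * p) u n (200 * (p * m) - m) (120 * (p * m)) (2 * (p * m)) (20 * (p * m))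
      (211 * (p * m)) (50 * (p * m) - 52 * m) (4 * (50 * (p * m) - 52 * m) + 2 * (4 * p - 1))
      (205 * m) (p * (6 * u)) := by
  have hp0 : 0 < p := by omega
  have e1 : 3 * m ≤ p * m := Nat.mul_le_mul_right m hp
  have e2 : 3 * (p * m) ≤ p * (p * m) := Nat.mul_le_mul_right _ hp
  have e3 : 3 * u ≤ p * u := Nat.mul_le_mul_right _ hp
  have e4 : 3 * (p * u) ≤ p * (p * u) := Nat.mul_le_mul_right _ hp
  have e5 : 3 * (p * (p * u)) ≤ p * (p * (p * u)) := Nat.mul_le_mul_right _ hp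
  have e6 : p ≤ p * u := Nat.le_mul_of_pos_right p hu
  have e7 : p * p ≤ p * (p * u) := Nat.mul_le_mul_left p e6
  have e8 : p * (p * p) ≤ p * (p * (p * u)) := Nat.mul_le_mul_left p e7
  have k1 : p * (6 * u + 1) = 6 * (p * u) + p := by ring
  have k2 : p * (6 * u) = 6 * (p * u) := by ring
  have k3 : p * (200 * (p * m) - m) = 200 * (p * (p * m)) - p * m := by
    rw [Nat.mul_sub]; congr 1; ring
  have k4 : p * (200 * (p * m) - m - 6 * (p * u)) =
      200 * (p * (p * m)) - p * m - 6 * (p * (p * u)) := by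
    rw [Nat.mul_sub, k3]; congr 1; ring
  have k5 : p * (4 * (50 * (p * m) - 52 * m) + 2 * (4 * p - 1)) =
      200 * (p * (p * m)) - 208 * (p * m) + (8 * (p * p) - 2 * p) := by
    rw [Nat.mul_add]
    congr 1
    · rw [Nat.mul_sub 4, Nat.mul_sub]; congr 1 <;> ring
    · rw [Nat.mul_sub 2, Nat.mul_sub]; congr 1 <;> ring
  have k6 : (p - 1) * ((p - 1) * (6 * (p * u) + p)) ≤ 6 * (p * (p * (p * u))) + p * (p * p) := by
    calc (p - 1) * ((p - 1) * (6 * (p * u) + p)) ≤ p * (p * (6 * (p * u) + p)) :=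
          Nat.mul_le_mul (Nat.sub_le _ _) (Nat.mul_le_mul_right _ (Nat.sub_le _ _))
      _ = _ := by ring
  have k7 : p * (4 * (50 * (p * m) - 52 * m) + 2 * (4 * p - 1) + 205 * m + 1) ≤
      200 * (p * (p * m)) - 2 * (p * m) := by
    calc p * (4 * (50 * (p * m) - 52 * m) + 2 * (4 * p - 1) + 205 * m + 1)
        ≤ p * (200 * (p * m) - 2 * m) := Nat.mul_le_mul_left p (by omega)
      _ = _ := by rw [Nat.mul_sub]; congr 1 <;> ring
  have k8 : p * (4 * (50 * (p * m) - 52 * m) + 2 * (4 * p - 1) + 1 - 205 * m) + 205 * (p * m) =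
      p * (4 * (50 * (p * m) - 52 * m) + 2 * (4 * p - 1)) + p := by
    have : 205 * (p * m) = p * (205 * m) := by ring
    rw [this, ← Nat.mul_add, Nat.sub_add_cancel (by omega), Nat.mul_add p _ 1, Nat.mul_one]
  have k9 : (p * (200 * (p * m) - m - 6 * (p * u)) + (p - 1) * (6 * (p * u) + p)) / p ≤
      200 * (p * m) - m - 6 * (p * u) + (6 * (p * u) + p) := by
    apply Nat.div_le_of_le_mul
    rw [Nat.mul_add p]
    exact Nat.add_le_add_left (Nat.mul_le_mul_right _ (Nat.sub_le _ _)) _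
  have k10 : 8 * p * (120 * (p * m) + 1) = 960 * (p * (p * m)) + 8 * p := by ring
  have k11 : p ≤ p * p := Nat.le_mul_self p
  unfold Par Num
  rw [par_dg, Nat.mul_div_cancel_left _ hp0, k1, k2, ← hG, k10]
  generalize (p * (200 * (p * m) - m - 6 * (p * u)) + (p - 1) * (6 * (p * u) + p)) / p = D at k9 ⊢
  generalize (p - 1) * ((p - 1) * (6 * (p * u) + p)) = D₂ at k6 ⊢
  generalize p * (4 * (50 * (p * m) - 52 * m) + 2 * (4 * p - 1) + 1 - 205 * m) = D₃ at k8 ⊢
  generalize p * (4 * (50 * (p * m) - 52 * m) + 2 * (4 * p - 1) + 205 * m + 1) = D₄ at k7 ⊢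
  rw [k3, k4, k5]
  rw [k5] at k8
  generalize 40 * u * G = D₅ at hm ⊢
  generalize p * (p * (p * u)) = w₃ at *
  generalize p * (p * u) = w₂ at *
  generalize p * u = w₁ at *
  generalize p * (p * p) = v₃ at *
  generalize p * p = v₂ at *
  generalize p * (p * m) = z at *
  generalize p * m = x at *
  refine ⟨⟨?_, ?_, ?_, ?_, ?_, ?_, ?_, ?_, ?_, ?_, ?_, ?_⟩, ?_, ?_, ?_, ?_, ?_, ?_, ?_, ?_, ?_, ?_,
    ?_, ?_, ?_, ?_, ?_, ?_, ?_⟩ <;> omega

theorem par_row : PAR_s := by
  intro p hp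
  obtain ⟨G, hG⟩ : ∃ G, G = 2 ^ (2 * (8 * p) + 4) := ⟨_, rfl⟩
  have hpp : 9 ≤ p * p := Nat.mul_le_mul hp hp
  have hppp : 3 * (p * p) ≤ p * (p * p) := Nat.mul_le_mul_right _ hp
  refine ⟨(100 * (p * (p * p)) + 40 * G) * (200 * (p * p)), 4 * p, 8 * p, ?_, ?_⟩
  · exact le_trans (by omega) (Nat.le_mul_of_pos_left (200 * (p * p)) (by omega))
  · filter_upwards [eventually_ge_atTop 1] with u hu n hn _
    have hc : 0 < 200 * (p * p) := by omega
    have hm : 100 * (p * (p * (p * u))) + 40 * u * G ≤ n / (200 * (p * p)) := by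
      rw [Nat.le_div_iff_mul_le hc]
      refine le_trans (le_of_eq ?_) hn
      ring
    have h1 := Nat.div_add_mod n (200 * (p * p))
    have h2 := Nat.mod_lt n hc
    have h3 : p * (p * p) ≤ p * (p * (p * u)) :=
      Nat.mul_le_mul_left p (Nat.mul_le_mul_left p (Nat.le_mul_of_pos_right p hu))
    have h4 : 200 * (p * p) * (n / (200 * (p * p))) = 200 * (p * (p * (n / (200 * (p * p))))) := by
      ring
    exact ⟨_, _, _, _, _, _, _, _, _, par_core p u (n / (200 * (p * p))) n G hp hu hG hm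
      (by omega) (by omega)⟩

end H18F

end
end

-- part Poly
section

set_option autoImplicit false

open Polynomial Finset Filter
open scoped Classical BigOperators

noncomputable section
namespace H18F
open Pool.Agent.H4O (box mon prs qq)
open Pool.Agent.H48P (jac chi)
open Pool.Agent.MP_f0209c_nt.FF (mu ev MM HH AA)

theorem poly_row : POLY_s := by
  intro q c A K hq
  have hq1 : (1 : ℝ) < q := by linarith
  have hD : (0 : ℝ) < |c| * (2 * A + 1) ^ K + 1 := by positivity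
  have ht := tendsto_pow_const_div_const_pow_of_one_lt K hq1
  have hev := ht.eventually (gt_mem_nhds (one_div_pos.2 hD))
  filter_upwards [hev, eventually_ge_atTop 1] with u hu hu1 n hn
  have hqu : (0 : ℝ) < q ^ u := by positivity
  have hu1' : (1 : ℝ) ≤ u := by exact_mod_cast hu1
  have hn' : (n : ℝ) ≤ 2 * A * u := by exact_mod_cast hn
  have h1 : (n : ℝ) + 1 ≤ (2 * A + 1) * u := by nlinarith
  have h2 : ((n : ℝ) + 1) ^ K ≤ (2 * A + 1) ^ K * (u : ℝ) ^ K := by
    rw [← mul_pow]; exact pow_le_pow_left₀ (by positivity) h1 K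
  rw [div_lt_div_iff₀ hqu hD, one_mul] at hu
  have h3 : (0 : ℝ) ≤ (u : ℝ) ^ K := by positivity
  calc c * ((n : ℝ) + 1) ^ K ≤ |c| * ((n : ℝ) + 1) ^ K :=
        mul_le_mul_of_nonneg_right (le_abs_self c) (by positivity)
    _ ≤ |c| * ((2 * A + 1) ^ K * (u : ℝ) ^ K) := mul_le_mul_of_nonneg_left h2 (abs_nonneg c)
    _ ≤ (u : ℝ) ^ K * (|c| * (2 * A + 1) ^ K + 1) := by nlinarith
    _ ≤ q ^ u := hu.le

end H18F

end
end

-- part Bil
section

set_option autoImplicit false

open Polynomial Finset Filter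
open scoped Classical BigOperators

noncomputable section
namespace H18F
open Pool.Agent.H4O (box mon prs qq)
open Pool.Agent.H48P (jac chi)
open Pool.Agent.MP_f0209c_nt.FF (mu ev MM HH AA)

theorem bil_split {k : Type} [Field k] [Fintype k] (N : ℕ) (F : k[X] → ℝ) (β : ℝ)
    (h : ∀ m, |𝔼 z ∈ box k N, F (m + z)| ≤ β) :
    |∑ m ∈ mon k (N + 1), F m| ≤ qq k ^ (N + 1) * β := by
  have q0 : (0 : ℝ) < qq k := Pool.Agent.H4O.dec_q
  have e1 : 𝔼 m ∈ mon k (N + 1), F m = 𝔼 z ∈ box k N, 𝔼 m ∈ mon k (N + 1), F (m + z) := by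
    rw [Finset.expect_congr rfl (g := fun _ => 𝔼 m ∈ mon k (N + 1), F m) fun z hz =>
      Pool.Agent.H4O.exp_mon_shift ((Pool.Agent.H4O.mem_box.1 hz).trans
        (by exact_mod_cast Nat.lt_succ_self N)) F,
      Finset.expect_const (Pool.Agent.H4O.box_nonempty N)]
  have e2 : |𝔼 m ∈ mon k (N + 1), F m| ≤ β := by
    rw [e1, Finset.expect_comm, abs_le]
    exact ⟨Finset.le_expect (Pool.Agent.H4O.mon_nonempty _) fun m _ => (abs_le.1 (h m)).1,
      Finset.expect_le (Pool.Agent.H4O.mon_nonempty _) fun m _ => (abs_le.1 (h m)).2⟩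
  rw [Finset.expect_eq_sum_div_card, Pool.Agent.H4O.card_mon, abs_div,
    abs_of_pos (pow_pos q0 _), div_le_iff₀ (pow_pos q0 _), mul_comm] at e2
  exact e2

theorem bil_num (n q g : ℝ) (R : ℕ) (hn : 0 ≤ n) (hq : 0 ≤ q) (hg : 0 ≤ g) :
    (2 * n) ^ R * ((4 * n * (2 * n) ^ R + 2 * q) * n + (2 * n) ^ R * n +
      (2 * n) ^ R * q * (2004 * n * g)) ≤
    (2 ^ R * 2 ^ R * (5 + 2 * q + q * (2004 * g))) * (n + 1) ^ (2 * R + 2) := by
  obtain ⟨W, hW⟩ : ∃ W : ℝ, W = (2 * (n + 1)) ^ R := ⟨_, rfl⟩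
  have h1 : (2 * n) ^ R ≤ W := by rw [hW]; gcongr; linarith
  have h2 : 1 ≤ W := by rw [hW]; exact one_le_pow₀ (by linarith)
  have h0 : 0 ≤ (2 * n) ^ R := by positivity
  have h3 : n ≤ n + 1 := by linarith
  have h4 : n ≤ (n + 1) * (n + 1) := by nlinarith
  have h5 : 2 * q ≤ 2 * q * (W * (n + 1)) :=
    le_mul_of_one_le_right (by positivity) (one_le_mul_of_one_le_of_one_le h2 (by linarith))
  calc _ ≤ W * ((4 * (n + 1) * W + 2 * q * (W * (n + 1))) * (n + 1) + W * ((n + 1) * (n + 1)) +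
        W * q * (2004 * ((n + 1) * (n + 1)) * g)) := by gcongr
    _ = _ := by rw [hW, mul_pow]; ring

theorem bil_row {k : Type} [Field k] [Fintype k] {p A R r : ℕ} (h₁ : COS_s k p) (h₂ : WT_s k)
    (h₃ : POLY_s) (h₄ : ∀ᶠ u : ℕ in atTop, ∀ n : ℕ, A * u ≤ n → n ≤ 2 * A * u →
      ∃ l T h al kk y a b H : ℕ, Par p R r u n l T h al kk y a b H) : BIL_s k A := by
  have q2 := Pool.Agent.H4O.two_le_qq (k := k)
  have q0 : (0 : ℝ) < qq k := by linarith
  filter_upwards [h₄, h₃ (qq k) 4 A 2 q2, h₃ (qq k)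
    (2 ^ R * 2 ^ R * (5 + 2 * qq k + qq k * (2004 * 4 ^ (2 * r + 4)))) A (2 * R + 2) q2]
    with u hP h4 hK n n1 n2 e n₁ e1 e2 m1 m2 c ρ α E hc hρ dρ hα hE hS
  obtain ⟨l, T, h, al, kk, y, a, b, H, hp⟩ := hP n n1 n2
  have hp' := hp
  obtain ⟨⟨t1, -⟩, -, -, t2, -, -, -, -, t3, -, -, -, -, -, -, t4, t5, t6⟩ := hp'
  have n0 : (0 : ℝ) ≤ n := Nat.cast_nonneg n
  have h4' : 4 * (n : ℝ) ^ 2 ≤ qq k ^ u := le_trans (by gcongr; linarith) (h4 n n2)
  have hro := (h₂ R y n (by omega)).2.2 (by omega)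
  obtain ⟨N, hN⟩ : ∃ N, n - e = N + 1 := ⟨n - e - 1, by omega⟩
  have hb := (bil_num n (qq k) (4 ^ (2 * r + 4)) R n0 q0.le (by positivity)).trans (hK n n2)
  rw [hN]
  refine (bil_split N (fun m => α m * ∑ P ∈ prs k e, GG n₁ E (C c * P * m + ρ))
    (qq k ^ e * qq k ^ u / qq k ^ (3 * u)) fun m => ?_).trans (le_of_eq ?_)
  · have h5 := h₁ R r u n l T h al kk y a b H e n₁ hp e1 e2 m1 m2 h4' c ρ m
      (fun z => α (m + z)) E hc hρ dρ (fun x => hα _) hE hS
    rw [hN, Nat.add_sub_cancel] at h5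
    refine (le_mul_of_one_le_left (abs_nonneg _) hro).trans ?_
    rw [mul_assoc]
    refine (mul_le_mul_of_nonneg_left h5 (by positivity)).trans ?_
    rw [← mul_div_assoc, mul_left_comm]
    gcongr
  · have e3 : qq k ^ n = qq k ^ (N + 1) * qq k ^ e := by
      rw [← pow_add]
      congr 1
      omega
    have e4 : qq k ^ (3 * u) = qq k ^ (2 * u) * qq k ^ u := by
      rw [← pow_add]
      congr 1
      omega
    rw [e3, e4]
    field_simp

end H18F

end
end
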