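import Pool.Agent.MP_f0209c_nt.OF.A
import Pool.Agent.MP_f0209c_nt.OF.B

-- part Ort
section

set_option autoImplicit false

open Polynomial Finset Filter
open scoped Classical BigOperators

noncomputable section
namespace H18F
open Pool.Agent.H4O (box mon prs qq)
open Pool.Agent.H48P (jac chi)
open Pool.Agent.MP_f0209c_nt.FF (mu ev MM HH AA)

/-- The monic polynomials in one class modulo `Q`. -/
theorem ort_bij {k : Type} [Field k] [Fintype k] {Q g : k[X]} {n n₁ : ℕ} (hQ : Q.Monic)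
    (hd : Q.natDegree ≤ n) (hn : n₁ ≤ n) (hg : g.natDegree ≤ n) (a : k[X] → ℝ) :
    ∑ x ∈ mon k n₁, (if Q ∣ x - g then a x else 0) =
      ∑ t ∈ box k (n - Q.natDegree + 1), if g + Q * t ∈ mon k n₁ then a (g + Q * t) else 0 := by
  rw [← Finset.sum_filter, ← Finset.sum_filter]
  symm
  refine Finset.sum_nbij (fun t => g + Q * t) ?_ ?_ ?_ fun _ _ => rfl
  · intro t ht
    rw [Finset.mem_filter] at ht ⊢
    exact ⟨ht.2, by rw [add_sub_cancel_left]; exact dvd_mul_right _ _⟩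
  · intro t _ t' _ h
    exact mul_left_cancel₀ hQ.ne_zero (add_left_cancel h)
  · intro x hx
    rw [Finset.mem_coe, Finset.mem_filter] at hx
    obtain ⟨hx, t, ht⟩ := hx
    have he : g + Q * t = x := by rw [← ht]; ring
    refine ⟨t, ?_, he⟩
    rw [Finset.mem_coe, Finset.mem_filter, he]
    refine ⟨Pool.Agent.H4O.mem_box.2 ?_, hx⟩
    rcases eq_or_ne t 0 with h0 | h0
    · rw [h0, degree_zero]
      exact WithBot.bot_lt_coe _
    · have h1 : (x - g).natDegree ≤ n :=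
        (natDegree_sub_le _ _).trans (max_le ((Pool.Agent.H4O.mem_mon.1 hx).2.le.trans hn) hg)
      rw [ht, natDegree_mul hQ.ne_zero h0] at h1
      rw [degree_eq_natDegree h0]
      exact_mod_cast (by omega : t.natDegree < n - Q.natDegree + 1)

theorem ort_row {k : Type} [Field k] [Fintype k] : ORT_s k := by
  intro Q n n₁ a b hQ hi hd hn hb
  have h1 : ∀ χ ∈ ev Q, (∑ x ∈ mon k n₁, (a x : ℂ) * χ (AdjoinRoot.mk Q x)) *
      (starRingEnd ℂ) (∑ f ∈ mon k n, (b f : ℂ) * χ (AdjoinRoot.mk Q f)) =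
      ∑ f ∈ mon k n, ∑ x ∈ mon k n₁, ((b f * a x : ℝ) : ℂ) *
        (χ (AdjoinRoot.mk Q x) * (starRingEnd ℂ) (χ (AdjoinRoot.mk Q f))) := by
    intro χ _
    rw [mul_comm, map_sum, Finset.sum_mul_sum]
    refine Finset.sum_congr rfl fun f _ => Finset.sum_congr rfl fun x _ => ?_
    rw [map_mul, Complex.conj_ofReal]
    push_cast
    ring
  have h2 : ∑ c ∈ (univ : Finset k).erase 0, ∑ t ∈ box k (n - Q.natDegree + 1),
      ∑ f ∈ mon k n, b f * (if C c * f + Q * t ∈ mon k n₁ then a (C c * f + Q * t) else 0) =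
      ∑ f ∈ mon k n, ∑ x ∈ mon k n₁,
        (if ¬ Q ∣ f ∧ ∃ c : k, c ≠ 0 ∧ Q ∣ x - C c * f then b f * a x else 0) := by
    simp only [Pool.Agent.MP_f0209c_nt.FF.var2_ind Q]
    rw [Finset.sum_congr rfl fun c _ => Finset.sum_comm, Finset.sum_comm]
    refine Finset.sum_congr rfl fun f hf => ?_
    rw [Finset.sum_comm (s := mon k n₁)]
    refine Finset.sum_congr rfl fun c _ => ?_
    have hg : (C c * f).natDegree ≤ n :=
      (natDegree_C_mul_le c f).trans (Pool.Agent.H4O.mem_mon.1 hf).2.le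
    rw [← Finset.mul_sum, ← ort_bij hQ hd hn hg a, Finset.mul_sum]
    refine Finset.sum_congr rfl fun x _ => ?_
    rcases eq_or_ne (b f) 0 with h0 | h0
    · simp [h0]
    · have h3 := hb f hf h0
      by_cases h4 : Q ∣ x - C c * f <;> simp [h3, h4]
  rw [h2, Finset.sum_congr rfl h1, Finset.sum_comm, Complex.ofReal_mul, Complex.ofReal_sum,
    Finset.mul_sum]
  refine Finset.sum_congr rfl fun f _ => ?_
  rw [Finset.sum_comm, Complex.ofReal_sum, Finset.mul_sum]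
  refine Finset.sum_congr rfl fun x _ => ?_
  rw [← Finset.mul_sum, Pool.Agent.MP_f0209c_nt.FF.orth hQ hi]
  split_ifs <;> simp [mul_comm]

end H18F

end
end

-- part Off
section

set_option autoImplicit false

open Polynomial Finset Filter
open scoped Classical BigOperators

noncomputable section
namespace H18F
open Pool.Agent.H4O (box mon prs qq)
open Pool.Agent.H48P (jac chi)
open Pool.Agent.MP_f0209c_nt.FF (mu ev MM HH AA)

theorem off_mul {k : Type} [Field k] [Fintype k] {n : ℕ} {P : k[X]} (hP : P.Monic)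
    (hn : P.natDegree ≤ n) (F : k[X] → ℝ) :
    ∑ f ∈ mon k n, dv P f * F f = ∑ f ∈ mon k (n - P.natDegree), F (P * f) := by
  simp only [dv, ite_mul, one_mul, zero_mul]
  rw [← Finset.sum_filter]
  refine (Finset.sum_bij (fun f _ => P * f) ?_ ?_ ?_ ?_).symm
  · intro f hf
    rw [Pool.Agent.H4O.mem_mon] at hf
    rw [Finset.mem_filter, Pool.Agent.H4O.mem_mon]
    exact ⟨⟨hP.mul hf.1, by rw [hP.natDegree_mul hf.1, hf.2]; omega⟩, dvd_mul_right _ _⟩
  · intro f _ g _ h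
    exact mul_left_cancel₀ hP.ne_zero h
  · intro g hg
    rw [Finset.mem_filter, Pool.Agent.H4O.mem_mon] at hg
    obtain ⟨⟨h1, h3⟩, f, rfl⟩ := hg
    have hf : f.Monic := hP.of_mul_monic_left h1
    refine ⟨f, Pool.Agent.H4O.mem_mon.2 ⟨hf, ?_⟩, rfl⟩
    rw [hP.natDegree_mul hf] at h3
    omega
  · intro f _; rfl

theorem off_mu {k : Type} [Field k] [Fintype k] {P : k[X]} (hP : Irreducible P) (m : k[X]) :
    mu (P * m) = -mu m + dv P m * mu m := by
  unfold dv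
  by_cases h : P ∣ m
  · have : ¬ Squarefree (P * m) := fun hs => hP.not_isUnit (hs P (mul_dvd_mul_left P h))
    rw [if_pos h, mu_def, if_neg this]
    ring
  · rw [if_neg h, Pool.Agent.MP_f0209c_nt.FF.mu_mul (hP.coprime_iff_not_dvd.2 h),
      Pool.Agent.MP_f0209c_nt.FF.mu_irr hP]
    ring

theorem off_gg {k : Type} [Field k] [Fintype k] {n n₁ : ℕ} {E : Finset k[X]}
    (h : ∀ x ∈ mon k n₁, ∑ x' ∈ E, dv x' x ≤ n) (a : k[X]) : |GG n₁ E a| ≤ n := by
  unfold GG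
  split_ifs with ha
  · have h0 : 0 ≤ ∑ x' ∈ E, dv x' a := Finset.sum_nonneg fun x _ => by
      unfold dv
      split_ifs <;> norm_num
    rw [abs_mul, abs_of_nonneg h0]
    exact (mul_le_of_le_one_left h0 (Pool.Agent.MP_f0209c_nt.FF.abs_mu a)).trans (h a ha)
  · simp

theorem off_one {k : Type} [Field k] [Fintype k] {n e : ℕ} (he : 2 * e ≤ n) (G : k[X] → ℝ)
    {B β : ℝ} (hG : ∀ a, |G a| ≤ B)
    (hβ : |∑ m ∈ mon k (n - e), mu m * ∑ P ∈ prs k e, G (P * m)| ≤ β) :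
    |∑ P ∈ prs k e, ∑ f ∈ mon k n, dv P f * (mu f * G f)| ≤ β + B * qq k ^ (n - e) := by
  have q0 : (0 : ℝ) < qq k := Pool.Agent.H4O.dec_q
  have B0 : 0 ≤ B := (abs_nonneg _).trans (hG 0)
  have e1 : ∀ P ∈ prs k e, ∑ f ∈ mon k n, dv P f * (mu f * G f) =
      -∑ m ∈ mon k (n - e), mu m * G (P * m) +
        ∑ m ∈ mon k (n - e - e), mu (P * m) * G (P * (P * m)) := by
    intro P hP
    obtain ⟨p1, p2, p3⟩ := Pool.Agent.H4O.mem_prs.1 hP
    have e2 := off_mul (n := n - e) p1 (by omega) fun m => mu m * G (P * m)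
    rw [p3] at e2
    rw [off_mul p1 (by omega), p3, ← e2, ← Finset.sum_neg_distrib, ← Finset.sum_add_distrib]
    refine Finset.sum_congr rfl fun m _ => ?_
    rw [off_mu p2]
    ring
  rw [Finset.sum_congr rfl e1, Finset.sum_add_distrib, Finset.sum_neg_distrib, Finset.sum_comm]
  simp only [← Finset.mul_sum]
  refine (abs_add_le _ _).trans (add_le_add (by rwa [abs_neg]) ?_)
  have e3 : ∀ P ∈ prs k e, |∑ m ∈ mon k (n - e - e), mu (P * m) * G (P * (P * m))| ≤
      qq k ^ (n - e - e) * B := by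
    intro P _
    refine (Finset.abs_sum_le_sum_abs _ _).trans ?_
    refine (Finset.sum_le_card_nsmul _ _ B fun m _ => ?_).trans (le_of_eq ?_)
    · rw [abs_mul]
      exact (mul_le_of_le_one_left (abs_nonneg _)
        (Pool.Agent.MP_f0209c_nt.FF.abs_mu _)).trans (hG _)
    · rw [nsmul_eq_mul, Pool.Agent.H4O.card_mon]
  refine (Finset.abs_sum_le_sum_abs _ _).trans ((Finset.sum_le_card_nsmul _ _ _ e3).trans ?_)
  have e4 : (#(prs k e) : ℝ) ≤ qq k ^ e := Pool.Agent.MP_f0209c_nt.FF.card_prs_le e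
  have e5 : qq k ^ (n - e) = qq k ^ e * qq k ^ (n - e - e) := by
    rw [← pow_add]
    congr 1
    omega
  rw [nsmul_eq_mul, e5]
  calc _ ≤ qq k ^ e * (qq k ^ (n - e - e) * B) := by gcongr
    _ = _ := by ring

theorem off_row {k : Type} [Field k] [Fintype k] : OFF_s k := by
  intro u n n₁ c ρ E β hn hS hβ
  have q2 := Pool.Agent.H4O.two_le_qq (k := k)
  have q0 : (0 : ℝ) < qq k := by linarith
  have e1 : ∑ f ∈ mon k n, GG n (PP k u) f * GG n₁ E (C c * f + ρ) =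
      ∑ e ∈ Ioc (6 * u) (12 * u), ∑ P ∈ prs k e, ∑ f ∈ mon k n,
        dv P f * (mu f * GG n₁ E (C c * f + ρ)) := by
    rw [← Finset.sum_biUnion, Finset.sum_comm]
    · refine Finset.sum_congr rfl fun f hf => ?_
      rw [← Finset.sum_mul, GG, if_pos hf, PP]
      ring
    · intro a _ b _ hab
      refine Finset.disjoint_left.2 fun P h1 h2 => hab ?_
      rw [← (Pool.Agent.H4O.mem_prs.1 h1).2.2, (Pool.Agent.H4O.mem_prs.1 h2).2.2]
  rw [e1]
  refine (Finset.abs_sum_le_sum_abs _ _).trans ((Finset.sum_le_card_nsmul _ _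
    (β + n * qq k ^ n / qq k ^ (6 * u)) fun e he => ?_).trans (le_of_eq ?_))
  · obtain ⟨h1, h2⟩ := Finset.mem_Ioc.1 he
    refine (off_one (by omega) (fun f => GG n₁ E (C c * f + ρ)) (fun a => off_gg hS _)
      (β := β) ?_).trans ?_
    · simpa only [mul_assoc] using hβ e h1 h2
    · rw [mul_div_assoc]
      gcongr
      rw [le_div_iff₀ (by positivity), ← pow_add]
      exact pow_le_pow_right₀ (by linarith) (by omega)
  · rw [nsmul_eq_mul, Nat.card_Ioc, show 12 * u - 6 * u = 6 * u by omega]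
    push_cast
    rfl

end H18F

end
end

-- part Diag
section

set_option autoImplicit false

open Polynomial Finset Filter
open scoped Classical BigOperators

noncomputable section
namespace H18F
open Pool.Agent.H4O (box mon prs qq)
open Pool.Agent.H48P (jac chi)
open Pool.Agent.MP_f0209c_nt.FF (mu ev MM HH AA)

theorem diag_mem {k : Type} [Field k] [Fintype k] {u : ℕ} {P : k[X]} (h : P ∈ PP k u) :
    P.Monic ∧ Irreducible P ∧ 6 * u < P.natDegree ∧ P.natDegree ≤ 12 * u := by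
  obtain ⟨e, he, hP⟩ := Finset.mem_biUnion.1 h
  obtain ⟨p1, p2, p3⟩ := Pool.Agent.H4O.mem_prs.1 hP
  rw [p3]
  exact ⟨p1, p2, Finset.mem_Ioc.1 he⟩

theorem diag_cop {k : Type} [Field k] [Fintype k] {u : ℕ} {P P' : k[X]} (h : P ∈ PP k u)
    (h' : P' ∈ PP k u) (hne : P ≠ P') : IsCoprime P P' :=
  (diag_mem h).2.1.coprime_iff_not_dvd.2 fun d => hne (eq_of_monic_of_associated (diag_mem h).1
    (diag_mem h').1 ((diag_mem h).2.1.associated_of_dvd (diag_mem h').2.1 d))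

theorem diag_cnt {k : Type} [Field k] [Fintype k] {n : ℕ} {P : k[X]} (hP : P.Monic)
    (hn : P.natDegree ≤ n) : ∑ f ∈ mon k n, dv P f = qq k ^ n * (1 / qq k ^ P.natDegree) := by
  have q0 : (0 : ℝ) < qq k := Pool.Agent.H4O.dec_q
  have h := off_mul hP hn fun _ => (1 : ℝ)
  simp only [mul_one, Finset.sum_const, nsmul_eq_mul, Pool.Agent.H4O.card_mon] at h
  rw [h, pow_sub₀ _ q0.ne' hn, one_div]

theorem diag_dv0 {k : Type} [Field k] (P f : k[X]) : 0 ≤ dv P f := by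
  unfold dv
  split_ifs <;> norm_num

theorem diag_sq {k : Type} [Field k] [Fintype k] (f : k[X]) : mu f * mu f ≤ 1 := by
  have := abs_le.1 (Pool.Agent.MP_f0209c_nt.FF.abs_mu f)
  nlinarith [this.1, this.2]

theorem diag_low {k : Type} [Field k] [Fintype k] (hq : 3 ≤ qq k) {n : ℕ} {P : k[X]}
    (hP : P.Monic) (hi : Irreducible P) (h2 : 2 ≤ P.natDegree) (hn : 2 * P.natDegree ≤ n) :
    qq k ^ n * (1 / qq k ^ P.natDegree) / 2 ≤ ∑ f ∈ mon k n, dv P f * (mu f * mu f) := by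
  have q0 : (0 : ℝ) < qq k := by linarith
  obtain ⟨N, hN⟩ : ∃ N, n - P.natDegree = N + 2 := ⟨n - P.natDegree - 2, by omega⟩
  have e1 : qq k ^ n * (1 / qq k ^ P.natDegree) = qq k ^ (N + 2) := by
    rw [← hN, pow_sub₀ _ q0.ne' (by omega), one_div]
  have e2 : ∑ m ∈ mon k (N + 2), mu m ^ 2 = qq k ^ (N + 2) - qq k ^ (N + 1) :=
    Pool.Agent.MP_f0209c_nt.FF.sqf_eq (k := k) (n := N + 2) (by omega)
  have e3 := diag_cnt (n := N + 2) hP (by omega)
  have e4 : 1 / qq k ^ P.natDegree ≤ 1 / qq k ^ 2 :=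
    one_div_le_one_div_of_le (by positivity) (pow_le_pow_right₀ (by linarith) h2)
  have e5 : qq k ^ (N + 2) * (1 / qq k ^ P.natDegree) ≤ qq k ^ N := by
    refine (mul_le_mul_of_nonneg_left e4 (by positivity)).trans (le_of_eq ?_)
    field_simp
    ring
  rw [off_mul hP (by omega), e1, hN]
  have e6 : ∑ m ∈ mon k (N + 2), (mu m ^ 2 - dv P m) ≤
      ∑ m ∈ mon k (N + 2), mu (P * m) * mu (P * m) := by
    refine Finset.sum_le_sum fun m _ => ?_
    have := diag_sq m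
    rw [off_mu hi]
    unfold dv
    split_ifs <;> nlinarith
  rw [Finset.sum_sub_distrib, e2, e3] at e6
  have e7 : (0 : ℝ) < qq k ^ N := by positivity
  have e8 : 0 ≤ qq k ^ N * (qq k * qq k / 2 - qq k - 1) := mul_nonneg e7.le (by nlinarith)
  rw [pow_add, pow_add] at *
  nlinarith

theorem diag_row {k : Type} [Field k] [Fintype k] : DIAG_s k := by
  intro u n hq hu hn
  have q0 : (0 : ℝ) < qq k := by linarith
  refine ⟨?_, ?_, ?_, fun x hx => ⟨(diag_mem hx).1.ne_zero, (diag_mem hx).2.2.2⟩,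
    fun n₁ h1 x hx => ?_, fun Q hQ h1 h2 f hf h3 h4 => ?_⟩
  · have h := H4Lev.win (k := k) (prs k) (fun _ _ => Pool.Agent.H4O.mem_prs)
      (fun d hd => Pool.Agent.H4O.card_prs hd) (6 * u) (6 * u) (12 * u) (by omega) (by omega)
    rw [show 6 * u + 6 * u = 12 * u by omega] at h
    refine le_trans (le_of_eq ?_) h
    have : (0 : ℝ) < u := by exact_mod_cast hu
    push_cast
    field_simp
    norm_num
  · have e1 : ∑ f ∈ mon k n, GG n (PP k u) f * mu f =
        ∑ P ∈ PP k u, ∑ f ∈ mon k n, dv P f * (mu f * mu f) := by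
      rw [Finset.sum_comm]
      refine Finset.sum_congr rfl fun f hf => ?_
      rw [← Finset.sum_mul, GG, if_pos hf]
      ring
    rw [e1, si, Finset.mul_sum, Finset.sum_div]
    refine Finset.sum_le_sum fun P hP => ?_
    obtain ⟨p1, p2, p3, p4⟩ := diag_mem hP
    exact diag_low hq p1 p2 (by omega) (by omega)
  · have e1 : ∑ f ∈ mon k n, GG n (PP k u) f * GG n (PP k u) f ≤
        ∑ P ∈ PP k u, ∑ P' ∈ PP k u, ∑ f ∈ mon k n, dv P f * dv P' f := by
      rw [Finset.sum_comm' (t := fun _ => PP k u) (s' := fun _ => PP k u) (t' := PP k u)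
        (by simp), Finset.sum_congr rfl fun P _ => Finset.sum_comm, Finset.sum_comm]
      refine Finset.sum_le_sum fun f hf => ?_
      rw [Finset.sum_comm, ← Finset.sum_mul_sum, GG, if_pos hf, mul_mul_mul_comm]
      exact mul_le_of_le_one_left (mul_self_nonneg _) (diag_sq f)
    have e2 : ∀ P ∈ PP k u, ∀ P' ∈ PP k u, ∑ f ∈ mon k n, dv P f * dv P' f ≤
        (if P = P' then qq k ^ n * (1 / qq k ^ P.natDegree) else 0) +
          qq k ^ n * (1 / qq k ^ P.natDegree * (1 / qq k ^ P'.natDegree)) := by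
      intro P hP P' hP'
      obtain ⟨p1, p2, p3, p4⟩ := diag_mem hP
      obtain ⟨r1, r2, r3, r4⟩ := diag_mem hP'
      split_ifs with h
      · rw [← h, ← diag_cnt p1 (by omega)]
        refine le_add_of_le_of_nonneg (Finset.sum_le_sum fun f _ => ?_) (by positivity)
        unfold dv
        split_ifs <;> norm_num
      · have e3 := diag_cnt (n := n) (p1.mul r1) (by rw [p1.natDegree_mul r1]; omega)
        rw [p1.natDegree_mul r1, pow_add, ← one_div_mul_one_div] at e3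
        rw [zero_add, ← e3]
        refine Finset.sum_le_sum fun f _ => ?_
        unfold dv
        by_cases a1 : P ∣ f
        · by_cases a2 : P' ∣ f
          · rw [if_pos a1, if_pos a2, if_pos ((diag_cop hP hP' h).mul_dvd a1 a2), one_mul]
          · rw [if_neg a2, mul_zero]
            exact diag_dv0 _ _
        · rw [if_neg a1, zero_mul]
          exact diag_dv0 _ _
    refine e1.trans ((Finset.sum_le_sum fun P hP => Finset.sum_le_sum (e2 P hP)).trans
      (le_of_eq ?_))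
    rw [si, sq, Finset.sum_mul_sum, mul_add, Finset.mul_sum, Finset.mul_sum,
      ← Finset.sum_add_distrib]
    refine Finset.sum_congr rfl fun P hP => ?_
    rw [Finset.sum_add_distrib, Finset.sum_ite_eq, if_pos hP, Finset.mul_sum]
  · obtain ⟨x1, x2⟩ := Pool.Agent.H4O.mem_mon.1 hx
    have hd : ∏ π ∈ ({π ∈ PP k u | π ∣ x} : Finset k[X]), π ∣ x :=
      Finset.prod_dvd_of_coprime (fun a ha b hb hab => diag_cop (Finset.mem_filter.1 ha).1
        (Finset.mem_filter.1 hb).1 hab) fun π h => (Finset.mem_filter.1 h).2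
    have h2 := natDegree_le_of_dvd hd x1.ne_zero
    rw [natDegree_prod_of_monic _ _ fun π h => (diag_mem (Finset.mem_filter.1 h).1).1] at h2
    have h3 := Finset.card_nsmul_le_sum ({π ∈ PP k u | π ∣ x} : Finset k[X]) natDegree 1
      fun π h => by have := (diag_mem (Finset.mem_filter.1 h).1).2.2.1; omega
    rw [smul_eq_mul, mul_one] at h3
    unfold dv
    rw [Finset.sum_boole]
    exact_mod_cast (h3.trans h2).trans (x2.le.trans h1)
  · rw [GG, if_pos hf] at h3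
    obtain ⟨P, hP, h5⟩ := Finset.exists_ne_zero_of_sum_ne_zero (right_ne_zero_of_mul h3)
    have h6 : P ∣ f := by
      by_contra h
      exact h5 (if_neg h)
    obtain ⟨p1, p2, p3, p4⟩ := diag_mem hP
    obtain ⟨f1, f2⟩ := Pool.Agent.H4O.mem_mon.1 hf
    have h7 : IsCoprime Q P := hQ.coprime_iff_not_dvd.2 fun d => by
      have := natDegree_le_of_dvd d p1.ne_zero
      omega
    have h8 := natDegree_le_of_dvd (h7.mul_dvd h4 h6) f1.ne_zero
    rw [natDegree_mul hQ.ne_zero p1.ne_zero] at h8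
    omega

end H18F

end
end

-- part Var
section

set_option autoImplicit false

open Polynomial Finset Filter
open scoped Classical BigOperators

noncomputable section
namespace H18F
open Pool.Agent.H4O (box mon prs qq mem_mon mem_box card_box two_le_qq)
open Pool.Agent.H48P (jac chi)
open Pool.Agent.MP_f0209c_nt.FF (mu ev MM HH AA)

theorem var_pt (H T : ℂ) (l : ℝ) :
    2 * l * (H * (starRingEnd ℂ) T).re - l ^ 2 * (T * (starRingEnd ℂ) T).re ≤ ‖H‖ ^ 2 := by
  rw [Complex.sq_norm, Complex.normSq_apply]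
  simp only [Complex.mul_re, Complex.conj_re, Complex.conj_im]
  nlinarith [sq_nonneg (H.re - l * T.re), sq_nonneg (H.im - l * T.im)]

theorem var_num {s x O S₁ S₂ S₃ D₁ D₃ : ℝ} (hs : 1 / 4 ≤ s) (hx : 0 ≤ x) (hO : 0 ≤ O)
    (h₁ : |S₁ - D₁| ≤ O) (h₂ : |S₂ - 0| ≤ O) (h₃ : |S₃ - D₃| ≤ O) (d₁ : x * s / 2 ≤ D₁)
    (d₃ : D₃ ≤ x * (s + s ^ 2)) :
    x / 20 - 3 * O ≤ 2 * (1 / (2 * (1 + s))) * (S₁ - S₂) - (1 / (2 * (1 + s))) ^ 2 * S₃ := by
  obtain ⟨l, hl⟩ : ∃ l : ℝ, l = 1 / (2 * (1 + s)) := ⟨_, rfl⟩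
  have e : l * (1 + s) = 1 / 2 := by
    rw [hl]
    field_simp
  have l0 : 0 < l := by
    rw [hl]
    positivity
  rw [← hl]
  have l1 : l ≤ 2 / 5 := by nlinarith
  have a₁ := (abs_le.1 h₁).1
  have a₂ := (abs_le.1 h₂).2
  have a₃ := (abs_le.1 h₃).2
  have b₁ : 2 * l * (x * s / 2 - 2 * O) ≤ 2 * l * (S₁ - S₂) :=
    mul_le_mul_of_nonneg_left (by linarith) (by positivity)
  have b₃ : l ^ 2 * S₃ ≤ l ^ 2 * (x * (s + s ^ 2) + O) :=
    mul_le_mul_of_nonneg_left (by linarith) (by positivity)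
  have c₁ : l ^ 2 * (x * (s + s ^ 2)) = l * s * x / 2 := by
    have : l ^ 2 * (x * (s + s ^ 2)) = l * s * x * (l * (1 + s)) := by ring
    rw [this, e]
    ring
  have c₂ : x / 10 ≤ l * s * x := by
    have : 1 / 10 ≤ l * s := by nlinarith
    nlinarith
  have c₃ : l * O ≤ 2 / 5 * O := mul_le_mul_of_nonneg_right l1 hO
  have c₄ : l ^ 2 * O ≤ O := mul_le_of_le_one_left hO (by nlinarith)
  nlinarith

section
variable {k : Type} [Field k] [Fintype k]

theorem var_split {Q : k[X]} (hQ : Q.Monic) {u n n₁ : ℕ} (h1 : Q.natDegree ≤ n)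
    (h2 : n ≤ Q.natDegree + u) {β : ℝ} (hβ : 0 ≤ β) (b : k[X] → ℝ) (E : Finset k[X])
    (H : ∀ (c : k) (ρ : k[X]), c ≠ 0 → ρ ≠ 0 → ρ.natDegree ≤ n →
      |∑ f ∈ mon k n, b f * GG n₁ E (C c * f + ρ)| ≤ β) :
    |∑ c ∈ (univ : Finset k).erase 0, ∑ t ∈ box k (n - Q.natDegree + 1), ∑ f ∈ mon k n,
        b f * (if C c * f + Q * t ∈ mon k n₁ then GG n₁ E (C c * f + Q * t) else 0) -
      ∑ f ∈ mon k n, b f * GG n₁ E f| ≤ qq k ^ (u + 2) * β := by
  have hq := two_le_qq (k := k)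
  have e0 : ∀ x : k[X], (if x ∈ mon k n₁ then GG n₁ E x else 0) = GG n₁ E x := fun x => by
    split_ifs with h
    · rfl
    · rw [GG, if_neg h]
  simp only [e0]
  have z0 : (0 : k[X]) ∈ box k (n - Q.natDegree + 1) := mem_box.2 (by simp)
  have e1 : ∑ c ∈ (univ : Finset k).erase 0, ∑ f ∈ mon k n, b f * GG n₁ E (C c * f + Q * 0) =
      ∑ f ∈ mon k n, b f * GG n₁ E f := by
    rw [sum_eq_single (1 : k)]
    · simp
    · intro c _ hc
      refine sum_eq_zero fun f hf => ?_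
      rw [GG, if_neg, mul_zero]
      intro hm
      have h3 := (mem_mon.1 hm).1
      rw [mul_zero, add_zero, Monic, leadingCoeff_mul, leadingCoeff_C, (mem_mon.1 hf).1,
        mul_one] at h3
      exact hc h3
    · intro h
      exact absurd (mem_erase.2 ⟨one_ne_zero, mem_univ _⟩) h
  rw [sum_congr rfl fun c _ => (add_sum_erase _ _ z0).symm, sum_add_distrib, e1, add_sub_cancel_left]
  refine (abs_sum_le_sum_abs _ _).trans ((sum_le_card_nsmul _ _ (qq k ^ (u + 1) * β)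
    fun c hc => ?_).trans ?_)
  · refine (abs_sum_le_sum_abs _ _).trans ((sum_le_card_nsmul _ _ β fun t ht => ?_).trans ?_)
    · obtain ⟨t0, t1⟩ := mem_erase.1 ht
      refine H c _ (mem_erase.1 hc).1 (mul_ne_zero hQ.ne_zero t0) ?_
      have := (natDegree_lt_iff_degree_lt t0).2 (mem_box.1 t1)
      rw [natDegree_mul hQ.ne_zero t0]
      omega
    · rw [nsmul_eq_mul]
      refine mul_le_mul_of_nonneg_right (le_trans ?_
        (pow_le_pow_right₀ (by linarith) (by omega : n - Q.natDegree + 1 ≤ u + 1))) hβ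
      rw [← card_box]
      exact_mod_cast card_erase_le
  · rw [nsmul_eq_mul, ← mul_assoc, pow_succ' _ (u + 1)]
    refine mul_le_mul_of_nonneg_right (mul_le_mul_of_nonneg_right ?_ (by positivity)) hβ
    unfold qq
    exact_mod_cast card_erase_le.trans card_univ.le

theorem var_one {n : ℕ} {x : k[X]} (h : x ∈ mon k n) : GG n {1} x = mu x := by
  rw [GG, if_pos h, sum_singleton, dv, if_pos (one_dvd _), mul_one]

end

theorem var_row {k : Type} [Field k] [Fintype k] (h₁ : ORT_s k) (h₂ : DIAG_s k) : VAR_s k := by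
  intro Q u n β hQ hi hq hu h24 hd hn hβ H
  obtain ⟨d1, d2, d3, d4, d5, d6⟩ := h₂ u n hq hu (by omega)
  have hb := d6 Q hi (by omega) (by omega)
  have hE : ∀ x ∈ ({1} : Finset k[X]), x ≠ 0 ∧ x.natDegree ≤ 12 * u := fun x hx => by
    rw [mem_singleton.1 hx]
    simp
  have hE' : ∀ n₁, ∀ x ∈ mon k n₁, ∑ x' ∈ ({1} : Finset k[X]), dv x' x ≤ n := fun n₁ x _ => by
    rw [sum_singleton, dv, if_pos (one_dvd _)]
    exact_mod_cast (by omega : 1 ≤ n)
  have s1 := var_split hQ hd hn hβ (GG n (PP k u)) {1} fun c ρ hc h0 h1 =>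
    H n c ρ {1} (by omega) le_rfl hc h0 h1 hE (hE' n)
  have s2 := var_split hQ hd hn hβ (GG n (PP k u)) {1} fun c ρ hc h0 h1 =>
    H (n - 1) c ρ {1} (by omega) (by omega) hc h0 h1 hE (hE' _)
  have s3 := var_split hQ hd hn hβ (GG n (PP k u)) (PP k u) fun c ρ hc h0 h1 =>
    H n c ρ _ (by omega) le_rfl hc h0 h1 d4 (d5 n le_rfl)
  have o1 := congrArg Complex.re (h₁ Q n n (GG n {1}) _ hQ hi hd le_rfl hb)
  have o2 := congrArg Complex.re (h₁ Q n (n - 1) (GG (n - 1) {1}) _ hQ hi hd (by omega) hb)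
  have o3 := congrArg Complex.re (h₁ Q n n (GG n (PP k u)) _ hQ hi hd le_rfl hb)
  rw [Complex.ofReal_re, Complex.re_sum] at o1 o2 o3
  have z : ∑ f ∈ mon k n, GG n (PP k u) f * GG (n - 1) {1} f = 0 := sum_eq_zero fun f hf => by
    have : f ∉ mon k (n - 1) := fun h => by
      have a := (mem_mon.1 hf).2
      have b := (mem_mon.1 h).2
      omega
    rw [GG.eq_1 (n - 1), if_neg this, mul_zero]
  rw [z] at s2
  rw [← sum_congr rfl fun f hf => congrArg (GG n (PP k u) f * ·) (var_one hf)] at d2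
  have m : ∀ (χ : MulChar (AdjoinRoot Q) ℂ) (j : ℕ), MM Q χ j =
      ∑ x ∈ mon k j, (GG j {1} x : ℂ) * χ (AdjoinRoot.mk Q x) := fun χ j =>
    sum_congr rfl fun x hx => by rw [var_one hx]
  have hq0 : 0 ≤ qq k := by linarith
  have a := mul_le_mul_of_nonneg_left (var_num d1 (pow_nonneg hq0 n) (by positivity) s1 s2 s3 d2 d3)
    (Nat.cast_nonneg (α := ℝ) #(ev Q))
  rw [mul_assoc 3]
  refine a.trans (le_trans (le_of_eq ?_) (sum_le_sum fun χ _ => var_pt _
    (∑ f ∈ mon k n, (GG n (PP k u) f : ℂ) * χ (AdjoinRoot.mk Q f)) (1 / (2 * (1 + si k u)))))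
  simp only [m, sub_mul, Complex.sub_re]
  rw [sum_sub_distrib, ← mul_sum, ← mul_sum, sum_sub_distrib, o1, o2, o3]
  ring

end H18F

end
end

-- part Low
section

set_option autoImplicit false

open Polynomial Finset Filter
open scoped Classical BigOperators

noncomputable section
namespace H18F
open Pool.Agent.H4O (box mon prs qq)
open Pool.Agent.H48P (jac chi)
open Pool.Agent.MP_f0209c_nt.FF (mu ev MM HH AA)

theorem low_num {q u n : ℝ} (N U : ℕ) (hq : 3 ≤ q) (hu : 0 ≤ u) (hun : u ≤ n)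
    (h : 1080 * q ^ 2 * (n + 1) ^ 2 ≤ q ^ U) :
    q ^ N / 30 ≤ q ^ N / 20 - 3 * q ^ (U + 2) *
      (6 * u * (q ^ N / q ^ (2 * U) + n * q ^ N / q ^ (6 * U))) := by
  have hq0 : 0 < q := by linarith
  have hU : 0 < q ^ U := pow_pos hq0 _
  have hN : 0 < q ^ N := pow_pos hq0 _
  have hn : 0 ≤ n := hu.trans hun
  have h1 : n * q ^ N / q ^ (6 * U) ≤ n * q ^ N / q ^ (2 * U) :=
    div_le_div_of_nonneg_left (by positivity) (pow_pos hq0 _)
      (pow_le_pow_right₀ (by linarith) (by omega))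
  have h2 : 3 * q ^ (U + 2) * (6 * u * (q ^ N / q ^ (2 * U) + n * q ^ N / q ^ (6 * U))) ≤
      3 * q ^ (U + 2) * (6 * (n + 1) * (q ^ N / q ^ (2 * U) + n * q ^ N / q ^ (2 * U))) := by
    gcongr
    linarith
  have h3 : 3 * q ^ (U + 2) * (6 * (n + 1) * (q ^ N / q ^ (2 * U) + n * q ^ N / q ^ (2 * U))) =
      q ^ N / 60 * (1080 * q ^ 2 * (n + 1) ^ 2 / q ^ U) := by
    rw [two_mul U, pow_add, pow_add]
    field_simp
    ring
  have h4 : 1080 * q ^ 2 * (n + 1) ^ 2 / q ^ U ≤ 1 := (div_le_one hU).2 h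
  have h5 := mul_le_mul_of_nonneg_left h4 (show 0 ≤ q ^ N / 60 by positivity)
  linarith

theorem low_row {k : Type} [Field k] [Fintype k] {A : ℕ} (hq : 3 ≤ qq k) (hA : 100 ≤ A) (h₁ : OFF_s k)
    (h₂ : VAR_s k) (h₃ : POLY_s) (h₄ : BIL_s k A) : LOW_s k (1 / (2 * A)) := by
  have hq0 : 0 < qq k := by linarith
  have hA0 : 0 < A := by omega
  have ht : Tendsto (fun d : ℕ => d / A) atTop atTop := Nat.tendsto_div_const_atTop hA0.ne'
  have hP := h₃ (qq k) (1080 * qq k ^ 2) A 2 (by linarith)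
  unfold BIL_s at h₄
  filter_upwards [ht.eventually h₄, ht.eventually hP, ht.eventually (eventually_ge_atTop 2)]
    with d hB hP hu Q hQ hi hd n h1 h2
  set u := d / A with hu'
  have a1 : A * u ≤ d := Nat.mul_div_le d A
  have a2 : d < A * (u + 1) := by
    rw [hu']
    exact Nat.lt_mul_div_succ d hA0
  have a3 : 2 * A * n ≤ 2 * A * d + d := by
    have hA' : (0 : ℝ) < 2 * A := by positivity
    have : (2 * A : ℝ) * n ≤ 2 * A * d + d := by
      have e : (2 * A : ℝ) * (d + 1 / (2 * A) * d) = 2 * A * d + d := by field_simp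
      rw [← e]
      exact mul_le_mul_of_nonneg_left h2 hA'.le
    exact_mod_cast this
  have a4 : n ≤ d + u := by
    by_contra hc
    have : d + u + 1 ≤ n := by omega
    have := Nat.mul_le_mul_left (2 * A) this
    nlinarith
  have a5 : n ≤ 2 * A * u := by nlinarith
  have a6 : 24 * u ≤ d := by nlinarith
  have hβ : (0 : ℝ) ≤ 6 * u * (qq k ^ n / qq k ^ (2 * u) + n * qq k ^ n / qq k ^ (6 * u)) := by
    positivity
  have hV := h₂ Q u n _ hQ hi hq (by omega) (by omega) (by omega) (by omega) hβ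
    (fun n₁ c ρ E b1 b2 hc hρ hρn hE hE' => h₁ u n n₁ c ρ E _ (by omega) hE' fun e e1 e2 =>
      hB n (by omega) a5 e n₁ e1 e2 b1 b2 c ρ mu E hc hρ hρn
        (fun x => by
          rw [mu_def]
          split_ifs
          · simp
          · simp) hE hE')
  have hn : ∀ χ, ‖HH Q χ n‖ ^ 2 = ‖MM Q χ n - MM Q χ (n - 1)‖ ^ 2 / qq k ^ n := by
    intro χ
    unfold HH
    rw [if_neg (by omega), norm_div, div_pow, norm_pow, Complex.norm_real, Real.norm_eq_abs,
      abs_of_nonneg (Real.sqrt_nonneg _), ← pow_mul, mul_comm n 2, pow_mul, qq_eq,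
      Real.sq_sqrt hq0.le]
  simp only [hn]
  rw [← Finset.sum_div, le_div_iff₀ (pow_pos hq0 _)]
  refine le_trans ?_ hV
  have hl := low_num (u := u) (n := n) n u hq (Nat.cast_nonneg _)
    (by exact_mod_cast (by omega : u ≤ n)) (hP n a5)
  have := mul_le_mul_of_nonneg_left hl (Nat.cast_nonneg (α := ℝ) #(ev Q))
  linarith

end H18F

end
end

-- part End
section

set_option autoImplicit false

open Polynomial Finset Filter
open scoped Classical BigOperators

noncomputable section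
namespace H18F

section
open Pool.Agent.MP_a4a062_nt.C2 Pool.Agent.MP_f0209c_nt.FF
variable {k : Type} [Field k] [Fintype k]

theorem end_many {τ : ℝ} (τ0 : 0 < τ) (τ1 : τ ≤ 1 / 10) (hl : H18F.LOW_s k τ) {A : ℝ} (hA : 1 < A) :
    ∀ᶠ N : ℕ in atTop, ∀ Q : k[X], Q.Monic → Irreducible Q →
    Q.natDegree = N + 2 → qq k ^ (N + 2) ≤ A ^ N * #{χ ∈ (ev Q).erase 1 |
      ∃ θ : Fin N → ℝ, PowerSeries.mk (AA Q χ) = (1 - PowerSeries.X) *
      ∏ j, (1 - PowerSeries.C (((√(qq k) : ℝ) : ℂ) * Complex.exp (θ j * Complex.I)) *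
        PowerSeries.X) ∧
      ∃ i j, i ≠ j ∧ |θ i - θ j| ≤ (1 / 2 - τ / 1000) * (2 * Real.pi / N)} := by
  have hq := two_le_qq (k := k)
  obtain ⟨a, ha, rfl⟩ : ∃ s : ℝ, 1 < s ∧ s ^ 3 = A := ⟨A ^ ((3 : ℕ) : ℝ)⁻¹,
    Real.one_lt_rpow hA (by positivity), Real.rpow_inv_natCast_pow (by linarith) (by norm_num)⟩
  filter_upwards [(tendsto_add_atTop_nat 2).eventually (num τ0 τ1 (4 * qq k ^ 2)),
    (tendsto_add_atTop_nat 2).eventually hl, eventually_ge_atTop 4,
    mny_bnd (by linarith : 1 ≤ qq k) ha,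
    (tendsto_pow_atTop_atTop_of_one_lt ha).eventually_ge_atTop (800 * qq k / τ),
    ((tendsto_pow_atTop_atTop_of_one_lt (by linarith : 1 < qq k)).comp
      (tendsto_add_atTop_nat 1)).eventually_gt_atTop (3200 * qq k ^ 2 / τ)]
    with N h1 h2 hN hbd h5 h3 Q hQ hi hd
  obtain ⟨t, ht⟩ : ∃ t : ℝ, t = (1 / 2 - τ / 1000) * (2 * Real.pi / N) := ⟨_, rfl⟩
  obtain ⟨Y, hY⟩ : ∃ Y : ℕ, Y = N + 2 + ⌊τ * ((N + 2 : ℕ) : ℝ)⌋₊ := ⟨_, rfl⟩
  have hN1 : (1 : ℝ) ≤ N := by exact_mod_cast (by omega : 1 ≤ N)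
  have hpi := Real.pi_pos
  have hd0 : (0 : ℝ) < ((N + 2 : ℕ) : ℝ) := by positivity
  have t0 : 0 < t := by
    rw [ht]
    exact mul_pos (by linarith) (by positivity)
  have t1 : t ≤ Real.pi := by
    have h4 : 2 * Real.pi / N ≤ 2 * Real.pi := div_le_self (by positivity) hN1
    have h5 : 0 ≤ 2 * Real.pi / N := by positivity
    rw [ht]
    nlinarith
  have hYle : Y ≤ 2 * (N + 2) := by
    have h4 : ⌊τ * ((N + 2 : ℕ) : ℝ)⌋₊ ≤ N + 2 := Nat.floor_le_of_le (by nlinarith)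
    omega
  have hc := card_ev hQ hi
  rw [hd, show N + 2 - 1 = N + 1 from rfl] at hc
  have h3' : 3200 * qq k ^ 2 < (#(ev Q) : ℝ) * τ := (div_lt_iff₀ τ0).1 (lt_of_lt_of_le h3 hc)
  have c0 : (0 : ℝ) < #(ev Q) := lt_of_lt_of_le (by positivity) hc
  have hq2 : 1 ≤ qq k ^ 2 := one_le_pow₀ (by linarith)
  have a1 := h1 (fun n => (∑ χ ∈ ev Q, ‖HH Q χ n‖ ^ 2) / (#(ev Q) : ℝ)) (1 - 1 / qq k ^ 2)
    (sub_nonneg.2 ((div_le_one (by positivity)).2 hq2)) (sub_le_self _ (by positivity))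
    (fun n hn => by
      rw [abs_of_nonneg (by positivity), div_le_iff₀ c0, mul_comm, ← nsmul_eq_mul]
      exact sum_le_card_nsmul _ _ _ fun χ _ => (HH_le hQ χ n).trans
        (mul_le_mul_of_nonneg_left (pow_le_pow_right₀ (by linarith) hn) (by norm_num)))
    (fun n hn hn' => by
      rw [var_lt hQ hi hn (by omega), mul_div_cancel_left₀ _ c0.ne'])
    (fun n hn hn' => by
      have h4 := h2 Q hQ hi hd n hn hn'
      rw [le_div_iff₀ c0]
      linarith)
  rw [← hY, Nat.add_sub_cancel, show (((N + 2 : ℕ) : ℝ) - 2) = N by push_cast; ring, ← ht] at a1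
  have a2 : ∑ χ ∈ ev Q, ∑ n ∈ range Y, ‖HH Q χ n‖ ^ 2 * Real.sin (((n : ℝ) + (N : ℝ) / 2) * t) ≤
      -(τ * ((N + 2 : ℕ) : ℝ) / 200) * (#(ev Q) : ℝ) := by
    rw [sum_comm, ← div_le_iff₀ c0, sum_div]
    refine le_trans (le_of_eq (sum_congr rfl fun n _ => ?_)) a1
    rw [← sum_mul, mul_div_right_comm]
  rw [← add_sum_erase _ _ (one_mem_ev hQ)] at a2
  rw [← ht]
  generalize hB : ({χ ∈ (ev Q).erase 1 | ∃ θ : Fin N → ℝ, PowerSeries.mk (AA Q χ) =
      (1 - PowerSeries.X) * ∏ j, (1 - PowerSeries.C (((√(qq k) : ℝ) : ℂ) *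
        Complex.exp (θ j * Complex.I)) * PowerSeries.X) ∧
      ∃ i j, i ≠ j ∧ |θ i - θ j| ≤ t} : Finset _) = B
  have a3 : ∑ χ ∈ (ev Q).erase 1, (if χ ∈ B then -(Y * (a ^ N) ^ 2) else 0) ≤
      ∑ χ ∈ (ev Q).erase 1,
      ∑ n ∈ range Y, ‖HH Q χ n‖ ^ 2 * Real.sin (((n : ℝ) + (N : ℝ) / 2) * t) := by
    refine sum_le_sum fun χ hχ => ?_
    obtain ⟨x1, x2⟩ := mem_erase.1 hχ
    obtain ⟨θ, hθ⟩ := rh hQ hi x1 x2 hd
    split_ifs with c
    · have hR : ((√(qq k) : ℝ) : ℂ) ≠ 0 := by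
        exact_mod_cast (Real.sqrt_pos.2 (by linarith)).ne'
      have b1 := hbd θ (HH Q χ) (inv_ser hR hθ
        (mu_conv (χ.toMonoidHom.comp (AdjoinRoot.mk Q).toMonoidHom))) (HH_le hQ χ)
      refine le_trans (le_of_eq ?_) (card_nsmul_le_sum _ _ (-(a ^ N) ^ 2) fun n hn => ?_)
      · rw [card_range, nsmul_eq_mul, mul_neg]
      · have h4 := pow_le_pow_left₀ (norm_nonneg _) (b1 n (by rw [mem_range] at hn; omega)) 2
        nlinarith [Real.neg_one_le_sin (((n : ℝ) + (N : ℝ) / 2) * t), sq_nonneg ‖HH Q χ n‖]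
    · refine gap_sign t0 t1 hθ (fun θ' h' i j hij => lt_of_not_ge fun e => c ?_) Y
      exact hB ▸ mem_filter.2 ⟨hχ, θ', h', i, j, hij, e⟩
  rw [sum_ite_mem, inter_eq_right.2 (hB ▸ filter_subset _ _), sum_const, nsmul_eq_mul] at a3
  have a4 : (#(range Y)) • (-(4 * qq k ^ 2)) ≤
      ∑ n ∈ range Y, ‖HH Q 1 n‖ ^ 2 * Real.sin (((n : ℝ) + (N : ℝ) / 2) * t) := by
    refine card_nsmul_le_sum _ _ _ fun n hn => ?_
    have h4 := HH_one hQ hi (n := n) (by rw [mem_range] at hn; omega)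
    nlinarith [Real.neg_one_le_sin (((n : ℝ) + (N : ℝ) / 2) * t), sq_nonneg ‖HH Q 1 n‖]
  rw [card_range, nsmul_eq_mul] at a4
  have a5 : (Y : ℝ) ≤ 2 * ((N + 2 : ℕ) : ℝ) := by exact_mod_cast hYle
  have a6 : τ * (#(ev Q) : ℝ) ≤ 800 * ((a ^ N) ^ 2 * #B) := by
    refine le_of_mul_le_mul_left ?_ hd0
    nlinarith [mul_lt_mul_of_pos_left h3' hd0, mul_le_mul_of_nonneg_right a5
      (show 0 ≤ 4 * qq k ^ 2 by positivity), mul_le_mul_of_nonneg_right a5
      (show 0 ≤ (a ^ N) ^ 2 * #B by positivity)]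
  rw [div_le_iff₀ τ0] at h5
  refine le_of_mul_le_mul_left ?_ τ0
  calc τ * qq k ^ (N + 2) = qq k * (τ * qq k ^ (N + 1)) := by ring
    _ ≤ qq k * (800 * ((a ^ N) ^ 2 * #B)) := mul_le_mul_of_nonneg_left
      ((mul_le_mul_of_nonneg_left hc τ0.le).trans a6) (by positivity)
    _ = 800 * qq k * ((a ^ N) ^ 2 * #B) := by ring
    _ ≤ a ^ N * τ * ((a ^ N) ^ 2 * #B) := mul_le_mul_of_nonneg_right h5 (by positivity)
    _ = _ := by ring

theorem end_main {τ : ℝ} (τ0 : 0 < τ) (τ1 : τ ≤ 1 / 10) (hl : H18F.LOW_s k τ) (ε : ℝ) (hε : 0 < ε) :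
    ∃ d₀ : ℕ, ∀ Q : k[X], Q.Monic → Irreducible Q → d₀ ≤ Q.natDegree →
      (Nat.card k : ℝ) ^ ((1 - ε) * Q.natDegree) ≤ Set.ncard {χ : MulChar (AdjoinRoot Q) ℂ |
        χ ≠ 1 ∧ (∀ c : k, c ≠ 0 → χ (AdjoinRoot.mk Q (C c)) = 1) ∧
        ∃ θ : Fin (Q.natDegree - 2) → ℝ,
          (∀ u : ℂ, ∑ n ∈ Finset.range Q.natDegree,
              (∑ᶠ f ∈ {f : k[X] | f.Monic ∧ f.natDegree = n}, χ (AdjoinRoot.mk Q f)) * u ^ n =
            (1 - u) * ∏ j, (1 - ((√(Nat.card k) : ℝ) : ℂ) * Complex.exp (θ j * Complex.I) * u)) ∧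
          ∃ i j, i ≠ j ∧
            |θ i - θ j| ≤ (1 / 2 - τ / 1000) * (2 * Real.pi / ((Q.natDegree : ℝ) - 2))} := by
  have hq := two_le_qq (k := k)
  have hA : 1 < qq k ^ ε := Real.one_lt_rpow (by linarith) hε
  obtain ⟨N₀, h⟩ := eventually_atTop.1 (end_many τ0 τ1 hl hA)
  refine ⟨N₀ + 2, fun Q hQ hi hd => ?_⟩
  obtain ⟨N, hN⟩ : ∃ N, Q.natDegree = N + 2 := ⟨Q.natDegree - 2, by omega⟩
  have h1 := h N (by omega) Q hQ hi hN
  have e : ((N + 2 : ℕ) : ℝ) - 2 = N := by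
    push_cast
    ring
  rw [hN, Nat.card_eq_fintype_card, e]
  refine le_of_mul_le_mul_left (le_trans (le_of_eq ?_) (h1.trans (mul_le_mul
    (pow_le_pow_right₀ hA.le (Nat.le_add_right N 2)) ?_ (by positivity) (by positivity))))
    (by positivity : 0 < (qq k ^ ε) ^ (N + 2))
  · rw [← Real.rpow_mul_natCast (by linarith), ← qq, ← Real.rpow_add (by linarith),
      ← Real.rpow_natCast]
    congr 1
    ring
  rw [← Set.ncard_coe_finset]
  refine Nat.cast_le.2 (Set.ncard_le_ncard (fun χ hχ => ?_)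
    ((ev Q).finite_toSet.subset fun χ hχ => (mem_ev hQ).2 hχ.2.1))
  obtain ⟨h2, θ, hA, hg⟩ := mem_filter.1 hχ
  obtain ⟨h3, he⟩ := mem_erase.1 h2
  refine ⟨h3, (mem_ev hQ).1 he, θ, fun u => ?_, hg⟩
  refine Eq.trans (sum_congr rfl fun n _ => ?_) (eval_ser hA u)
  rw [AA, ← finsum_mem_coe_finset]
  congr 2
  ext f
  simp [mem_mon]

end

theorem end_row {k : Type} [Field k] [Fintype k] {τ : ℝ} (h0 : 0 < τ) (h1 : τ ≤ 1 / 10)
    (h : LOW_s k τ) : END_s k (τ / 1000) :=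
  fun ε hε => end_main h0 h1 h ε hε

end H18F

end
end

-- part Top
section

set_option autoImplicit false

open Polynomial Finset Filter
open scoped Classical BigOperators

noncomputable section
namespace H18F
open Pool.Agent.H4O (box mon prs qq)
open Pool.Agent.H48P (jac chi)
open Pool.Agent.MP_f0209c_nt.FF (mu ev MM HH AA)

theorem odd_low {p : ℕ} (hp : p.Prime) (h2 : p ≠ 2) : ∃ τ : ℝ, 0 < τ ∧ τ ≤ 1 / 10 ∧
    ∀ (k : Type) [Field k] [Fintype k] [CharP k p], LOW_s k τ := by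
  have h3 : 3 ≤ p := by have := hp.two_le; omega
  obtain ⟨A, R, r, hA, H⟩ := par_row p h3
  have hA' : (100 : ℝ) ≤ A := by exact_mod_cast hA
  refine ⟨1 / (2 * A), by positivity, one_div_le_one_div_of_le (by norm_num) (by linarith),
    fun k _ _ _ => ?_⟩
  have := Fact.mk hp
  have hq : 3 ≤ qq k := by
    obtain ⟨m, -, hm⟩ := FiniteField.card k p
    have h4 : p ≤ Fintype.card k := hm ▸ Nat.le_self_pow m.ne_zero p
    have h5 : 3 ≤ Fintype.card k := h3.trans h4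
    unfold qq
    exact_mod_cast h5
  have pcs : PCS_s k p := pcs_row h2
  have line : LINE_s k p := line_row h2 (char_row pcs (one_row h2 pcs)
    (two_row (burg_row h2 mom_row ene_row)))
  exact low_row hq hA off_row (var_row ort_row diag_row) poly_row (bil_row (cos_row cs_row
    (lln_row (fm_row maj_row) lev_row wt_row) (pair_row line (exc_row h2) gam_row wt_row) wt_row)
    wt_row poly_row H)

theorem main (p : ℕ) (hp : p.Prime) : ∃ η : ℝ, 0 < η ∧
    ∀ (k : Type) [Field k] [Finite k] [CharP k p] (ε : ℝ), 0 < ε →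
    ∃ d₀ : ℕ, ∀ Q : k[X], Q.Monic → Irreducible Q → d₀ ≤ Q.natDegree →
      (Nat.card k : ℝ) ^ ((1 - ε) * Q.natDegree) ≤ Set.ncard {χ : MulChar (AdjoinRoot Q) ℂ |
        χ ≠ 1 ∧ (∀ c : k, c ≠ 0 → χ (AdjoinRoot.mk Q (C c)) = 1) ∧
        ∃ θ : Fin (Q.natDegree - 2) → ℝ,
          (∀ u : ℂ, ∑ n ∈ Finset.range Q.natDegree,
              (∑ᶠ f ∈ {f : k[X] | f.Monic ∧ f.natDegree = n}, χ (AdjoinRoot.mk Q f)) * u ^ n =
            (1 - u) * ∏ j, (1 - ((√(Nat.card k) : ℝ) : ℂ) * Complex.exp (θ j * Complex.I) * u)) ∧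
          ∃ i j, i ≠ j ∧
            |θ i - θ j| ≤ (1 / 2 - η) * (2 * Real.pi / ((Q.natDegree : ℝ) - 2))} := by
  by_cases h2 : p = 2
  · subst h2
    exact Pool.Agent.MP_f0209c_nt.FF.main2
  · obtain ⟨τ, h0, h1, H⟩ := odd_low hp h2
    refine ⟨τ / 1000, by positivity, fun k _ _ _ => ?_⟩
    have := Fintype.ofFinite k
    exact end_row h0 h1 (H k)

end H18F

end
end
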