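import Pool.Agent.MP_f0209c_nt.FF.P6
import Pool.Agent.MP_a4a062_nt.H4O.B
import Pool.Agent.MP_a4a062_nt.H4O.C

-- part Fou
section

/-! A second moment by Fourier expansion on a finite abelian group (proof by helper27).
-/

set_option autoImplicit false
open Polynomial Finset
open scoped Classical

noncomputable section
namespace H18F

section Fou
variable {G : Type*} [AddCommGroup G] [Fintype G]

/-- unnormalised Fourier coefficient -/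
def fc27 (f : G → ℂ) (ψ : AddChar G ℂ) : ℂ := ∑ x, f x * ψ x

theorem parseval27 (f : G → ℂ) :
    ∑ ψ : AddChar G ℂ, ‖fc27 f ψ‖ ^ 2 = (Fintype.card G : ℝ) * ∑ x, ‖f x‖ ^ 2 := by
  have h1 : ∀ ψ : AddChar G ℂ, ((‖fc27 f ψ‖ ^ 2 : ℝ) : ℂ) =
      ∑ x, ∑ y, f x * (starRingEnd ℂ) (f y) * ψ (x - y) := by
    intro ψ
    rw [← Complex.normSq_eq_norm_sq, Complex.normSq_eq_conj_mul_self, mul_comm, fc27, map_sum,
      Finset.sum_mul_sum]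
    refine Finset.sum_congr rfl fun x _ => Finset.sum_congr rfl fun y _ => ?_
    rw [map_mul, sub_eq_add_neg, AddChar.map_add_eq_mul, AddChar.map_neg_eq_conj]
    ring
  have h2 : ((∑ ψ : AddChar G ℂ, ‖fc27 f ψ‖ ^ 2 : ℝ) : ℂ) =
      (((Fintype.card G : ℝ) * ∑ x, ‖f x‖ ^ 2 : ℝ) : ℂ) := by
    rw [Complex.ofReal_sum, Finset.sum_congr rfl fun ψ _ => h1 ψ, Finset.sum_comm,
      Complex.ofReal_mul, Complex.ofReal_sum, Finset.mul_sum]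
    refine Finset.sum_congr rfl fun x _ => ?_
    rw [Finset.sum_comm, Finset.sum_eq_single x]
    · rw [← Finset.mul_sum, AddChar.sum_apply_eq_ite, if_pos (sub_self x),
        ← Complex.normSq_eq_norm_sq, Complex.normSq_eq_conj_mul_self]
      push_cast
      ring
    · intro y _ hy
      rw [← Finset.mul_sum, AddChar.sum_apply_eq_ite, if_neg (sub_ne_zero.mpr hy.symm), mul_zero]
    · intro h
      exact absurd (Finset.mem_univ x) h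
  exact_mod_cast h2

theorem fc27_shift (f : G → ℂ) (ψ : AddChar G ℂ) (u : G) :
    fc27 (fun x => f (x + u)) ψ * ψ u = fc27 f ψ := by
  unfold fc27
  rw [Finset.sum_mul, ← Equiv.sum_comp (Equiv.addRight u) (fun x => f x * ψ x)]
  refine Finset.sum_congr rfl fun x _ => ?_
  rw [Equiv.coe_addRight, AddChar.map_add_eq_mul, mul_assoc]

theorem fc27_sum {ι : Type*} (I : Finset ι) (F : ι → G → ℂ) (ψ : AddChar G ℂ) :
    fc27 (fun x => ∑ i ∈ I, F i x) ψ = ∑ i ∈ I, fc27 (F i) ψ := by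
  unfold fc27
  rw [Finset.sum_comm]
  exact Finset.sum_congr rfl fun x _ => Finset.sum_mul _ _ _

/-- FOU: `F i` is invariant under the shifts `U i a`, `a ∈ S`; every character is trivial on the shifts of at most
`T` indices, or on one of the families `La d`. -/
theorem fou27 {ι σ δ κ : Type*} (I : Finset ι) (S : Finset σ) (D : Finset δ) (K : Finset κ)
    (F : ι → G → ℂ) (U : ι → σ → G) (La : δ → κ → G) (T M : ℝ) (B : δ → ℝ) (hT : 0 ≤ T)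
    (hK : K.Nonempty)
    (hinv : ∀ i ∈ I, ∀ a ∈ S, ∀ x, F i (x + U i a) = F i x)
    (hM : ∀ i ∈ I, ∀ x, ‖F i x‖ ≤ M)
    (hdi : ∀ ψ : AddChar G ℂ, ((I.filter fun i => ∀ a ∈ S, ψ (U i a) = 1).card : ℝ) ≤ T ∨
      ∃ d ∈ D, ∀ v ∈ K, ψ (La d v) = 1)
    (hB : ∀ d ∈ D, ∀ x, ‖∑ v ∈ K, ∑ i ∈ I, F i (x + La d v)‖ ≤ B d * K.card) :
    ∑ x, ‖∑ i ∈ I, F i x‖ ^ 2 ≤ (Fintype.card G : ℝ) * (T * I.card * M ^ 2 + ∑ d ∈ D, B d ^ 2) := by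
  have hG : (0 : ℝ) < Fintype.card G := by exact_mod_cast Fintype.card_pos
  have hKp : (0 : ℝ) < K.card := by exact_mod_cast hK.card_pos
  set P : δ → G → ℂ := fun d x => ((K.card : ℂ))⁻¹ * ∑ v ∈ K, ∑ i ∈ I, F i (x + La d v) with hP
  have key : ∀ ψ : AddChar G ℂ, ‖fc27 (fun x => ∑ i ∈ I, F i x) ψ‖ ^ 2 ≤
      T * ∑ i ∈ I, ‖fc27 (F i) ψ‖ ^ 2 + ∑ d ∈ D, ‖fc27 (P d) ψ‖ ^ 2 := by
    intro ψ
    have n1 : 0 ≤ ∑ i ∈ I, ‖fc27 (F i) ψ‖ ^ 2 := Finset.sum_nonneg fun _ _ => sq_nonneg _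
    have n2 : 0 ≤ ∑ d ∈ D, ‖fc27 (P d) ψ‖ ^ 2 := Finset.sum_nonneg fun _ _ => sq_nonneg _
    rcases hdi ψ with h | ⟨d, hd, h⟩
    · have e1 : fc27 (fun x => ∑ i ∈ I, F i x) ψ =
          ∑ i ∈ I.filter (fun i => ∀ a ∈ S, ψ (U i a) = 1), fc27 (F i) ψ := by
        rw [fc27_sum]
        refine (Finset.sum_subset (Finset.filter_subset _ _) fun i hi hn => ?_).symm
        rw [Finset.mem_filter, not_and] at hn
        have hn' := hn hi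
        push Not at hn'
        obtain ⟨a, ha, hne⟩ := hn'
        have e2 := fc27_shift (F i) ψ (U i a)
        rw [show (fun x => F i (x + U i a)) = F i from funext (hinv i hi a ha)] at e2
        have e3 : fc27 (F i) ψ * (ψ (U i a) - 1) = 0 := by rw [mul_sub, e2, mul_one, sub_self]
        exact (mul_eq_zero.mp e3).resolve_right (sub_ne_zero.mpr hne)
      have e4 : ‖fc27 (fun x => ∑ i ∈ I, F i x) ψ‖ ^ 2 ≤
          (∑ i ∈ I.filter (fun i => ∀ a ∈ S, ψ (U i a) = 1), ‖fc27 (F i) ψ‖) ^ 2 := by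
        rw [e1]
        exact pow_le_pow_left₀ (norm_nonneg _) (norm_sum_le _ _) 2
      have e5 := sq_sum_le_card_mul_sum_sq (s := I.filter (fun i => ∀ a ∈ S, ψ (U i a) = 1))
        (f := fun i => ‖fc27 (F i) ψ‖)
      have e6 : ∑ i ∈ I.filter (fun i => ∀ a ∈ S, ψ (U i a) = 1), ‖fc27 (F i) ψ‖ ^ 2 ≤
          ∑ i ∈ I, ‖fc27 (F i) ψ‖ ^ 2 :=
        Finset.sum_le_sum_of_subset_of_nonneg (Finset.filter_subset _ _) fun _ _ _ => sq_nonneg _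
      have e7 := mul_le_mul h e6 (Finset.sum_nonneg fun _ _ => sq_nonneg _) hT
      linarith
    · have e1 : fc27 (P d) ψ = fc27 (fun x => ∑ i ∈ I, F i x) ψ := by
        have e2 : fc27 (P d) ψ = ((K.card : ℂ))⁻¹ *
            fc27 (fun x => ∑ v ∈ K, ∑ i ∈ I, F i (x + La d v)) ψ := by
          unfold fc27
          rw [Finset.mul_sum]
          exact Finset.sum_congr rfl fun x _ => mul_assoc _ _ _
        have e3 : ∀ v ∈ K, fc27 (fun x => ∑ i ∈ I, F i (x + La d v)) ψ =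
            fc27 (fun x => ∑ i ∈ I, F i x) ψ := by
          intro v hv
          have e4 := fc27_shift (fun x => ∑ i ∈ I, F i x) ψ (La d v)
          rwa [h v hv, mul_one] at e4
        have hc : (K.card : ℂ) ≠ 0 := by exact_mod_cast hK.card_pos.ne'
        rw [e2, fc27_sum K (fun v x => ∑ i ∈ I, F i (x + La d v)) ψ, Finset.sum_congr rfl e3,
          Finset.sum_const, nsmul_eq_mul, ← mul_assoc, inv_mul_cancel₀ hc, one_mul]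
      have e5 : ‖fc27 (P d) ψ‖ ^ 2 ≤ ∑ d ∈ D, ‖fc27 (P d) ψ‖ ^ 2 :=
        Finset.single_le_sum (f := fun d => ‖fc27 (P d) ψ‖ ^ 2) (fun _ _ => sq_nonneg _) hd
      rw [← e1]
      have := mul_nonneg hT n1
      linarith
  have h1 := Finset.sum_le_sum fun ψ (_ : ψ ∈ (Finset.univ : Finset (AddChar G ℂ))) => key ψ
  rw [parseval27, Finset.sum_add_distrib, ← Finset.mul_sum, Finset.sum_comm,
    Finset.sum_comm (t := D), Finset.sum_congr rfl fun i _ => parseval27 (F i),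
    Finset.sum_congr rfl fun d _ => parseval27 (P d)] at h1
  have h2 : ∑ i ∈ I, (Fintype.card G : ℝ) * ∑ x, ‖F i x‖ ^ 2 ≤
      ∑ _i ∈ I, (Fintype.card G : ℝ) * ((Fintype.card G : ℝ) * M ^ 2) := by
    refine Finset.sum_le_sum fun i hi => mul_le_mul_of_nonneg_left ?_ hG.le
    calc ∑ x, ‖F i x‖ ^ 2 ≤ ∑ _x : G, M ^ 2 :=
          Finset.sum_le_sum fun x _ => pow_le_pow_left₀ (norm_nonneg _) (hM i hi x) 2
      _ = _ := by rw [Finset.sum_const, nsmul_eq_mul, Finset.card_univ]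
  have h3 : ∑ d ∈ D, (Fintype.card G : ℝ) * ∑ x, ‖P d x‖ ^ 2 ≤
      ∑ d ∈ D, (Fintype.card G : ℝ) * ((Fintype.card G : ℝ) * B d ^ 2) := by
    refine Finset.sum_le_sum fun d hd => mul_le_mul_of_nonneg_left ?_ hG.le
    have hx : ∀ x, ‖P d x‖ ≤ B d := by
      intro x
      rw [hP]
      simp only [norm_mul, norm_inv, Complex.norm_natCast]
      rw [inv_mul_le_iff₀ hKp, mul_comm]
      exact hB d hd x
    calc ∑ x, ‖P d x‖ ^ 2 ≤ ∑ _x : G, B d ^ 2 :=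
          Finset.sum_le_sum fun x _ => pow_le_pow_left₀ (norm_nonneg _) (hx x) 2
      _ = _ := by rw [Finset.sum_const, nsmul_eq_mul, Finset.card_univ]
  rw [Finset.sum_const, nsmul_eq_mul] at h2
  rw [← Finset.mul_sum, ← Finset.mul_sum, ← Finset.mul_sum] at h3
  rw [← Finset.mul_sum D] at h1
  have h4 := mul_le_mul_of_nonneg_left h2 hT
  refine le_of_mul_le_mul_left ?_ hG
  nlinarith

end Fou

end H18F

end
end

-- part GR4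
section

/-! One line: van der Corput with periodic factors, and the Moebius function on a general line. -/

set_option autoImplicit false

open Polynomial Finset Pool.Agent.H48P Pool.Agent.H48G Pool.Agent.H4O
open scoped Classical BigOperators

noncomputable section
namespace H18F.GR

variable {k : Type} [Field k] [Fintype k]

/-- One prime with the Jacobi symbol, all other factors periodic with short periods. -/
theorem gr_min (p : ℕ) [Fact p.Prime] [CharP k p] (hp : p ≠ 2) {π yy : k[X]} (hπ : π.Monic)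
    (hi : Irreducible π) (hy : ¬π ∣ yy) (f : k[X]) {la T h0 R : ℕ} (Cs : Fin R → k[X])
    (hC : ∀ j, ¬π ∣ Cs j) (hT : ∀ j, (Cs j).natDegree ≤ T) (F : Fin R → k[X] → ℝ)
    (hF : ∀ j s, |F j s| ≤ 1) (hper : ∀ j s t, F j (s + Cs j * t) = F j s)
    (hN : T + h0 ≤ la) (h1 : h0 ≤ π.natDegree) {Ω : Finset k[X]}
    (hΩ : ∀ s, s ∈ Ω ↔ s.degree < la) :
    |𝔼 s ∈ Ω, jac π (f + yy * s ^ p) * ∏ j, F j s| ^ 2 ^ R ≤
      5 * 2 ^ R * √((Fintype.card k : ℝ) ^ π.natDegree) /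
        (Fintype.card k : ℝ) ^ min la π.natDegree + 2 ^ R / (Fintype.card k : ℝ) ^ h0 := by
  have := Fact.mk hi
  have hq1 : (1 : ℝ) ≤ Fintype.card k := by exact_mod_cast Fintype.card_pos
  have hcop : IsCoprime π yy := hi.coprime_iff_not_dvd.2 hy
  obtain ⟨f', hf'⟩ : ∃ f' : k[X], π ∣ f - yy * f' := by
    obtain ⟨a, b, hab⟩ := hcop
    exact ⟨b * f, a * f, by linear_combination (-f) * hab⟩
  have e0 : ∀ s : k[X], jac π (f + yy * s ^ p) =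
      jac π yy * jac π (f' + 1 ^ (p - 1) * s ^ p) := fun s => by
    rw [← jac_mul_right hπ]
    refine jac_congr hπ ?_
    obtain ⟨c, hc⟩ := hf'
    exact ⟨c, by rw [one_pow]; linear_combination hc⟩
  let A := AdjoinRoot π
  let mk : k[X] →+* A := AdjoinRoot.mk π
  let lf : A → k[X] := Function.surjInv (AdjoinRoot.mk_surjective (g := π))
  have hlf : ∀ a, mk (lf a) = a := Function.surjInv_eq _
  let Ψ : A → k[X] → ℝ := fun a s => jac π (f' + 1 ^ (p - 1) * (s + lf a) ^ p)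
  have cg : ∀ u v : k[X], mk u = mk v →
      jac π (f' + 1 ^ (p - 1) * u ^ p) = jac π (f' + 1 ^ (p - 1) * v ^ p) :=
    fun u v e => jac_congr hπ (AdjoinRoot.mk_eq_mk.1 (by
      change mk _ = mk _
      simp only [map_add, map_mul, map_pow, e]))
  let V : Finset k[X] := Ω.filter fun v => v.degree < (h0 : WithBot ℕ)
  have hV : ∀ v, v ∈ V ↔ v.degree < (h0 : WithBot ℕ) := fun v => by
    rw [mem_filter, hΩ]
    exact ⟨fun e => e.2, fun e => ⟨e.trans_le (by exact_mod_cast (by omega : h0 ≤ la)), e⟩⟩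
  have main := vdc_list Ω V ⟨0, (hV 0).2 (by simp)⟩
    (fun v hv w hw => (hV _).2 ((degree_sub_le _ _).trans_lt (max_lt ((hV _).1 hv) ((hV _).1 hw))))
    Ψ (fun a x => abs_jac_le _ _)
    (β := 5 * 2 ^ R * √((Fintype.card k : ℝ) ^ π.natDegree) /
        (Fintype.card k : ℝ) ^ min la π.natDegree) (by positivity) R
    (fun i => AddMonoidHom.mulLeft (Cs i)) (fun i v => mk (Cs i * v)) F [0]
    (fun i x hx v hv => ?_) (fun i v hv w hw e => ?_) (fun i a x _ v _ => ?_)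
    (fun i x _ => hF _ _) (fun i x _ v _ => ?_) ⟨0, by simp⟩ (fun L hL hL1 => ?_)
  · have e : ∀ s, jac π (f + yy * s ^ p) * ∏ j, F j s =
        jac π yy * ((∏ i, F i s) * (([0] : List A).map fun a => Ψ a s).prod) := fun s => by
      have : Ψ 0 s = jac π (f' + 1 ^ (p - 1) * s ^ p) := cg _ _ (by rw [map_add, hlf, add_zero])
      simp only [List.map_cons, List.map_nil, List.prod_cons, List.prod_nil, this, e0]
      ring
    simp only [e]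
    rw [← mul_expect, abs_mul, abs_jac hπ hcop, one_mul]
    refine main.trans ?_
    rw [card_box5 hV]
    push_cast
    gcongr
    simp
  · rw [hΩ] at hx ⊢
    refine (degree_add_le _ _).trans_lt (max_lt hx ?_)
    rcases eq_or_ne v 0 with rfl | v0
    · simp
    have z0 : Cs i ≠ 0 := fun e => hC i (e ▸ dvd_zero π)
    have d1 := (natDegree_lt_iff_degree_lt v0).2 ((hV v).1 hv)
    have d2 := hT i
    rw [AddMonoidHom.coe_mulLeft, ← natDegree_lt_iff_degree_lt (mul_ne_zero z0 v0),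
      natDegree_mul z0 v0]
    omega
  · have d1 : π ∣ Cs i * (v - w) := by rw [mul_sub]; exact AdjoinRoot.mk_eq_mk.1 e
    have d2 := (hi.prime.dvd_or_dvd d1).resolve_left (hC i)
    refine sub_eq_zero.1 (eq_zero_of_dvd_of_degree_lt d2 ?_)
    rw [degree_eq_natDegree hi.ne_zero]
    exact ((degree_sub_le _ _).trans_lt (max_lt ((hV _).1 hv) ((hV _).1 hw))).trans_le
      (by exact_mod_cast h1)
  · exact cg _ _ (by
      simp only [AddMonoidHom.coe_mulLeft, map_add, hlf]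
      ring)
  · rw [AddMonoidHom.coe_mulLeft, hper]
  · obtain ⟨a, ha⟩ := hL1
    obtain ⟨i₀, hi₀⟩ := get_simple L a (by convert ha)
    have hb := base_line p hp hπ hi (y := 1) (fun e => hi.not_isUnit (isUnit_of_dvd_one e)) f' hΩ
      (fun i : Fin L.length => lf (L.get i)) i₀ fun i e =>
      hi₀ i (by rw [← hlf (L.get i), ← hlf (L.get i₀)]; exact AdjoinRoot.mk_eq_mk.2 e)
    have e : ∀ s, (L.map fun a => Ψ a s).prod =
        ∏ i : Fin L.length, jac π (f' + 1 ^ (p - 1) * (s + lf (L.get i)) ^ p) := fun s => by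
      rw [← List.prod_ofFn, ← List.ofFn_getElem_eq_map]
      rfl
    simp only [e]
    rw [expect_eq_sum_div_card, card_box5 hΩ, abs_div, Nat.abs_cast]
    push_cast
    rw [div_le_iff₀ (by positivity)]
    refine hb.trans (le_of_eq ?_)
    rw [Fintype.card_fin, hL]
    simp

/-- Row GR: the prime is not longer than the line. -/
theorem gr (p : ℕ) [Fact p.Prime] [CharP k p] (hp : p ≠ 2) {π yy : k[X]} (hπ : π.Monic)
    (hi : Irreducible π) (hy : ¬π ∣ yy) (f : k[X]) {la T h0 R : ℕ} (Cs : Fin R → k[X])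
    (hC : ∀ j, ¬π ∣ Cs j) (hT : ∀ j, (Cs j).natDegree ≤ T) (F : Fin R → k[X] → ℝ)
    (hF : ∀ j s, |F j s| ≤ 1) (hper : ∀ j s t, F j (s + Cs j * t) = F j s)
    (hN : T + h0 ≤ la) (h1 : h0 ≤ π.natDegree) (h2 : π.natDegree ≤ la) {Ω : Finset k[X]}
    (hΩ : ∀ s, s ∈ Ω ↔ s.degree < la) :
    |𝔼 s ∈ Ω, jac π (f + yy * s ^ p) * ∏ j, F j s| ^ 2 ^ R ≤
      5 * 2 ^ R / √((Fintype.card k : ℝ) ^ π.natDegree) + 2 ^ R / (Fintype.card k : ℝ) ^ h0 := by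
  refine (gr_min p hp hπ hi hy f Cs hC hT F hF hper hN h1 hΩ).trans (le_of_eq ?_)
  have hq : (0 : ℝ) < (Fintype.card k : ℝ) ^ π.natDegree := by
    have : (0 : ℝ) < Fintype.card k := by exact_mod_cast Fintype.card_pos
    positivity
  rw [min_eq_right h2, mul_div_assoc, Real.sqrt_div_self', mul_one_div]

/-- The Moebius function of a product. -/
theorem mu_mul {d a : k[X]} (hd : d.Monic) (ha : a ≠ 0) :
    (if Squarefree (d * a) then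
      (-1 : ℝ) ^ (UniqueFactorizationMonoid.factors (d * a)).card else 0) =
      (if Squarefree d then (-1 : ℝ) ^ (UniqueFactorizationMonoid.factors d).card else 0) *
        (if Squarefree a then (-1 : ℝ) ^ (UniqueFactorizationMonoid.factors a).card else 0) *
          jac (d ^ 2) a := by
  rw [pow_two, jac_mul_left hd hd, card_factors_mul hd.ne_zero ha, pow_add]
  by_cases hc : IsCoprime d a
  · rw [jac_mul_self hd hc, mul_one]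
    have e : Squarefree (d * a) ↔ Squarefree d ∧ Squarefree a := by
      rw [squarefree_mul_iff]
      exact ⟨fun h => h.2, fun h => ⟨hc.isRelPrime, h⟩⟩
    by_cases h1 : Squarefree d <;> by_cases h2 : Squarefree a <;> simp [e, h1, h2]
  · have h0 : jac d a = 0 := by
      by_contra h
      exact hc ((jac_ne_zero hd).1 h)
    rw [h0, if_neg fun h => hc (squarefree_mul_iff.1 h).1.isCoprime]
    simp

/-- Row FORM: the Moebius function on the line `E + h s ^ p`, no coprimality assumed. -/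
theorem form (p : ℕ) [Fact p.Prime] [CharP k p] (hp : p ≠ 2) {d0 E1 h1 V : k[X]} {w : k}
    (hd : d0.Monic) (hE : E1.Monic) (hh : h1 ≠ 0) (hc : IsCoprime h1 E1) (hw : w ≠ 0)
    (hV : V.Monic) (hW : wronskian (d0 * E1) (d0 * h1) = C w * V) :
    d0 ^ 2 ∣ V ∧ ∃ c : ℝ, |c| ≤ 1 ∧ ∀ s : k[X], (h1 * s ^ p).degree < E1.degree →
      (if Squarefree (d0 * E1 + d0 * h1 * s ^ p) then
        (-1 : ℝ) ^ (UniqueFactorizationMonoid.factors (d0 * E1 + d0 * h1 * s ^ p)).card else 0) =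
        c * jac V (E1 + h1 * s ^ p) := by
  have hpp : p.Prime := Fact.out
  have h2 : (2 : k) ≠ 0 := fun e => hp ((Nat.prime_dvd_prime_iff_eq hpp Nat.prime_two).1
    ((CharP.cast_eq_zero_iff k p 2).1 (by exact_mod_cast e)))
  have hW1 : wronskian (d0 * E1) (d0 * h1) = d0 ^ 2 * wronskian E1 h1 := by
    simp only [wronskian, derivative_mul]
    ring
  have hCw : C w⁻¹ * C w = (1 : k[X]) := by rw [← C_mul, inv_mul_cancel₀ hw, C_1]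
  have hV1 : V = d0 ^ 2 * (C w⁻¹ * wronskian E1 h1) := by
    linear_combination (-C w⁻¹) * hW + C w⁻¹ * hW1 - V * hCw
  refine ⟨⟨_, hV1⟩, ?_⟩
  set V1 := C w⁻¹ * wronskian E1 h1 with hV1d
  have hV1m : V1.Monic := (hd.pow 2).of_mul_monic_left (hV1 ▸ hV)
  set l := h1.leadingCoeff with hl
  have l0 : l ≠ 0 := leadingCoeff_ne_zero.2 hh
  set g := h1 * C l⁻¹ with hg
  have hgm : g.Monic := monic_mul_leadingCoeff_inv hh
  have hCl : C l⁻¹ * C l = (1 : k[X]) := by rw [← C_mul, inv_mul_cancel₀ l0, C_1]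
  have hgc : IsCoprime g E1 := by
    obtain ⟨a, b, hab⟩ := hc
    exact ⟨a * C l, b, by rw [hg]; linear_combination hab + a * h1 * hCl⟩
  obtain ⟨c, hc1, hc2⟩ := mu_line h2 (f := E1) (V := V1) (w := -(w * l⁻¹)) hgm hgc
    (neg_ne_zero.2 (mul_ne_zero hw (inv_ne_zero l0))) (by
      rw [hg, hV1d, derivative_mul, derivative_C, C_neg, C_mul, wronskian]
      linear_combination (C l⁻¹ * (E1 * derivative h1 - derivative E1 * h1)) * hCw)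
    E1.natDegree
  refine ⟨(if Squarefree d0 then (-1 : ℝ) ^ (UniqueFactorizationMonoid.factors d0).card else 0) * c,
    ?_, fun s hs => ?_⟩
  · rw [abs_mul, hc1, mul_one]
    split_ifs <;> simp
  · have e1 : E1 + h1 * s ^ p = E1 + g * (C l * s ^ p) := by
      rw [hg]; linear_combination (-h1 * s ^ p) * hCl
    have hm : (E1 + h1 * s ^ p).Monic := hE.add_of_left hs
    have hn : (E1 + h1 * s ^ p).natDegree = E1.natDegree := natDegree_add_eq_left_of_degree_lt hs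
    have h3 := hc2 (C l * s ^ p) (by
      rw [derivative_mul, derivative_C, derivative_pow, CharP.cast_eq_zero]; simp)
      (e1 ▸ hm) (e1 ▸ hn)
    rw [← e1] at h3
    rw [show d0 * E1 + d0 * h1 * s ^ p = d0 * (E1 + h1 * s ^ p) by ring, mu_mul hd hm.ne_zero, h3,
      hV1, jac_mul_left (hd.pow 2) hV1m]
    ring

/-- Row FORM in the wording of the paper: `d0` is the monic gcd, `s` runs over a box. -/
theorem form_box (p : ℕ) [Fact p.Prime] [CharP k p] (hp : p ≠ 2) {E h V : k[X]} {w : k}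
    (hE : E.Monic) (hh : h ≠ 0) (hw : w ≠ 0) (hV : V.Monic) (hW : wronskian E h = C w * V)
    {len : ℕ} (hl : p * (len - 1) + h.natDegree < E.natDegree) :
    ∃ d0 E1 h1 : k[X], d0.Monic ∧ E1.Monic ∧ E = d0 * E1 ∧ h = d0 * h1 ∧ IsCoprime h1 E1 ∧
      d0 ^ 2 ∣ V ∧ ∃ c : ℝ, |c| ≤ 1 ∧ ∀ s : k[X], s.degree < len →
        (if Squarefree (E + s ^ p * h) then
          (-1 : ℝ) ^ (UniqueFactorizationMonoid.factors (E + s ^ p * h)).card else 0) =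
          c * jac V (E1 + s ^ p * h1) := by
  obtain ⟨E1, h1, d0, hcop, rfl, rfl, hd⟩ : ∃ E1 h1 d0 : k[X], IsCoprime h1 E1 ∧ E = d0 * E1 ∧
      h = d0 * h1 ∧ d0.Monic := by
    have hg : gcd E h ≠ 0 := gcd_ne_zero_of_left hE.ne_zero
    obtain ⟨a, b, ha, hb, hu⟩ := extract_gcd E h
    exact ⟨a, b, gcd E h, ((gcd_isUnit_iff a b).1 hu).symm, ha, hb, by
      have := monic_normalize hg
      rwa [_root_.normalize_gcd] at this⟩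
  have hE1 : E1.Monic := hd.of_mul_monic_left hE
  have hh1 : h1 ≠ 0 := right_ne_zero_of_mul hh
  obtain ⟨hv, c, hc, hs⟩ := form p hp hd hE1 hh1 hcop hw hV hW
  refine ⟨d0, E1, h1, hd, hE1, rfl, rfl, hcop, hv, c, hc, fun s hs' => ?_⟩
  have := hs s (by
    rcases eq_or_ne s 0 with rfl | s0
    · rw [zero_pow (Fact.out : p.Prime).ne_zero, mul_zero, degree_zero]
      exact bot_lt_iff_ne_bot.2 fun e => hE1.ne_zero (degree_eq_bot.1 e)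
    have d1 := (natDegree_lt_iff_degree_lt s0).2 hs'
    rw [natDegree_mul hd.ne_zero hh1, natDegree_mul hd.ne_zero hE1.ne_zero] at hl
    refine degree_lt_degree ?_
    rw [natDegree_mul hh1 (pow_ne_zero _ s0), natDegree_pow]
    have : p * s.natDegree ≤ p * (len - 1) := Nat.mul_le_mul_left _ (by omega)
    omega)
  rw [show d0 * E1 + s ^ p * (d0 * h1) = d0 * E1 + d0 * h1 * s ^ p by ring, this, mul_comm h1]

end H18F.GR

end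
end

-- part Defs
section

/-! Small gaps between zeros in odd characteristic: definitions and row statements. -/

set_option autoImplicit false

open Polynomial Finset Filter
open scoped Classical BigOperators

noncomputable section
namespace H18F
open Pool.Agent.H4O (box mon prs qq)
open Pool.Agent.H48P (jac chi)
open Pool.Agent.MP_f0209c_nt.FF (mu ev MM HH AA)

section
variable {k : Type} [Field k] [Fintype k]

theorem box_eq (n : ℕ) : Pool.Agent.MP_a4a062_nt.C2.box k n = box k n := rfl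
theorem mon_eq (n : ℕ) : Pool.Agent.MP_a4a062_nt.C2.mon k n = mon k n := rfl
theorem prs_eq (n : ℕ) : Pool.Agent.MP_a4a062_nt.C2.prs k n = prs k n := rfl
theorem qq_eq : Pool.Agent.MP_a4a062_nt.C2.qq k = qq k := rfl
omit [Fintype k] in
theorem mu_def (f : k[X]) : mu f = if Squarefree f then
    (-1 : ℝ) ^ (UniqueFactorizationMonoid.factors f).card else 0 := rfl

/-- The indicator of divisibility. -/
def dv (e f : k[X]) : ℝ := if e ∣ f then 1 else 0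

/-- The number of tuples of primes of degrees `y, …, y + R - 1` that divide `W ≠ 0`. -/
def wt (R y : ℕ) (W : k[X]) : ℝ :=
  if W = 0 then 0 else ∏ i ∈ range R, (#{π ∈ prs k (y + i) | π ∣ W} : ℝ)

/-- The two Jacobi symbols on a line. -/
def jj (p : ℕ) (V₁ a₁ b₁ V₂ a₂ b₂ s : k[X]) : ℝ :=
  jac V₁ (a₁ + s ^ p * b₁) * jac V₂ (a₂ + s ^ p * b₂)

/-- All primes of `Q` have degree at most `T`. -/
def Sm (T : ℕ) (Q : k[X]) : Prop := ∀ ρ : k[X], ρ.Monic → Irreducible ρ → ρ ∣ Q → ρ.natDegree ≤ T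

/-- A function bounded by one with period `e`. -/
def Per (e : k[X]) (Θ : k[X] → ℝ) : Prop := (∀ s, |Θ s| ≤ 1) ∧ ∀ s t, Θ (s + e * t) = Θ s

/-- The function on the second side of the bilinear form. -/
def GG (n₁ : ℕ) (E : Finset k[X]) (a : k[X]) : ℝ :=
  if a ∈ mon k n₁ then mu a * ∑ e ∈ E, dv e a else 0

variable (k)

/-- The mean of `wt`. -/
def ro (R y : ℕ) : ℝ := ∏ i ∈ range R, (#(prs k (y + i)) : ℝ) / qq k ^ (y + i)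

/-- The primes of the test function. -/
def PP (u : ℕ) : Finset k[X] := (Ioc (6 * u) (12 * u)).biUnion (prs k)

/-- The sum of the reciprocal norms of these primes. -/
def si (u : ℕ) : ℝ := ∑ P ∈ PP k u, 1 / qq k ^ P.natDegree

end

/-- The total degree of a tuple. -/
def dg (R y : ℕ) : ℕ := ∑ i ∈ range R, (y + i)

/-- The inequalities between the parameters of a line. -/
def Num (l T h al kk y r B : ℕ) : Prop :=
  T + 2 * h ≤ l ∧ T + h + al ≤ l ∧ l + al ≤ 2 * (T + h) ∧ kk + 4 * h ≤ l + al ∧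
  2 * kk + 4 * h ≤ 2 * (T + h) + l + al ∧ kk ≤ 2 * T ∧ 1 ≤ al ∧ al ≤ T ∧ 2 * h ≤ y ∧ y ≤ T ∧
  2 * B ≤ r * (T + 1) ∧ 1 ≤ h

/-- All inequalities between the parameters; `p * (6 * u + 1)` is the degree of the directions. -/
def Par (p R r u n l T h al kk y a b H : ℕ) : Prop :=
  Num l T h al kk y r (2 * n) ∧ p * (6 * u + 1) + p * l + 12 * u + 1 ≤ n ∧
  12 * u + p * (6 * u + 1) + p * (6 * u) < y ∧ y + R ≤ T ∧ 1 ≤ R ∧
  n + 12 * u + p * (6 * u + 1) ≤ dg R y + kk ∧ kk + T + y + 12 * u + 1 ≤ n ∧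
  3 * y + 12 * u + 1 ≤ n ∧ 36 * u + p * (6 * u + 1) ≤ n ∧
  p * (a + b + 1) + (p - 1) * ((p - 1) * (p * (6 * u + 1))) ≤ p * (l - p * (6 * u)) ∧
  dg R y / p ≤ a ∧ a + b + p * (a + 1 - b) + H ≤ dg R y ∧
  dg R y + ((p * (l - p * (6 * u)) + (p - 1) * (p * (6 * u + 1))) / p + 1) + H ≤
    p * (l - p * (6 * u)) ∧
  p * (6 * u) ≤ H ∧ 40 * u * 2 ^ (2 * r + 4) ≤ h ∧ 40 * u ≤ y ∧ l ≤ n ∧ 1 ≤ u

/-! ### Character sums on one line -/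

def MOM_s : Prop := ∀ (A F₁ F₂ : Type) [AddCommGroup A] [Field F₁] [Fintype F₁] [Field F₂]
  [Fintype F₂], (2 : F₁) ≠ 0 → (2 : F₂) ≠ 0 → ∀ (φ₁ : A →+ F₁) (φ₂ : A →+ F₂) (U : Finset A),
  U.Nonempty → (∀ a ∈ U, ∀ b ∈ U, a + b ∈ U) → Set.InjOn φ₁ U → Set.InjOn φ₂ U →
  ∀ L : List A, (∀ v ∈ L, v ∈ U) → (∃ v, L.count v = 1) →
  ∑ x : F₁ × F₂, (𝔼 b ∈ U,
      (L.map fun v => chi (x.1 + φ₁ (v + b)) * chi (x.2 + φ₂ (v + b))).prod) ^ 4 ≤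
    9 * (L.length : ℝ) ^ 2 * (Fintype.card F₁ * Fintype.card F₂) / (#U : ℝ) ^ 2 +
      400 * (L.length : ℝ) ^ 2 * (√(Fintype.card F₁) * √(Fintype.card F₂))

section
variable (k : Type) [Field k] [Fintype k] (p : ℕ)

def ENE_s : Prop := ∀ (K₁ K₂ r₁ r₂ : k[X]) (l al : ℕ), K₁.Monic → Irreducible K₁ → K₂.Monic →
  Irreducible K₂ → K₁ ≠ K₂ → al ≤ l → al < K₁.natDegree → al < K₂.natDegree →
  l + al ≤ K₁.natDegree + K₂.natDegree →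
  (#{w ∈ (prs k al ×ˢ box k l) ×ˢ (prs k al ×ˢ box k l) |
      K₁ ∣ (w.1.2 + r₁) * w.2.1 - (w.2.2 + r₁) * w.1.1 ∧
      K₂ ∣ (w.1.2 + r₂) * w.2.1 - (w.2.2 + r₂) * w.1.1} : ℝ) ≤ 2 * #(prs k al) * qq k ^ l

def BURG_s : Prop := ∀ (K₁ a₁ b₁ K₂ a₂ b₂ : k[X]) (l al T kk h : ℕ), K₁.Monic → Irreducible K₁ →
  K₂.Monic → Irreducible K₂ → K₁ ≠ K₂ → ¬ K₁ ∣ b₁ → ¬ K₂ ∣ b₂ → 1 ≤ al → al < T → T + al ≤ l →
  T ≤ K₁.natDegree → T ≤ K₂.natDegree → K₁.natDegree ≤ kk → K₂.natDegree ≤ kk →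
  l + al ≤ 2 * T → kk + h ≤ l + al → 2 * kk + h ≤ 2 * T + l + al →
  ∀ L : List k[X], (∀ v ∈ L, v ∈ box k T) → (∃ v, L.count v = 1) →
  |𝔼 w ∈ prs k al ×ˢ box k al ×ˢ box k (l - al),
      (L.map fun v => jj p K₁ a₁ b₁ K₂ a₂ b₂ (w.1 * (w.2.2 + v) + w.2.1)).prod| ^ 4 ≤
    2000 * al * (L.length : ℝ) ^ 2 / qq k ^ h

def TWO_s : Prop := ∀ (K₁ a₁ b₁ K₂ a₂ b₂ : k[X]) (l al T kk h R : ℕ) (Cs : Fin R → k[X])
  (F : Fin R → k[X] → ℝ), K₁.Monic → Irreducible K₁ → K₂.Monic → Irreducible K₂ → K₁ ≠ K₂ →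
  ¬ K₁ ∣ b₁ → ¬ K₂ ∣ b₂ → 1 ≤ al → al ≤ T → 1 ≤ h → T + h + al ≤ l →
  T + h ≤ K₁.natDegree → T + h ≤ K₂.natDegree → K₁.natDegree ≤ kk → K₂.natDegree ≤ kk →
  l + al ≤ 2 * (T + h) → kk + 4 * h ≤ l + al → 2 * kk + 4 * h ≤ 2 * (T + h) + l + al →
  (∀ j, Cs j ≠ 0 ∧ (Cs j).natDegree ≤ T ∧ Per (Cs j) (F j)) →
  |𝔼 s ∈ box k l, jj p K₁ a₁ b₁ K₂ a₂ b₂ s * ∏ j, F j s| ^ 2 ^ R ≤ 2001 * al * 4 ^ R / qq k ^ h

def PCS_s : Prop := ∀ (Q₁ a₁ b₁ Q₂ a₂ b₂ e₁ e₂ : k[X]) (Θ₁ Θ₂ : k[X] → ℝ) (T r : ℕ), Q₁.Monic →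
  Q₂.Monic → Sm T Q₁ → Sm T Q₂ → 2 * Q₁.natDegree ≤ r * (T + 1) → 2 * Q₂.natDegree ≤ r * (T + 1) →
  e₁.natDegree ≤ T → e₂.natDegree ≤ T → Per e₁ Θ₁ → Per e₂ Θ₂ →
  ∃ (Cs : Fin (2 * r + 4) → k[X]) (F : Fin (2 * r + 4) → k[X] → ℝ),
    (∀ j, Cs j ∣ Q₁ * Q₂ * e₁ * e₂ ∧ (Cs j).natDegree ≤ T ∧ Per (Cs j) (F j)) ∧
    ∀ s, ∏ j, F j s = jj p Q₁ a₁ b₁ Q₂ a₂ b₂ s * (Θ₁ s * Θ₂ s)

def ONE_s : Prop := ∀ (π Q₁ a₁ b₁ Q₂ a₂ b₂ e₁ e₂ : k[X]) (Θ₁ Θ₂ : k[X] → ℝ) (l T h r : ℕ),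
  π.Monic → Irreducible π → ¬ π ∣ Q₁ * Q₂ * e₁ * e₂ → ¬ π ∣ b₁ → Q₁.Monic → Q₂.Monic → Sm T Q₁ →
  Sm T Q₂ → 2 * Q₁.natDegree ≤ r * (T + 1) → 2 * Q₂.natDegree ≤ r * (T + 1) →
  e₁.natDegree ≤ T → e₂.natDegree ≤ T → Per e₁ Θ₁ → Per e₂ Θ₂ → T + h ≤ l →
  2 * h ≤ π.natDegree → π.natDegree + 2 * h ≤ 2 * l →
  |𝔼 s ∈ box k l, jj p (π * Q₁) a₁ b₁ Q₂ a₂ b₂ s * (Θ₁ s * Θ₂ s)| ^ 2 ^ (2 * r + 4) ≤
    6 * 2 ^ (2 * r + 4) / qq k ^ h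

def CHAR_s : Prop := ∀ (M₁ Z₁ a₁ b₁ M₂ Z₂ a₂ b₂ e₁ e₂ π : k[X]) (Θ₁ Θ₂ : k[X] → ℝ)
  (l T h al kk y r B : ℕ), Num l T h al kk y r B → M₁.Monic → Z₁.Monic → M₂.Monic → Z₂.Monic →
  Sm T M₁ → Sm T M₂ → Z₁.natDegree ≤ kk → Z₂.natDegree ≤ kk → (M₁ * Z₁).natDegree ≤ B →
  (M₂ * Z₂).natDegree ≤ B → π ∈ prs k y → π ∣ M₁ → ¬ π ^ 2 ∣ M₁ * Z₁ →
  (∀ ρ : k[X], ρ.Monic → Irreducible ρ → y ≤ ρ.natDegree → ρ ∣ M₁ * Z₁ → ¬ ρ ∣ M₂ * Z₂) →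
  b₁ ≠ 0 → b₂ ≠ 0 → e₁ ≠ 0 → e₂ ≠ 0 → b₁.natDegree < y → b₂.natDegree < y → e₁.natDegree < y →
  e₂.natDegree < y → Per e₁ Θ₁ → Per e₂ Θ₂ →
  |𝔼 s ∈ box k l, jj p (M₁ * Z₁) a₁ b₁ (M₂ * Z₂) a₂ b₂ s * (Θ₁ s * Θ₂ s)| ^ 2 ^ (2 * r + 4) ≤
    2001 * al * 4 ^ (2 * r + 4) / qq k ^ h

def LINE_s : Prop := ∀ (f₁ h₁ f₂ h₂ e₁ e₂ : k[X]) (l T h al kk y r B R : ℕ),
  Num l T h al kk y r B → 1 ≤ R → y + R ≤ T → f₁.Monic → f₂.Monic → h₁ ≠ 0 → h₂ ≠ 0 → e₁ ≠ 0 →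
  e₂ ≠ 0 → h₁.natDegree < y → h₂.natDegree < y → e₁.natDegree < y → e₂.natDegree < y →
  p * (l - 1) + h₁.natDegree < f₁.natDegree → p * (l - 1) + h₂.natDegree < f₂.natDegree →
  wt R y (wronskian f₁ h₁) ≠ 0 → wt R y (wronskian f₂ h₂) ≠ 0 →
  (wronskian f₁ h₁).natDegree ≤ dg R y + kk → (wronskian f₂ h₂).natDegree ≤ dg R y + kk →
  (wronskian f₁ h₁).natDegree ≤ B → (wronskian f₂ h₂).natDegree ≤ B →
  (∀ π ∈ prs k y, ¬ π ^ 2 ∣ wronskian f₁ h₁) →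
  (∀ ρ : k[X], ρ.Monic → Irreducible ρ → y ≤ ρ.natDegree → ρ.natDegree ≤ kk + T →
    ρ ∣ wronskian f₁ h₁ → ¬ ρ ∣ wronskian f₂ h₂) →
  |𝔼 s ∈ box k l, mu (f₁ + s ^ p * h₁) * dv e₁ (f₁ + s ^ p * h₁) *
      (mu (f₂ + s ^ p * h₂) * dv e₂ (f₂ + s ^ p * h₂))| ^ 2 ^ (2 * r + 4) ≤
    2001 * al * 4 ^ (2 * r + 4) / qq k ^ h

/-! ### Averages over lines -/

def EXC_s : Prop := ∀ (π f P D : k[X]) (N : ℕ), π.Monic → Irreducible π → ¬ π ∣ P → ¬ π ∣ D →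
  (∀ j, j ≤ π.natDegree → π.natDegree + j ≤ N →
    𝔼 z ∈ box k N, dv π (wronskian (f + P * z) D) ≤ 1 / qq k ^ j) ∧
  (3 * π.natDegree ≤ N →
    𝔼 z ∈ box k N, dv (π ^ 2) (wronskian (f + P * z) D) ≤ 1 / qq k ^ (2 * π.natDegree))

def GAM_s : Prop := ∀ (c : k) (r P₁ P₂ g : k[X]) (e κ : ℕ), c ≠ 0 → r ≠ 0 → P₁ ∈ prs k e →
  P₂ ∈ prs k e → P₁ ≠ P₂ → g ∈ prs k κ → e < κ → ¬ g ∣ r →
  ∃ Γ : k[X], Γ ≠ 0 ∧ Γ.natDegree ≤ r.natDegree + 3 * e + κ ∧ ∀ m : k[X],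
    P₂ ^ 2 * wronskian (C c * P₁ * m + r) (C c * P₁ * g) -
      P₁ ^ 2 * wronskian (C c * P₂ * m + r) (C c * P₂ * g) = Γ

def WT_s : Prop := ∀ (R y B : ℕ), 1 ≤ y →
  (∀ W : k[X], W.natDegree ≤ B → 0 ≤ wt R y W ∧ wt R y W ≤ (B : ℝ) ^ R) ∧ ro k R y ≤ 1 ∧
  (y + R ≤ B → 1 ≤ (2 * B : ℝ) ^ R * ro k R y)

def PAIR_s : Prop := ∀ (R r u n l T h al kk y a b H e n₁ : ℕ), Par p R r u n l T h al kk y a b H →
  6 * u < e → e ≤ 12 * u → n ≤ n₁ + 1 → n₁ ≤ n →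
  ∀ (c : k) (ρ m P₁ P₂ g e₁ e₂ : k[X]), c ≠ 0 → ρ ≠ 0 → ρ.natDegree ≤ n → P₁ ∈ prs k e →
  P₂ ∈ prs k e → P₁ ≠ P₂ → g ∈ prs k (p * (6 * u + 1)) → ¬ g ∣ ρ → C c * P₁ * m + ρ ∈ mon k n₁ →
  C c * P₂ * m + ρ ∈ mon k n₁ → e₁ ≠ 0 → e₂ ≠ 0 → e₁.natDegree ≤ 12 * u → e₂.natDegree ≤ 12 * u →
  |𝔼 z ∈ box k (n - e - 1),
      wt R y (wronskian (C c * P₁ * (m + z) + ρ) (C c * P₁ * g)) *
        (mu (C c * P₁ * (m + z) + ρ) * dv e₁ (C c * P₁ * (m + z) + ρ)) *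
      (wt R y (wronskian (C c * P₂ * (m + z) + ρ) (C c * P₂ * g)) *
        (mu (C c * P₂ * (m + z) + ρ) * dv e₂ (C c * P₂ * (m + z) + ρ)))| ≤
    ((2 * n : ℝ) ^ R) ^ 2 * (2004 * n * 4 ^ (2 * r + 4) / qq k ^ (40 * u))

/-! ### The law of large numbers over the directions -/

def LEV_s : Prop := ∀ (c : k) (f P g E : k[X]) (R y N a b H : ℕ), c ≠ 0 → P ≠ 0 → g ≠ 0 → E ≠ 0 →
  P.natDegree + g.natDegree + E.natDegree < y →
  p * (a + b + 1) + (p - 1) * ((p - 1) * g.natDegree) ≤ N → dg R y / p ≤ a →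
  a + b + p * (a + 1 - b) + H ≤ dg R y →
  dg R y + ((N + (p - 1) * g.natDegree) / p + 1) + H ≤ N →
  |(𝔼 v ∈ box k N, wt R y (wronskian (f + C c * P * (E ^ p * v)) (C c * P * g))) - ro k R y| ≤
    2 / qq k ^ H

def MAJ_s : Prop := ∀ (ψ : AddChar k[X] ℂ) (κ l e : ℕ), p * (e + 1) ≤ κ + 1 →
  qq k ^ (κ + 1) < qq k ^ (e + 1) *
    (#{g ∈ box k (κ + 1) | ∀ s ∈ box k l, ψ (g * s ^ p) = 1} : ℝ) →
  ∃ E : k[X], E.Monic ∧ E.natDegree ≤ p * e ∧ ∀ v ∈ box k (p * (l - p * e)), ψ (E ^ p * v) = 1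

def FM_s : Prop := ∀ (N κ l e : ℕ) (I : Finset k[X]) (F : k[X] → k[X] → ℝ) (M B : ℝ),
  p * (e + 1) ≤ κ + 1 → κ + p * l ≤ N → p * e ≤ l → I ⊆ box k (κ + 1) →
  (∀ g ∈ I, ∀ s ∈ box k l, ∀ z ∈ box k N, F g (z + g * s ^ p) = F g z) →
  (∀ g ∈ I, ∀ z ∈ box k N, |F g z| ≤ M) →
  (∀ E : k[X], E.Monic → E.natDegree ≤ p * e → ∀ g ∈ I, ∀ z ∈ box k N,
    |𝔼 v ∈ box k (p * (l - p * e)), F g (z + E ^ p * v)| ≤ B) →
  𝔼 z ∈ box k N, (∑ g ∈ I, F g z) ^ 2 ≤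
    qq k ^ κ / qq k ^ e * #I * M ^ 2 + qq k ^ (p * e + 1) * (#I * B) ^ 2

def LLN_s : Prop := ∀ (R r u n l T h al kk y a b H e : ℕ), Par p R r u n l T h al kk y a b H →
  6 * u < e → e ≤ 12 * u → ∀ (c : k) (f P : k[X]) (I : Finset k[X]), c ≠ 0 → f.natDegree ≤ n →
  P ∈ prs k e → I ⊆ prs k (p * (6 * u + 1)) → qq k ^ (p * (6 * u + 1)) ≤ 4 * n * (#I : ℝ) →
  𝔼 z ∈ box k (n - e - 1),
      |∑ g ∈ I, (wt R y (wronskian (f + C c * P * z) (C c * P * g)) - ro k R y)| ≤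
    #I * ((4 * n * (2 * n : ℝ) ^ R + 2 * qq k) / qq k ^ (3 * u))

end

/-! ### The bilinear form -/

def CS_s : Prop := ∀ (Z J I : Type) (S : Finset Z) (Q : Finset J) (G : Finset I) (α : Z → ℝ)
  (Γ : J → Z → ℝ) (w : I → J → Z → ℝ) (ρ Γm wm ε₁ ε₂ : ℝ), S.Nonempty → G.Nonempty → 0 < ρ →
  0 ≤ ε₂ → (∀ z ∈ S, |α z| ≤ 1) → (∀ P ∈ Q, ∀ z ∈ S, |Γ P z| ≤ Γm) →
  (∀ g ∈ G, ∀ P ∈ Q, ∀ z ∈ S, |w g P z| ≤ wm) →
  (∀ P ∈ Q, 𝔼 z ∈ S, |∑ g ∈ G, (w g P z - ρ)| ≤ #G * ε₁) →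
  (∀ g ∈ G, ∀ P₁ ∈ Q, ∀ P₂ ∈ Q, P₁ ≠ P₂ →
    |𝔼 z ∈ S, w g P₁ z * Γ P₁ z * (w g P₂ z * Γ P₂ z)| ≤ ε₂) →
  ρ * |𝔼 z ∈ S, α z * ∑ P ∈ Q, Γ P z| ≤ #Q * Γm * ε₁ + √(#Q * (wm * Γm) ^ 2 + (#Q : ℝ) ^ 2 * ε₂)

def PAR_s : Prop := ∀ p : ℕ, 3 ≤ p → ∃ A R r : ℕ, 100 ≤ A ∧ ∀ᶠ u : ℕ in atTop, ∀ n : ℕ,
  A * u ≤ n → n ≤ 2 * A * u → ∃ l T h al kk y a b H : ℕ, Par p R r u n l T h al kk y a b H

def POLY_s : Prop := ∀ (q c : ℝ) (A K : ℕ), 2 ≤ q → ∀ᶠ u : ℕ in atTop, ∀ n : ℕ, n ≤ 2 * A * u →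
  c * ((n : ℝ) + 1) ^ K ≤ q ^ u

section
variable (k : Type) [Field k] [Fintype k] (p : ℕ)

/-- One class of `m` modulo the box. -/
def COS_s : Prop := ∀ (R r u n l T h al kk y a b H e n₁ : ℕ), Par p R r u n l T h al kk y a b H →
  6 * u < e → e ≤ 12 * u → n ≤ n₁ + 1 → n₁ ≤ n → 4 * (n : ℝ) ^ 2 ≤ qq k ^ u →
  ∀ (c : k) (ρ m : k[X]) (α : k[X] → ℝ) (E : Finset k[X]), c ≠ 0 → ρ ≠ 0 → ρ.natDegree ≤ n →
  (∀ x, |α x| ≤ 1) → (∀ x ∈ E, x ≠ 0 ∧ x.natDegree ≤ 12 * u) →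
  (∀ x ∈ mon k n₁, ∑ x' ∈ E, dv x' x ≤ n) →
  ro k R y * |𝔼 z ∈ box k (n - e - 1), α z * ∑ P ∈ prs k e, GG n₁ E (C c * P * (m + z) + ρ)| ≤
    qq k ^ e * ((4 * n * (2 * n : ℝ) ^ R + 2 * qq k) * n + (2 * n : ℝ) ^ R * n +
      (2 * n : ℝ) ^ R * qq k * (2004 * n * 4 ^ (2 * r + 4))) / qq k ^ (3 * u)

def BIL_s (A : ℕ) : Prop := ∀ᶠ u : ℕ in atTop, ∀ n : ℕ, A * u ≤ n → n ≤ 2 * A * u →
  ∀ e n₁ : ℕ, 6 * u < e → e ≤ 12 * u → n ≤ n₁ + 1 → n₁ ≤ n →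
  ∀ (c : k) (ρ : k[X]) (α : k[X] → ℝ) (E : Finset k[X]), c ≠ 0 → ρ ≠ 0 → ρ.natDegree ≤ n →
  (∀ x, |α x| ≤ 1) → (∀ x ∈ E, x ≠ 0 ∧ x.natDegree ≤ 12 * u) →
  (∀ x ∈ mon k n₁, ∑ x' ∈ E, dv x' x ≤ n) →
  |∑ m ∈ mon k (n - e), α m * ∑ P ∈ prs k e, GG n₁ E (C c * P * m + ρ)| ≤ qq k ^ n / qq k ^ (2 * u)

/-! ### The variance -/

def ORT_s : Prop := ∀ (Q : k[X]) (n n₁ : ℕ) (a b : k[X] → ℝ), Q.Monic → Irreducible Q →
  Q.natDegree ≤ n → n₁ ≤ n → (∀ f ∈ mon k n, b f ≠ 0 → ¬ Q ∣ f) →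
  ∑ χ ∈ ev Q, (∑ x ∈ mon k n₁, (a x : ℂ) * χ (AdjoinRoot.mk Q x)) *
      (starRingEnd ℂ) (∑ f ∈ mon k n, (b f : ℂ) * χ (AdjoinRoot.mk Q f)) =
    ((#(ev Q) * ∑ c ∈ (univ : Finset k).erase 0, ∑ t ∈ box k (n - Q.natDegree + 1),
      ∑ f ∈ mon k n, b f * (if C c * f + Q * t ∈ mon k n₁ then a (C c * f + Q * t) else 0) : ℝ) : ℂ)

def OFF_s : Prop := ∀ (u n n₁ : ℕ) (c : k) (ρ : k[X]) (E : Finset k[X]) (β : ℝ), 24 * u ≤ n →
  (∀ x ∈ mon k n₁, ∑ x' ∈ E, dv x' x ≤ n) →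
  (∀ e, 6 * u < e → e ≤ 12 * u →
    |∑ m ∈ mon k (n - e), mu m * ∑ P ∈ prs k e, GG n₁ E (C c * P * m + ρ)| ≤ β) →
  |∑ f ∈ mon k n, GG n (PP k u) f * GG n₁ E (C c * f + ρ)| ≤
    6 * u * (β + n * qq k ^ n / qq k ^ (6 * u))

def DIAG_s : Prop := ∀ u n : ℕ, 3 ≤ qq k → 1 ≤ u → 24 * u ≤ n →
  1 / 4 ≤ si k u ∧ qq k ^ n * si k u / 2 ≤ ∑ f ∈ mon k n, GG n (PP k u) f * mu f ∧
  ∑ f ∈ mon k n, GG n (PP k u) f * GG n (PP k u) f ≤ qq k ^ n * (si k u + si k u ^ 2) ∧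
  (∀ x ∈ PP k u, x ≠ 0 ∧ x.natDegree ≤ 12 * u) ∧
  (∀ n₁ ≤ n, ∀ x ∈ mon k n₁, ∑ x' ∈ PP k u, dv x' x ≤ n) ∧
  ∀ Q : k[X], Irreducible Q → 12 * u < Q.natDegree → n ≤ Q.natDegree + 6 * u →
    ∀ f ∈ mon k n, GG n (PP k u) f ≠ 0 → ¬ Q ∣ f

/-- The variance bound for one modulus and one degree. -/
def VAR_s : Prop := ∀ (Q : k[X]) (u n : ℕ) (β : ℝ), Q.Monic → Irreducible Q → 3 ≤ qq k → 1 ≤ u →
  24 * u ≤ Q.natDegree → Q.natDegree ≤ n → n ≤ Q.natDegree + u → 0 ≤ β →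
  (∀ (n₁ : ℕ) (c : k) (ρ : k[X]) (E : Finset k[X]), n ≤ n₁ + 1 → n₁ ≤ n → c ≠ 0 → ρ ≠ 0 →
    ρ.natDegree ≤ n → (∀ x ∈ E, x ≠ 0 ∧ x.natDegree ≤ 12 * u) →
    (∀ x ∈ mon k n₁, ∑ x' ∈ E, dv x' x ≤ n) →
    |∑ f ∈ mon k n, GG n (PP k u) f * GG n₁ E (C c * f + ρ)| ≤ β) →
  (#(ev Q) : ℝ) * (qq k ^ n / 20 - 3 * qq k ^ (u + 2) * β) ≤
    ∑ χ ∈ ev Q, ‖MM Q χ n - MM Q χ (n - 1)‖ ^ 2

def LOW_s (τ : ℝ) : Prop := ∀ᶠ d : ℕ in atTop, ∀ Q : k[X], Q.Monic → Irreducible Q →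
  Q.natDegree = d → ∀ n : ℕ, d ≤ n → (n : ℝ) ≤ d + τ * d →
    (#(ev Q) : ℝ) / 30 ≤ ∑ χ ∈ ev Q, ‖HH Q χ n‖ ^ 2

def END_s (η : ℝ) : Prop := ∀ ε : ℝ, 0 < ε →
    ∃ d₀ : ℕ, ∀ Q : k[X], Q.Monic → Irreducible Q → d₀ ≤ Q.natDegree →
      (Nat.card k : ℝ) ^ ((1 - ε) * Q.natDegree) ≤ Set.ncard {χ : MulChar (AdjoinRoot Q) ℂ |
        χ ≠ 1 ∧ (∀ c : k, c ≠ 0 → χ (AdjoinRoot.mk Q (C c)) = 1) ∧
        ∃ θ : Fin (Q.natDegree - 2) → ℝ,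
          (∀ u : ℂ, ∑ n ∈ Finset.range Q.natDegree,
              (∑ᶠ f ∈ {f : k[X] | f.Monic ∧ f.natDegree = n}, χ (AdjoinRoot.mk Q f)) * u ^ n =
            (1 - u) * ∏ j, (1 - ((√(Nat.card k) : ℝ) : ℂ) * Complex.exp (θ j * Complex.I) * u)) ∧
          ∃ i j, i ≠ j ∧
            |θ i - θ j| ≤ (1 / 2 - η) * (2 * Real.pi / ((Q.natDegree : ℝ) - 2))}

end

end H18F

end
end
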